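import Mathlib
import Pool.Agent.Lib.MP_099f24_an.SD.Defs
import Pool.Agent.Lib.MP_099f24_an.LF.Defs

/-!
# MP_099f24_an, PART R: interface with the structure of the blow-ups
-/

namespace Pool.Agent.MP099f24

open Filter Topology Set Metric
open scoped ComplexConjugate

/-- all points `x ≠ p` of `K` near `p` are flat at the scales `≤ c |x - p|` -/
def MSNear (Ω : Set ℂ) (u : ℂ → ℝ) (g : ℂ → ℂ) (p : ℂ) : Prop :=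
  ∀ δ : ℝ, 0 < δ → ∃ c : ℝ, 0 < c ∧ ∃ r₁ : ℝ, 0 < r₁ ∧ ∀ x ∈ closure (discSet Ω u),
    x ≠ p → ‖x - p‖ < r₁ → ∀ r : ℝ, 0 < r → r ≤ c * ‖x - p‖ →
      FlatAt (closure (discSet Ω u)) x r δ ∧ Dq g x r + Lq Ω u x r ≤ (2 + δ) * r

/-- the three alternatives for the blow-ups at `p` -/
def MSBlow (Ω : Set ℂ) (u : ℂ → ℝ) (g : ℂ → ℂ) (p : ℂ) : Prop :=
  (∀ δ : ℝ, 0 < δ → ∃ r₁ : ℝ, 0 < r₁ ∧ ∀ x ∈ closure (discSet Ω u), ‖x - p‖ < r₁ →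
      ∀ r : ℝ, 0 < r → r < r₁ → FlatAt (closure (discSet Ω u)) x r δ ∧
        Dq g x r + Lq Ω u x r ≤ (2 + δ) * r) ∨
  ((∀ δ : ℝ, 0 < δ → ∃ r₁ : ℝ, 0 < r₁ ∧ ∀ r : ℝ, 0 < r → r < r₁ →
      (∃ e, TripodDir (closure (discSet Ω u)) p r δ e) ∧
        Dq g p r + Lq Ω u p r ≤ (3 + δ) * r) ∧ MSNear Ω u g p) ∨
  ((∀ δ : ℝ, 0 < δ → ∃ r₁ : ℝ, 0 < r₁ ∧ ∀ r : ℝ, 0 < r → r < r₁ →
      ∃ e, RayDir (closure (discSet Ω u)) p r δ e) ∧ MSNear Ω u g p)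

end Pool.Agent.MP099f24
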