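import Mathlib
import Pool.Agent.Lib.MP_099f24_an.RG.Defs
import Pool.Agent.Lib.MP_099f24_an.B6.Main
import Pool.Agent.Lib.MP_099f24_an.B6.Elem
import Pool.Agent.Lib.MP_099f24_an.TM.Sca
import Pool.Agent.Lib.MP_099f24_an.Z.Energy

/-!
# MP_099f24_an: from the structure of the blow-ups of the embedded minimizer to `MSBlow`
-/

namespace Pool.Agent.MP099f24

open MeasureTheory Filter Topology Set Metric
open scoped ENNReal ContDiff ComplexConjugate

section conv

variable {K : Set ℂ} {p x : ℂ} {ρ r δ : ℝ}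

theorem rgblow_mem (hb : closedBall x r ⊆ ball p ρ) {y : ℂ} (hy : y ∈ K) (hyx : ‖y - x‖ ≤ r) :
    y ∈ ball p ρ ∩ K :=
  ⟨hb (by rwa [mem_closedBall, dist_eq_norm]), hy⟩

theorem rgblow_flat (hb : closedBall x r ⊆ ball p ρ) (h : FlatAt (ball p ρ ∩ K) x r δ) :
    FlatAt K x r δ := by
  obtain ⟨e, he, h1, h2⟩ := h
  refine ⟨e, he, fun y hy hyx => h1 y (rgblow_mem hb hy hyx) hyx, fun t ht => ?_⟩
  obtain ⟨y, hy, hyt⟩ := h2 t ht
  exact ⟨y, hy.2, hyt⟩

theorem rgblow_tripod (hb : closedBall x r ⊆ ball p ρ)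
    (h : ∃ e, TripodDir (ball p ρ ∩ K) x r δ e) : ∃ e, TripodDir K x r δ e := by
  obtain ⟨e, he, h1, h2⟩ := h
  refine ⟨e, he, fun y hy hyx => h1 y (rgblow_mem hb hy hyx) hyx, fun i t ht0 ht => ?_⟩
  obtain ⟨y, hy, hyt⟩ := h2 i t ht0 ht
  exact ⟨y, hy.2, hyt⟩

theorem rgblow_ray (hb : closedBall x r ⊆ ball p ρ)
    (h : ∃ e, RayDir (ball p ρ ∩ K) x r δ e) : ∃ e, RayDir K x r δ e := by
  obtain ⟨e, he, h1, h2⟩ := h
  refine ⟨e, he, fun y hy hyx => h1 y (rgblow_mem hb hy hyx) hyx, fun t ht0 ht => ?_⟩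
  obtain ⟨y, hy, hyt⟩ := h2 t ht0 ht
  exact ⟨y, hy.2, hyt⟩

end conv

/-- the energy at the scale `r` -/
theorem rgblow_energy {Ω : Set ℂ} {u : ℂ → ℝ} {g j : ℂ → ℂ} (h : MSMin Ω u g j) {u' : ℂ → ℝ}
    {p : ℂ} {ρ : ℝ} (hb : ball p ρ ⊆ Ω)
    (hae : ∀ᵐ z ∂(volume.restrict (ball p ρ)), cgr u' z = g z) {x : ℂ} {r t : ℝ} (hr : 0 < r)
    (hrt : r < t) (hx : closedBall x t ⊆ ball p ρ) {c : ℝ}
    (he : b6e ((b6of u' (ball p ρ ∩ closure (discSet Ω u))).resc x r) ≤ c) :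
    Dq g x r + Lq Ω u x r ≤ c * r := by
  set KB : Set ℂ := ball p ρ ∩ closure (discSet Ω u) with hKB
  have hKBm : MeasurableSet KB := measurableSet_ball.inter isClosed_closure.measurableSet
  obtain ⟨e1, e2⟩ := emb_energy_closed h hb hae hrt hx
  have hpre : (fun z : ℂ => x + r • z) ⁻¹' closedBall x r = closedBall 0 1 := by
    ext z
    rw [mem_preimage, mem_closedBall, mem_closedBall, dist_eq_norm, dist_eq_norm, sub_zero,
      add_sub_cancel_left, norm_smul, Real.norm_eq_abs, abs_of_pos hr]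
    constructor
    · intro h
      exact le_of_mul_le_mul_left (by linarith) hr
    · intro h
      nlinarith
  have hmeas : Measurable fun z : ℂ => x + r • z := by fun_prop
  have hE : b6E ((b6of u' KB).resc x r) = ENNReal.ofReal r⁻¹ * cen u' KB (closedBall x r) := by
    rw [b6of_resc u' KB x hr, b6E_of _ _ (hmeas hKBm), ← hpre, cen_scale u' KB _ x hr]
  have hfin : cen u' KB (closedBall x r) ≠ ⊤ := (e2.trans_lt ENNReal.ofReal_lt_top).ne
  have h1 : b6e ((b6of u' KB).resc x r) = r⁻¹ * (cen u' KB (closedBall x r)).toReal := by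
    rw [b6e, hE, ENNReal.toReal_mul, ENNReal.toReal_ofReal (by positivity)]
  rw [h1] at he
  have h2 : Dq g x r + Lq Ω u x r ≤ (cen u' KB (closedBall x r)).toReal := by
    rw [← ENNReal.ofReal_le_iff_le_toReal hfin]
    exact e1
  have h3 : r * (r⁻¹ * (cen u' KB (closedBall x r)).toReal) ≤ r * c :=
    mul_le_mul_of_nonneg_left he hr.le
  rw [← mul_assoc, mul_inv_cancel₀ hr.ne', one_mul] at h3
  linarith

/-- **Structure of the blow-ups** of a minimizer, from the structure of the blow-ups of the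
embedded minimizer. -/
theorem rg_blow {Ω : Set ℂ} {u : ℂ → ℝ} {g j : ℂ → ℂ} (h : MSMin Ω u g j) {p : ℂ}
    {ρ : ℝ} (hρ : 0 < ρ) (hb : ball p ρ ⊆ Ω) {u' : ℂ → ℝ}
    (hae : ∀ᵐ z ∂(volume.restrict (ball p ρ)), cgr u' z = g z)
    {G : Set B6El} {D : B6El → ℝ → ℝ} (hG : B6Class G D b6e)
    (hloc : B6Loc G b6e (b6of u' (ball p ρ ∩ closure (discSet Ω u))) p) :
    MSBlow Ω u g p := by
  set K : Set ℂ := closure (discSet Ω u) with hK
  have hball : ∀ x : ℂ, ‖x - p‖ < ρ / 4 → ∀ r : ℝ, r < ρ / 4 →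
      closedBall x (r + ρ / 4) ⊆ ball p ρ := by
    intro x hx r hr z hz
    have e1 := mem_closedBall.1 hz
    have e2 := dist_triangle z x p
    rw [dist_eq_norm x p] at e2
    rw [mem_ball]
    linarith
  have hmemK : ∀ x ∈ K, ‖x - p‖ < ρ / 4 → x ∈ (b6of u' (ball p ρ ∩ K)).K := by
    intro x hx hxp
    exact ⟨by rw [mem_ball, dist_eq_norm]; linarith, hx⟩
  -- the energy and the flatness
  have hline : ∀ δ : ℝ, ∀ x : ℂ, ‖x - p‖ < ρ / 4 → ∀ r : ℝ, 0 < r → r < ρ / 4 →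
      B6LineGood b6e (b6of u' (ball p ρ ∩ K)) δ x r →
      FlatAt K x r δ ∧ Dq g x r + Lq Ω u x r ≤ (2 + δ) * r := by
    intro δ x hx r hr hr1 hgood
    have hcb := hball x hx r hr1
    have hcb' : closedBall x r ⊆ ball p ρ :=
      (closedBall_subset_closedBall (by linarith)).trans hcb
    exact ⟨rgblow_flat hcb' hgood.1, rgblow_energy h hb hae hr (by linarith) hcb hgood.2.2⟩
  have hnear : B6Near b6e (b6of u' (ball p ρ ∩ K)) p → MSNear Ω u g p := by
    intro hN δ hδ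
    obtain ⟨c, hc, r₁, hr₁, H⟩ := hN δ hδ
    refine ⟨min c 1, lt_min hc one_pos, min r₁ (ρ / 4), lt_min hr₁ (by positivity), ?_⟩
    intro x hx hxp hxr r hr hrc
    have hxρ : ‖x - p‖ < ρ / 4 := hxr.trans_le (min_le_right _ _)
    have hd : 0 ≤ ‖x - p‖ := norm_nonneg _
    refine hline δ x hxρ r hr ?_ (H x (hmemK x hx hxρ) hxp (hxr.trans_le (min_le_left _ _)) r hr
      (hrc.trans (mul_le_mul_of_nonneg_right (min_le_left _ _) hd)))
    have : min c 1 * ‖x - p‖ ≤ 1 * ‖x - p‖ := mul_le_mul_of_nonneg_right (min_le_right _ _) hd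
    linarith
  rcases b6_main hG hloc with H | ⟨H, hN, -⟩ | ⟨H, hN⟩
  · left
    intro δ hδ
    obtain ⟨r₁, hr₁, H1⟩ := H δ hδ
    refine ⟨min r₁ (ρ / 4), lt_min hr₁ (by positivity), ?_⟩
    intro x hx hxr r hr hrr
    have hxρ : ‖x - p‖ < ρ / 4 := hxr.trans_le (min_le_right _ _)
    exact hline δ x hxρ r hr (hrr.trans_le (min_le_right _ _))
      (H1 x (hmemK x hx hxρ) (hxr.trans_le (min_le_left _ _)) r hr
        (hrr.trans_le (min_le_left _ _)))
  · right; left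
    refine ⟨?_, hnear hN⟩
    intro δ hδ
    obtain ⟨r₁, hr₁, H1⟩ := H δ hδ
    refine ⟨min r₁ (ρ / 4), lt_min hr₁ (by positivity), ?_⟩
    intro r hr hrr
    have hcb := hball p (by rw [sub_self, norm_zero]; positivity) r
      (hrr.trans_le (min_le_right _ _))
    have hcb' : closedBall p r ⊆ ball p ρ :=
      (closedBall_subset_closedBall (by linarith)).trans hcb
    have hgood := H1 r hr (hrr.trans_le (min_le_left _ _))
    exact ⟨rgblow_tripod hcb' hgood.1, rgblow_energy h hb hae hr (by linarith) hcb hgood.2.2⟩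
  · right; right
    refine ⟨?_, hnear hN⟩
    intro δ hδ
    obtain ⟨r₁, hr₁, H1⟩ := H δ hδ
    refine ⟨min r₁ (ρ / 4), lt_min hr₁ (by positivity), ?_⟩
    intro r hr hrr
    have hcb := hball p (by rw [sub_self, norm_zero]; positivity) r
      (hrr.trans_le (min_le_right _ _))
    have hcb' : closedBall p r ⊆ ball p ρ :=
      (closedBall_subset_closedBall (by linarith)).trans hcb
    exact rgblow_ray hcb' (H1 r hr (hrr.trans_le (min_le_left _ _))).1

end Pool.Agent.MP099f24
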