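import Mathlib
import Pool.Agent.Lib.MP_099f24_an.SD.Defs

/-!
# No long arc between balanced points of a circle
-/

set_option autoImplicit false

namespace Pool.Agent.MP099f24

open MeasureTheory Filter Topology Set Metric
open scoped ENNReal ContDiff ComplexConjugate

theorem rg_arc_angle {x a : ℂ} {s : ℝ} (h1 : ‖x - a‖ = s) (α : ℝ) :
    ∃ φ : ℝ, α < φ ∧ φ ≤ α + 2 * Real.pi ∧ x = pc a s φ := by
  refine ⟨toIocMod Real.two_pi_pos α (x - a).arg, (toIocMod_mem_Ioc _ _ _).1,
    (toIocMod_mem_Ioc _ _ _).2, ?_⟩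
  have h2 := Complex.norm_mul_exp_arg_mul_I (x - a)
  rw [h1] at h2
  have h3 : er (toIocMod Real.two_pi_pos α (x - a).arg) = er (x - a).arg := by
    rw [er, er, Complex.exp_eq_exp_iff_exists_int]
    refine ⟨-(toIocDiv Real.two_pi_pos α (x - a).arg), ?_⟩
    rw [toIocMod]
    push_cast
    simp only [zsmul_eq_mul]
    push_cast
    ring
  rw [pc, h3, er, h2]
  ring

theorem rg_arc_cos {x : ℝ} (h1 : |x| ≤ Real.pi - 16 / 10) : 1 / 50 < Real.cos x := by
  have hpi := Real.pi_lt_d4
  have hpi3 := Real.pi_gt_three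
  have h2 : Real.cos (Real.pi - 16 / 10) ≤ Real.cos |x| :=
    Real.cos_le_cos_of_nonneg_of_le_pi (abs_nonneg x) (by linarith) h1
  rw [Real.cos_abs] at h2
  have h3 : Real.cos (Real.pi - 16 / 10) = Real.sin (16 / 10 - Real.pi / 2) := by
    rw [Real.sin_sub_pi_div_two, Real.cos_pi_sub]
  have h4 : Real.sin (292 / 10000) ≤ Real.sin (16 / 10 - Real.pi / 2) := by
    apply Real.sin_le_sin_of_le_of_le_pi_div_two
    · linarith
    · linarith
    · linarith
  have h5 := Real.sin_gt_sub_cube (x := 292 / 10000) (by norm_num)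
  norm_num at h5
  rw [h3] at h2
  linarith

theorem rg_arc {K : Set ℂ} {a : ℂ} {s : ℝ} (hs : 0 < s) {n : ℕ} (p : Fin n → ℂ)
    (hn : 0 < n) (hp : ∀ i, p i ∈ K ∧ ‖p i - a‖ = s)
    (hsum : ‖∑ i, (p i - a)‖ ≤ n * s / 50) :
    ∀ α β : ℝ, α < β → (∀ θ ∈ Ioo α β, pc a s θ ∉ K) → β - α ≤ 32 / 10 := by
  intro α β _ hK
  by_contra hcon
  push Not at hcon
  choose φ hφ1 hφ2 hφ using fun i => rg_arc_angle (hp i).2 α
  have hφ3 : ∀ i, β ≤ φ i := by
    intro i
    by_contra hlt
    push Not at hlt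
    exact hK (φ i) ⟨hφ1 i, hlt⟩ (by rw [← hφ i]; exact (hp i).1)
  set μ : ℝ := α + 16 / 10 + Real.pi with hμ
  have hcos : ∀ i, 1 / 50 < Real.cos (φ i - μ) := by
    intro i
    apply rg_arc_cos
    rw [abs_le]
    have := hφ3 i
    have := hφ2 i
    constructor <;> rw [hμ] <;> linarith
  have hterm : ∀ i, ((p i - a) * conj (er μ)).re = s * Real.cos (φ i - μ) := by
    intro i
    have e1 : (p i - a) * conj (er μ) = (s : ℂ) * Complex.exp (((φ i - μ : ℝ) : ℂ) * Complex.I) := by
      rw [hφ i, pc, er, er, ← Complex.exp_conj]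
      have : a + (s : ℂ) * Complex.exp (φ i * Complex.I) - a = s * Complex.exp (φ i * Complex.I) := by
        ring
      rw [this, mul_assoc, ← Complex.exp_add]
      congr 2
      rw [map_mul, Complex.conj_I, Complex.conj_ofReal]
      push_cast
      ring
    rw [e1, Complex.re_ofReal_mul, Complex.exp_ofReal_mul_I_re]
  have hre : ((∑ i, (p i - a)) * conj (er μ)).re = ∑ i, s * Real.cos (φ i - μ) := by
    rw [Finset.sum_mul, Complex.re_sum]
    exact Finset.sum_congr rfl (fun i _ => hterm i)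
  have hlt : (n : ℝ) * (s / 50) < ∑ i, s * Real.cos (φ i - μ) := by
    have h1 : ∑ _i : Fin n, s / 50 < ∑ i, s * Real.cos (φ i - μ) := by
      have hne : (Finset.univ : Finset (Fin n)).Nonempty := ⟨⟨0, hn⟩, Finset.mem_univ _⟩
      refine Finset.sum_lt_sum_of_nonempty hne (fun i _ => ?_)
      have := hcos i
      have h2 := mul_lt_mul_of_pos_left this hs
      linarith
    rw [Finset.sum_const, Finset.card_univ, Fintype.card_fin, nsmul_eq_mul] at h1
    exact h1
  have hle : ((∑ i, (p i - a)) * conj (er μ)).re ≤ n * s / 50 := by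
    refine (Complex.re_le_norm _).trans ?_
    rw [norm_mul, RCLike.norm_conj, er, Complex.norm_exp_ofReal_mul_I, mul_one]
    exact hsum
  rw [hre] at hle
  have : (n : ℝ) * (s / 50) = n * s / 50 := by ring
  linarith

end Pool.Agent.MP099f24
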