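import Mathlib
import Pool.Agent.Lib.MP_099f24_an.LF.Defs

/-!
# MP_099f24_an, PART R, module RCHAIN: local connectivity of flat sets
-/

namespace Pool.Agent.MP099f24

open MeasureTheory Filter Topology Set Metric
open scoped ENNReal ContDiff ComplexConjugate

/-- `K` is `δ`-flat at all points of `K` in the closed ball `B_R(x₀)` and at all scales `≤ R`. -/
def FlatReg (K : Set ℂ) (x₀ : ℂ) (R δ : ℝ) : Prop :=
  ∀ x ∈ K, ‖x - x₀‖ ≤ R → ∀ r : ℝ, 0 < r → r ≤ R → FlatAt K x r δ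

theorem rgchain_unit {e : ℂ} (he : ‖e‖ = 1) : e * conj e = 1 := by
  rw [Complex.mul_conj, Complex.normSq_eq_norm_sq, he]; simp

/-- decomposition of a vector with respect to a unit vector -/
theorem rgchain_dec {e z : ℂ} (he : ‖e‖ = 1) :
    z = ((z * conj e).re : ℂ) * e + ((z * conj e).im : ℂ) * (Complex.I * e) := by
  have h1 : z = (z * conj e) * e := by
    rw [mul_assoc, mul_comm (conj e), rgchain_unit he, mul_one]
  have h2 := Complex.re_add_im (z * conj e)
  calc z = (z * conj e) * e := h1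
    _ = (((z * conj e).re : ℂ) + ((z * conj e).im : ℂ) * Complex.I) * e := by rw [h2]
    _ = _ := by ring

theorem rgchain_re_le {e z : ℂ} (he : ‖e‖ = 1) : |(z * conj e).re| ≤ ‖z‖ := by
  refine (Complex.abs_re_le_norm _).trans ?_
  rw [norm_mul, RCLike.norm_conj, he, mul_one]

theorem rgchain_im_le {e z : ℂ} (he : ‖e‖ = 1) : |(z * conj e).im| ≤ ‖z‖ := by
  refine (Complex.abs_im_le_norm _).trans ?_
  rw [norm_mul, RCLike.norm_conj, he, mul_one]

theorem rgchain_sq {e z : ℂ} (he : ‖e‖ = 1) :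
    ‖z‖ ^ 2 = (z * conj e).re ^ 2 + (z * conj e).im ^ 2 := by
  have h : ‖z * conj e‖ = ‖z‖ := by rw [norm_mul, RCLike.norm_conj, he, mul_one]
  rw [← h, ← Complex.normSq_eq_norm_sq, Complex.normSq_apply]
  ring

theorem rgchain_dist {e z : ℂ} (he : ‖e‖ = 1) (s : ℝ) :
    ‖z - s * e‖ ≤ |(z * conj e).re - s| + |(z * conj e).im| := by
  have h1 : z - s * e = ((((z * conj e).re - s : ℝ)) : ℂ) * e +
      ((z * conj e).im : ℂ) * (Complex.I * e) := by
    conv_lhs => rw [rgchain_dec (z := z) he]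
    push_cast
    ring
  rw [h1]
  refine (norm_add_le _ _).trans ?_
  rw [norm_mul, norm_mul, norm_mul, he, Complex.norm_I, Complex.norm_real, Complex.norm_real]
  simp

/-- the midpoint property of flat sets -/
theorem rgchain_mid {K : Set ℂ} {a b : ℂ} {δ : ℝ} (hb : b ∈ K) (hab : a ≠ b)
    (hF : FlatAt K a ‖a - b‖ δ) :
    ∃ c ∈ K, ‖c - a‖ ≤ (1 / 2 + 2 * δ) * ‖a - b‖ ∧ ‖c - b‖ ≤ (1 / 2 + 2 * δ) * ‖a - b‖ := by
  obtain ⟨e, he, h1, h2⟩ := hF
  set ρ := ‖a - b‖ with hρ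
  have hρ0 : 0 < ρ := norm_pos_iff.2 (sub_ne_zero.2 hab)
  have hba : ‖b - a‖ = ρ := norm_sub_rev b a
  have hIm := h1 b hb hba.le
  have hδ0 : 0 ≤ δ * ρ := (abs_nonneg _).trans hIm
  set τ := ((b - a) * conj e).re with hτ
  have hτρ : |τ| ≤ ρ := by rw [← hba]; exact rgchain_re_le he
  obtain ⟨c, hc, hca⟩ := h2 (τ / 2) (by
    rw [abs_div, abs_two]; linarith [abs_nonneg τ])
  refine ⟨c, hc, ?_, ?_⟩
  · have e1 : c - a = (c - (a + (τ / 2 : ℝ) * e)) + (τ / 2 : ℝ) * e := by ring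
    rw [e1]
    refine (norm_add_le _ _).trans ?_
    rw [norm_mul, he, mul_one, Complex.norm_real, Real.norm_eq_abs, abs_div, abs_two]
    nlinarith
  · have h3 := rgchain_dist (z := b - a) he (τ / 2)
    have e1 : c - b = (c - (a + (τ / 2 : ℝ) * e)) - ((b - a) - (τ / 2 : ℝ) * e) := by ring
    rw [e1]
    refine (norm_sub_le _ _).trans ?_
    have h4 : |((b - a) * conj e).re - τ / 2| = |τ| / 2 := by
      rw [← hτ]
      have : τ - τ / 2 = τ / 2 := by ring
      rw [this, abs_div, abs_two]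
    rw [h4] at h3
    linarith

theorem rg_chain {K : Set ℂ} (hK : IsClosed K) {x₀ : ℂ} {R δ : ℝ} (hδ : δ ≤ 1 / 100)
    (hF : FlatReg K x₀ R δ) {x y : ℂ} (hx : x ∈ K) (hy : y ∈ K)
    (hxy : ‖x - x₀‖ + 3 * ‖x - y‖ ≤ R) :
    ∃ Γ : Set ℂ, IsCompact Γ ∧ IsPreconnected Γ ∧ Γ ⊆ K ∧ x ∈ Γ ∧ y ∈ Γ ∧
      Γ ⊆ closedBall x (3 * ‖x - y‖) := by
  set d := ‖x - y‖ with hd
  have hd0 : 0 ≤ d := norm_nonneg _
  set Z : Set ℂ := K ∩ closedBall x (3 * d) with hZ
  have hZc : IsCompact Z := (isCompact_closedBall x (3 * d)).inter_left hK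
  have hxZ : x ∈ Z := ⟨hx, mem_closedBall_self (by linarith)⟩
  have hyZ : y ∈ Z := ⟨hy, by
    rw [mem_closedBall, dist_eq_norm, norm_sub_rev]; linarith⟩
  have hcs : CompactSpace Z := isCompact_iff_compactSpace.mp hZc
  set x' : Z := ⟨x, hxZ⟩ with hx'
  set y' : Z := ⟨y, hyZ⟩ with hy'
  -- the component of `x`
  by_cases hcomp : y' ∈ connectedComponent x'
  · refine ⟨Subtype.val '' connectedComponent x', ?_, ?_, ?_, ⟨x', mem_connectedComponent, rfl⟩,
      ⟨y', hcomp, rfl⟩, ?_⟩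
    · exact isClosed_connectedComponent.isCompact.image continuous_subtype_val
    · exact isPreconnected_connectedComponent.image _ continuous_subtype_val.continuousOn
    · rintro _ ⟨z, -, rfl⟩
      exact z.2.1
    · rintro _ ⟨z, -, rfl⟩
      exact z.2.2
  exfalso
  rw [connectedComponent_eq_iInter_isClopen] at hcomp
  simp only [mem_iInter, not_forall] at hcomp
  obtain ⟨⟨P', hP', hxP'⟩, hyP'⟩ := hcomp
  simp only at hyP'
  set P : Set ℂ := Subtype.val '' P' with hP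
  set Q : Set ℂ := Subtype.val '' P'ᶜ with hQ
  have hPc : IsCompact P := hP'.isClosed.isCompact.image continuous_subtype_val
  have hQc : IsCompact Q := hP'.compl.isClosed.isCompact.image continuous_subtype_val
  have hPQ : Disjoint P Q := by
    rw [Set.disjoint_left]
    rintro _ ⟨z, hz, rfl⟩ ⟨w, hw, hwz⟩
    have : w = z := Subtype.ext hwz
    exact hw (this ▸ hz)
  have hcov : ∀ z ∈ Z, z ∈ P ∨ z ∈ Q := by
    intro z hz
    by_cases h : (⟨z, hz⟩ : Z) ∈ P'
    · exact Or.inl ⟨_, h, rfl⟩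
    · exact Or.inr ⟨_, h, rfl⟩
  have hPZ : P ⊆ Z := by rintro _ ⟨z, -, rfl⟩; exact z.2
  have hQZ : Q ⊆ Z := by rintro _ ⟨z, -, rfl⟩; exact z.2
  have hxP : x ∈ P := ⟨x', hxP', rfl⟩
  have hyQ : y ∈ Q := ⟨y', hyP', rfl⟩
  obtain ⟨η, hη, hsep⟩ : ∃ η > 0, ∀ a ∈ P, ∀ b ∈ Q, η ≤ ‖a - b‖ := by
    obtain ⟨r, hr, h⟩ := Metric.exists_pos_forall_lt_edist hPc hQc.isClosed hPQ
    refine ⟨r, by exact_mod_cast hr, fun a ha b hb => ?_⟩
    have := h a ha b hb
    rw [edist_nndist, ENNReal.coe_lt_coe] at this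
    have h2 : (r : ℝ) < nndist a b := by exact_mod_cast this
    rw [coe_nndist, dist_eq_norm] at h2
    exact h2.le
  have hδ0 : 0 ≤ δ ∨ d = 0 := by
    by_contra hcon
    push Not at hcon
    have hd1 : 0 < d := lt_of_le_of_ne hd0 (Ne.symm hcon.2)
    obtain ⟨e, he, h1, -⟩ := hF x hx (by linarith) d hd1 (by linarith [norm_nonneg (x - x₀)])
    have := (abs_nonneg _).trans (h1 x hx (by rw [sub_self, norm_zero]; exact hd0))
    nlinarith
  have hd1 : 0 < d := by
    have := hsep x hxP y hyQ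
    linarith
  have hδ0' : 0 ≤ δ := by
    rcases hδ0 with h | h
    · exact h
    · exact absurd h hd1.ne'
  -- iteration
  have hstep : ∀ n : ℕ, ∃ a ∈ P, ∃ b ∈ Q, ‖a - b‖ ≤ (13 / 25) ^ n * d ∧
      ‖a - x‖ ≤ (13 / 12) * (1 - (13 / 25) ^ n) * d ∧
      ‖b - y‖ ≤ (13 / 12) * (1 - (13 / 25) ^ n) * d := by
    intro n
    induction n with
    | zero => exact ⟨x, hxP, y, hyQ, by simp [hd], by simp, by simp⟩
    | succ n ih =>
      obtain ⟨a, ha, b, hb, h1, h2, h3⟩ := ih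
      set q : ℝ := (13 / 25) ^ n with hq
      have hq0 : 0 < q := by positivity
      have hq1 : q ≤ 1 := pow_le_one₀ (by norm_num) (by norm_num)
      have hne : a ≠ b := by
        rintro rfl
        exact (Set.disjoint_left.1 hPQ ha) hb
      have hab0 : 0 < ‖a - b‖ := norm_pos_iff.2 (sub_ne_zero.2 hne)
      have hqd : q * d ≤ d := by nlinarith
      have haK : a ∈ K := (hPZ ha).1
      have hax0 : ‖a - x₀‖ ≤ R := by
        have : a - x₀ = (a - x) + (x - x₀) := by ring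
        rw [this]
        refine (norm_add_le _ _).trans ?_
        nlinarith
      obtain ⟨c, hc, hca, hcb⟩ := rgchain_mid (hQZ hb).1 hne (hF a haK hax0 _ hab0
        (by linarith [norm_nonneg (x - x₀)]))
      have hca' : ‖c - a‖ ≤ 13 / 25 * (q * d) := by
        refine hca.trans ?_
        have : (1 / 2 + 2 * δ) ≤ 13 / 25 := by linarith
        nlinarith [norm_nonneg (a - b)]
      have hcb' : ‖c - b‖ ≤ 13 / 25 * (q * d) := by
        refine hcb.trans ?_
        have : (1 / 2 + 2 * δ) ≤ 13 / 25 := by linarith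
        nlinarith [norm_nonneg (a - b)]
      have hcx : ‖c - x‖ ≤ 13 / 12 * (1 - 13 / 25 * q) * d := by
        have : c - x = (c - a) + (a - x) := by ring
        rw [this]
        refine (norm_add_le _ _).trans ?_
        nlinarith
      have hcy : ‖c - y‖ ≤ 13 / 12 * (1 - 13 / 25 * q) * d := by
        have : c - y = (c - b) + (b - y) := by ring
        rw [this]
        refine (norm_add_le _ _).trans ?_
        nlinarith
      have hpow : (13 / 25 : ℝ) ^ (n + 1) = 13 / 25 * q := by rw [pow_succ, hq]; ring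
      have hcZ : c ∈ Z := by
        refine ⟨hc, ?_⟩
        rw [mem_closedBall, dist_eq_norm]
        refine hcx.trans ?_
        nlinarith
      rw [hpow]
      rcases hcov c hcZ with hcP | hcQ
      · refine ⟨c, hcP, b, hb, ?_, hcx, ?_⟩
        · linarith
        · refine h3.trans ?_
          nlinarith
      · refine ⟨a, ha, c, hcQ, ?_, ?_, hcy⟩
        · rw [norm_sub_rev]; linarith
        · refine h2.trans ?_
          nlinarith
  have hlim : Tendsto (fun n : ℕ => (13 / 25 : ℝ) ^ n * d) atTop (𝓝 0) := by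
    simpa using (tendsto_pow_atTop_nhds_zero_of_lt_one (by norm_num : (0 : ℝ) ≤ 13 / 25)
      (by norm_num)).mul_const d
  obtain ⟨n, hn⟩ := (hlim.eventually (gt_mem_nhds hη)).exists
  obtain ⟨a, ha, b, hb, h1, -, -⟩ := hstep n
  linarith [hsep a ha b hb]

/-- one side of `rg_cross` -/
theorem rgchain_side {K : Set ℂ} (hK : IsClosed K) {x₀ : ℂ} {R δ : ℝ} (hδ : δ ≤ 1 / 100)
    (hF : FlatReg K x₀ R δ) {x : ℂ} (hx : x ∈ K) {T t : ℝ} (hT : ‖x - x₀‖ + T ≤ R) {e : ℂ}
    (he : FlatDir K x T δ e) (ht0 : 0 < t) (ht : 4 * t ≤ T) (hδT : 50 * (δ * T) ≤ t) :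
    ∃ p ∈ K, ‖p - x‖ = t ∧ 0 < ((p - x) * conj e).re := by
  obtain ⟨he1, h1, h2⟩ := he
  have hT0 : 0 < T := by linarith
  obtain ⟨z, hz, hzx⟩ := h2 (5 / 4 * t) (by rw [abs_of_pos (by positivity)]; linarith)
  have hzx' : ‖z - (x + (5 / 4 * t : ℝ) * e)‖ ≤ t / 50 := by linarith
  have hn1 : ‖((5 / 4 * t : ℝ) : ℂ) * e‖ = 5 / 4 * t := by
    rw [norm_mul, he1, mul_one, Complex.norm_real, Real.norm_eq_abs, abs_of_pos (by positivity)]
  have hzx1 : ‖x - z‖ ≤ 5 / 4 * t + t / 50 := by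
    have : x - z = -(z - (x + (5 / 4 * t : ℝ) * e)) - (5 / 4 * t : ℝ) * e := by ring
    rw [this]
    refine (norm_sub_le _ _).trans ?_
    rw [norm_neg, hn1]
    linarith
  have hzre : 5 / 4 * t - t / 50 ≤ ((z - x) * conj e).re := by
    have h3 : (z - x) * conj e = (z - (x + (5 / 4 * t : ℝ) * e)) * conj e +
        (5 / 4 * t : ℝ) * (e * conj e) := by ring
    rw [h3, rgchain_unit he1, mul_one, Complex.add_re, Complex.ofReal_re]
    have := neg_abs_le ((z - (x + (5 / 4 * t : ℝ) * e)) * conj e).re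
    have h4 := rgchain_re_le (z := z - (x + (5 / 4 * t : ℝ) * e)) he1
    linarith
  obtain ⟨Γ, hΓc, hΓp, hΓK, hxΓ, hzΓ, hΓb⟩ := rg_chain hK hδ hF hx hz (by
    have : 3 * ‖x - z‖ ≤ T := by linarith
    linarith)
  by_contra hcon
  push Not at hcon
  -- the two parts
  set f : ℂ → ℝ := fun w => ((w - x) * conj e).re with hf
  have hfc : Continuous f := by
    refine Complex.continuous_re.comp ?_
    exact (continuous_id.sub continuous_const).mul continuous_const
  have hnc : Continuous fun w : ℂ => ‖w - x‖ := (continuous_id.sub continuous_const).norm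
  set A : Set ℂ := {w | ‖w - x‖ ≤ t} ∪ {w | f w ≤ 0} with hA
  set B : Set ℂ := {w | t ≤ ‖w - x‖} ∩ {w | 0 ≤ f w} with hB
  have hAc : IsClosed A := (isClosed_le hnc continuous_const).union
    (isClosed_le hfc continuous_const)
  have hBc : IsClosed B := (isClosed_le continuous_const hnc).inter
    (isClosed_le continuous_const hfc)
  have hcov : Γ ⊆ A ∪ B := by
    intro w _
    by_cases h3 : ‖w - x‖ ≤ t
    · exact Or.inl (Or.inl h3)
    by_cases h4 : f w ≤ 0
    · exact Or.inl (Or.inr h4)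
    · exact Or.inr ⟨(not_le.1 h3).le, (not_le.1 h4).le⟩
  have hne := isPreconnected_closed_iff.1 hΓp A B hAc hBc hcov
    ⟨x, hxΓ, Or.inl (by simp only [mem_setOf_eq, sub_self, norm_zero]; exact ht0.le)⟩
    ⟨z, hzΓ, by
      refine ⟨?_, ?_⟩
      · simp only [mem_setOf_eq]
        have := (le_abs_self _).trans (rgchain_re_le (z := z - x) he1)
        linarith
      · simp only [mem_setOf_eq, hf]
        linarith⟩
  obtain ⟨w, hwΓ, hwA, hwB⟩ := hne
  have hwK := hΓK hwΓ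
  have hwT : ‖w - x‖ ≤ T := by
    have := hΓb hwΓ
    rw [mem_closedBall, dist_eq_norm] at this
    linarith
  have hwim := h1 w hwK hwT
  have hsq := rgchain_sq (z := w - x) he1
  have hwt : t ≤ ‖w - x‖ := hwB.1
  have hw0 : 0 ≤ f w := hwB.2
  -- `f w > 0`
  have hfw : 0 < f w := by
    rcases hw0.lt_or_eq with h3 | h3
    · exact h3
    exfalso
    have h4 : ((w - x) * conj e).re = 0 := h3.symm
    rw [h4] at hsq
    have h5 : ((w - x) * conj e).im ^ 2 ≤ (t / 50) ^ 2 := by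
      rw [← sq_abs ((w - x) * conj e).im]
      have : |((w - x) * conj e).im| ≤ t / 50 := by linarith
      exact pow_le_pow_left₀ (abs_nonneg _) this 2
    nlinarith
  have hwt' : ‖w - x‖ ≤ t := by
    rcases hwA with h3 | h3
    · exact h3
    · exact absurd hfw (not_lt.2 h3)
  exact absurd hfw (not_lt.2 (hcon w hwK (le_antisymm hwt' hwt)))

theorem rgchain_neg {K : Set ℂ} {x : ℂ} {T δ : ℝ} {e : ℂ} (he : FlatDir K x T δ e) :
    FlatDir K x T δ (-e) := by
  obtain ⟨h0, h1, h2⟩ := he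
  refine ⟨by rw [norm_neg, h0], fun y hy hyx => ?_, fun t ht => ?_⟩
  · have := h1 y hy hyx
    rw [map_neg, mul_neg, Complex.neg_im, abs_neg]
    exact this
  · obtain ⟨y, hy, hy2⟩ := h2 (-t) (by rwa [abs_neg])
    refine ⟨y, hy, ?_⟩
    have e1 : x + (t : ℂ) * -e = x + ((-t : ℝ) : ℂ) * e := by push_cast; ring
    rw [e1]
    exact hy2

theorem rg_cross {K : Set ℂ} (hK : IsClosed K) {x₀ : ℂ} {R δ : ℝ} (hδ : δ ≤ 1 / 100)
    (hF : FlatReg K x₀ R δ) {x : ℂ} (hx : x ∈ K) {T t : ℝ} (hT : ‖x - x₀‖ + T ≤ R) {e : ℂ}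
    (he : FlatDir K x T δ e) (ht0 : 0 < t) (ht : 4 * t ≤ T) (hδT : 50 * (δ * T) ≤ t) :
    (∃ p ∈ K, ‖p - x‖ = t ∧ 0 < ((p - x) * conj e).re) ∧
      ∃ q ∈ K, ‖q - x‖ = t ∧ ((q - x) * conj e).re < 0 := by
  refine ⟨rgchain_side hK hδ hF hx hT he ht0 ht hδT, ?_⟩
  obtain ⟨q, hq, hq1, hq2⟩ := rgchain_side hK hδ hF hx hT (rgchain_neg he) ht0 ht hδT
  refine ⟨q, hq, hq1, ?_⟩
  rw [map_neg, mul_neg, Complex.neg_re] at hq2
  linarith

end Pool.Agent.MP099f24
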