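import Mathlib
import Pool.Agent.Lib.MP_099f24_an.LF.Chord
import Pool.Agent.Lib.MP_099f24_an.RG.Chain

/-!
# MP_099f24_an, PART R, module RMETRIC: flatness from length bounds
-/

namespace Pool.Agent.MP099f24

open MeasureTheory Filter Topology Set Metric
open scoped ENNReal ContDiff ComplexConjugate

private lemma rgmetric_re_ge {w : ℂ} {κ : ℝ} (h : |w.im| ≤ κ) : ‖w‖ - κ ≤ |w.re| := by
  have := Complex.norm_le_abs_re_add_abs_im w
  linarith

private lemma rgmetric_norm_mul {w e : ℂ} (he : ‖e‖ = 1) : ‖w * conj e‖ = ‖w‖ := by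
  rw [norm_mul, RCLike.norm_conj, he, mul_one]

private lemma rgmetric_re_sub (p q e : ℂ) (he : ‖e‖ = 1) :
    |(p * conj e).re - (q * conj e).re| ≤ ‖p - q‖ := by
  rw [← Complex.sub_re, ← sub_mul, ← rgmetric_norm_mul (w := p - q) he]
  exact Complex.abs_re_le_norm _

/-- The excess estimate. -/
private lemma rgmetric_excess {K : Set ℂ} (hK : IsClosed K) {x₀ : ℂ} {R δ : ℝ}
    (hδ : δ ≤ 1 / 10000)
    (hF : FlatReg K x₀ R δ) {x : ℂ} {r η : ℝ} (hr : 0 < r)
    (hx0 : ‖x - x₀‖ + 50 * r ≤ R)
    (hlow : ∀ a ∈ K, ‖a - x‖ ≤ 4 * r → ∀ s : ℝ, 0 < s → s ≤ 10 * r →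
      ENNReal.ofReal (2 * s) ≤ (μH[1] : Measure ℂ) (K ∩ ball a s))
    (hup : ∀ a ∈ K, ‖a - x‖ ≤ 4 * r → ∀ s : ℝ, 0 < s → s ≤ 10 * r →
      (μH[1] : Measure ℂ) (K ∩ ball a s) ≤ ENNReal.ofReal (2 * s + η)) (hη0 : 0 ≤ η)
    {a z y : ℂ} (ha : a ∈ K) (hz : z ∈ K) (hy : y ∈ K) (hx : x ∈ K) (hax : ‖a - x‖ = 3 * r)
    (hzx : ‖z - x‖ = 3 * r) (hyx : ‖y - x‖ ≤ r) (haz1 : 5992 / 1000 * r ≤ ‖a - z‖)
    (hsum : ‖a - y‖ + ‖y - z‖ ≤ 6016 / 1000 * r) :
    ‖a - y‖ + ‖y - z‖ ≤ ‖a - z‖ + η := by
  have haz2 : ‖a - z‖ ≤ 6 * r := by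
    have : a - z = (a - x) - (z - x) := by ring
    rw [this]
    refine (norm_sub_le _ _).trans ?_
    rw [hax, hzx]; linarith
  have hay1 : 2 * r ≤ ‖a - y‖ := by
    have h1 : a - x = (a - y) + (y - x) := by ring
    have h2 : ‖a - x‖ ≤ ‖a - y‖ + ‖y - x‖ := by rw [h1]; exact norm_add_le _ _
    linarith
  have hay2 : ‖a - y‖ ≤ 4 * r := by
    have h1 : a - y = (a - x) - (y - x) := by ring
    have h2 : ‖a - y‖ ≤ ‖a - x‖ + ‖y - x‖ := by rw [h1]; exact norm_sub_le _ _
    linarith
  have hyz1 : 2 * r ≤ ‖y - z‖ := by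
    have h1 : z - x = (y - x) - (y - z) := by ring
    have h2 : ‖z - x‖ ≤ ‖y - x‖ + ‖y - z‖ := by rw [h1]; exact norm_sub_le _ _
    linarith
  have hyz2 : ‖y - z‖ ≤ 4 * r := by
    have h1 : y - z = (y - x) - (z - x) := by ring
    have h2 : ‖y - z‖ ≤ ‖y - x‖ + ‖z - x‖ := by rw [h1]; exact norm_sub_le _ _
    linarith
  set r1 := ‖a - y‖ - r with hr1
  set r3 := ‖y - z‖ - r with hr3
  set s := ‖a - z‖ + r3 with hs
  have hr1a : r ≤ r1 := by rw [hr1]; linarith
  have hr1b : r1 ≤ 3 * r := by rw [hr1]; linarith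
  have hr3a : r ≤ r3 := by rw [hr3]; linarith
  have hr3b : r3 ≤ 3 * r := by rw [hr3]; linarith
  have hs1 : s ≤ 9 * r := by rw [hs]; linarith
  have hR : 0 ≤ R := by
    have := norm_nonneg (x - x₀)
    linarith
  -- the direction at `a`
  have hax0 : ‖a - x₀‖ ≤ ‖x - x₀‖ + 3 * r := by
    have h1 : a - x₀ = (a - x) + (x - x₀) := by ring
    rw [h1]
    refine (norm_add_le _ _).trans ?_
    linarith
  obtain ⟨e, he⟩ := hF a ha (by linarith) (40 * r) (by linarith)
    (by have := norm_nonneg (x - x₀); linarith)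
  have hen : ‖e‖ = 1 := he.1
  have hκ : δ * (40 * r) ≤ 4 / 1000 * r := by nlinarith
  set X := ((x - a) * conj e).re with hX
  have hXabs : 2996 / 1000 * r ≤ |X| := by
    have h1 := he.2.1 x hx (by rw [norm_sub_rev, hax]; linarith)
    have h2 := rgmetric_re_ge h1
    rw [rgmetric_norm_mul hen, norm_sub_rev, hax] at h2
    rw [hX]
    linarith
  set Y := ((y - a) * conj e).re with hY
  have hYX : |Y - X| ≤ r := by
    have := rgmetric_re_sub (y - a) (x - a) e hen
    rw [hX, hY]
    refine this.trans ?_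
    have h1 : y - a - (x - a) = y - x := by ring
    rw [h1]; exact hyx
  set Z := ((z - a) * conj e).re with hZ
  have hZX : |Z - X| ≤ 3 * r := by
    have := rgmetric_re_sub (z - a) (x - a) e hen
    rw [hX, hZ]
    refine this.trans ?_
    have h1 : z - a - (x - a) = z - x := by ring
    rw [h1, hzx]
  have hZabs : 5988 / 1000 * r ≤ |Z| := by
    have h1 := he.2.1 z hz (by rw [norm_sub_rev]; linarith)
    have h2 := rgmetric_re_ge h1
    rw [rgmetric_norm_mul hen, norm_sub_rev] at h2
    rw [hZ]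
    linarith
  -- the part of `K` beyond `a`
  set L : Set ℂ := {w | w ∈ K ∧ r1 ≤ ‖w - a‖ ∧ ‖w - a‖ < s ∧ ((w - a) * conj e).re * X < 0} with hL
  have hLlen : ENNReal.ofReal (s - r1) ≤ (μH[1] : Measure ℂ) L := by
    have h1 : Ico r1 s ⊆ (fun w : ℂ => ‖w - a‖) '' L := by
      intro t ht
      have ht0 : 0 < t := by linarith [ht.1]
      have hc := rg_cross hK (by linarith) hF ha (T := 40 * r) (t := t) (by linarith) he ht0
        (by linarith [ht.2]) (by linarith [ht.1])
      obtain ⟨⟨p, hp, hpt, hpp⟩, ⟨q, hq, hqt, hqq⟩⟩ := hc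
      rcases le_or_gt 0 X with hX0 | hX0
      · have hX1 : 0 < X := by
          rw [abs_of_nonneg hX0] at hXabs; linarith
        refine ⟨q, ⟨hq, by rw [hqt]; exact ht.1, by rw [hqt]; exact ht.2,
          mul_neg_of_neg_of_pos hqq hX1⟩, hqt⟩
      · refine ⟨p, ⟨hp, by rw [hpt]; exact ht.1, by rw [hpt]; exact ht.2,
          mul_neg_of_pos_of_neg hpp hX0⟩, hpt⟩
    have h2 : LipschitzWith 1 (fun w : ℂ => ‖w - a‖) := by
      have := (LipschitzWith.id (α := ℂ)).sub (LipschitzWith.const a)
      have h3 := lipschitzWith_one_norm.comp this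
      rw [add_zero, mul_one] at h3
      exact h3
    have h3 := h2.hausdorffMeasure_image_le (d := 1) zero_le_one L
    rw [hausdorffMeasure_real] at h3
    calc ENNReal.ofReal (s - r1) = volume (Ico r1 s) := by rw [Real.volume_Ico]
      _ ≤ volume ((fun w : ℂ => ‖w - a‖) '' L) := measure_mono h1
      _ ≤ _ := by simpa using h3
  -- signs on the balls
  have hside : ∀ w : ℂ, |((w - a) * conj e).re - X| < 2996 / 1000 * r →
      ¬ ((w - a) * conj e).re * X < 0 := by
    intro w hw
    rw [not_lt]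
    rw [abs_lt] at hw
    rcases le_or_gt 0 X with hX0 | hX0
    · rw [abs_of_nonneg hX0] at hXabs
      exact mul_nonneg (by linarith [hw.1]) hX0
    · rw [abs_of_neg hX0] at hXabs
      exact mul_nonneg_of_nonpos_of_nonpos (by linarith [hw.2]) hX0.le
  have hside2 : ∀ w : ℂ, |((w - a) * conj e).re - Z| < 5988 / 1000 * r →
      ¬ ((w - a) * conj e).re * X < 0 := by
    intro w hw
    rw [not_lt]
    rw [abs_lt] at hw
    rw [abs_le] at hZX
    rcases le_or_gt 0 X with hX0 | hX0
    · rw [abs_of_nonneg hX0] at hXabs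
      have hZ0 : 0 ≤ Z := by
        by_contra hcon
        push Not at hcon
        rw [abs_of_neg hcon] at hZabs
        linarith [hZX.1]
      rw [abs_of_nonneg hZ0] at hZabs
      exact mul_nonneg (by linarith [hw.1]) hX0
    · rw [abs_of_neg hX0] at hXabs
      have hZ0 : Z ≤ 0 := by
        by_contra hcon
        push Not at hcon
        rw [abs_of_pos hcon] at hZabs
        linarith [hZX.2]
      rw [abs_of_nonpos hZ0] at hZabs
      exact mul_nonneg_of_nonpos_of_nonpos (by linarith [hw.2]) hX0.le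
  -- measures
  have hm1 : MeasurableSet (K ∩ ball a r1) := hK.measurableSet.inter measurableSet_ball
  have hm2 : MeasurableSet (K ∩ ball y r) := hK.measurableSet.inter measurableSet_ball
  have hm3 : MeasurableSet (K ∩ ball z r3) := hK.measurableSet.inter measurableSet_ball
  have hd12 : Disjoint (K ∩ ball a r1) (K ∩ ball y r) := by
    refine Disjoint.mono inter_subset_right inter_subset_right ?_
    refine ball_disjoint_ball ?_
    rw [dist_eq_norm]; linarith
  have hd13 : Disjoint (K ∩ ball a r1) (K ∩ ball z r3) := by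
    refine Disjoint.mono inter_subset_right inter_subset_right ?_
    refine ball_disjoint_ball ?_
    rw [dist_eq_norm]; linarith
  have hd23 : Disjoint (K ∩ ball y r) (K ∩ ball z r3) := by
    refine Disjoint.mono inter_subset_right inter_subset_right ?_
    refine ball_disjoint_ball ?_
    rw [dist_eq_norm]; linarith
  have hdL1 : Disjoint L (K ∩ ball a r1) := by
    rw [Set.disjoint_left]
    rintro w ⟨-, hw1, -, -⟩ ⟨-, hw2⟩
    rw [mem_ball, dist_eq_norm] at hw2
    linarith
  have hdL2 : Disjoint L (K ∩ ball y r) := by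
    rw [Set.disjoint_left]
    rintro w ⟨-, -, -, hw1⟩ ⟨-, hw2⟩
    rw [mem_ball, dist_eq_norm] at hw2
    refine hside w ?_ hw1
    have h1 := rgmetric_re_sub (w - a) (y - a) e hen
    have h2 : w - a - (y - a) = w - y := by ring
    rw [h2] at h1
    have h3 := abs_add_le (((w - a) * conj e).re - Y) (Y - X)
    have h4 : ((w - a) * conj e).re - Y + (Y - X) = ((w - a) * conj e).re - X := by ring
    rw [h4] at h3
    rw [hY] at hYX h3
    linarith
  have hdL3 : Disjoint L (K ∩ ball z r3) := by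
    rw [Set.disjoint_left]
    rintro w ⟨-, -, -, hw1⟩ ⟨-, hw2⟩
    rw [mem_ball, dist_eq_norm] at hw2
    refine hside2 w ?_ hw1
    have h1 := rgmetric_re_sub (w - a) (z - a) e hen
    have h2 : w - a - (z - a) = w - z := by ring
    rw [h2] at h1
    rw [hZ]
    linarith
  have hsub : L ∪ ((K ∩ ball a r1) ∪ ((K ∩ ball y r) ∪ (K ∩ ball z r3))) ⊆ K ∩ ball a s := by
    rintro w (⟨hw, -, hw2, -⟩ | ⟨hw, hw2⟩ | ⟨hw, hw2⟩ | ⟨hw, hw2⟩)
    · exact ⟨hw, by rw [mem_ball, dist_eq_norm]; exact hw2⟩
    · refine ⟨hw, ?_⟩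
      rw [mem_ball, dist_eq_norm] at hw2 ⊢
      linarith
    · refine ⟨hw, ?_⟩
      rw [mem_ball, dist_eq_norm] at hw2 ⊢
      have h1 : w - a = (w - y) - (a - y) := by ring
      have h2 : ‖w - a‖ ≤ ‖w - y‖ + ‖a - y‖ := by rw [h1]; exact norm_sub_le _ _
      linarith
    · refine ⟨hw, ?_⟩
      rw [mem_ball, dist_eq_norm] at hw2 ⊢
      have h1 : w - a = (w - z) - (a - z) := by ring
      have h2 : ‖w - a‖ ≤ ‖w - z‖ + ‖a - z‖ := by rw [h1]; exact norm_sub_le _ _
      linarith
  have htot : (μH[1] : Measure ℂ) (L ∪ ((K ∩ ball a r1) ∪ ((K ∩ ball y r) ∪ (K ∩ ball z r3)))) =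
      (μH[1] : Measure ℂ) L + ((μH[1] : Measure ℂ) (K ∩ ball a r1) +
        ((μH[1] : Measure ℂ) (K ∩ ball y r) + (μH[1] : Measure ℂ) (K ∩ ball z r3))) := by
    rw [measure_union _ (hm1.union (hm2.union hm3)), measure_union _ (hm2.union hm3),
      measure_union hd23 hm3]
    · exact hd12.union_right hd13
    · exact hdL1.union_right (hdL2.union_right hdL3)
  have hb1 := hlow a ha (by linarith) r1 (by linarith) (by linarith)
  have hb2 := hlow y hy (by linarith) r hr (by linarith)
  have hb3 := hlow z hz (by linarith) r3 (by linarith) (by linarith)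
  have hb4 := hup a ha (by linarith) s (by linarith) (by linarith)
  have hfin : ENNReal.ofReal ((s - r1) + (2 * r1 + (2 * r + 2 * r3))) ≤
      ENNReal.ofReal (2 * s + η) := by
    rw [ENNReal.ofReal_add (by linarith) (by linarith), ENNReal.ofReal_add (by linarith)
      (by linarith), ENNReal.ofReal_add (by linarith) (by linarith)]
    calc ENNReal.ofReal (s - r1) + (ENNReal.ofReal (2 * r1) + (ENNReal.ofReal (2 * r) +
          ENNReal.ofReal (2 * r3)))
        ≤ (μH[1] : Measure ℂ) L + ((μH[1] : Measure ℂ) (K ∩ ball a r1) +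
          ((μH[1] : Measure ℂ) (K ∩ ball y r) + (μH[1] : Measure ℂ) (K ∩ ball z r3))) := by
          gcongr
      _ = _ := htot.symm
      _ ≤ (μH[1] : Measure ℂ) (K ∩ ball a s) := measure_mono hsub
      _ ≤ _ := hb4
  rw [ENNReal.ofReal_le_ofReal_iff (by linarith)] at hfin
  linarith

theorem rg_metric {K : Set ℂ} (hK : IsClosed K) {x₀ : ℂ} {R δ : ℝ} (hδ : δ ≤ 1 / 10000)
    (hF : FlatReg K x₀ R δ) {x : ℂ} {r η : ℝ} (hx : x ∈ K) (hr : 0 < r)
    (hx0 : ‖x - x₀‖ + 50 * r ≤ R) (hη0 : 0 ≤ η)
    (hlow : ∀ a ∈ K, ‖a - x‖ ≤ 4 * r → ∀ s : ℝ, 0 < s → s ≤ 10 * r →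
      ENNReal.ofReal (2 * s) ≤ (μH[1] : Measure ℂ) (K ∩ ball a s))
    (hup : ∀ a ∈ K, ‖a - x‖ ≤ 4 * r → ∀ s : ℝ, 0 < s → s ≤ 10 * r →
      (μH[1] : Measure ℂ) (K ∩ ball a s) ≤ ENNReal.ofReal (2 * s + η)) :
    FlatAt K x r (20 * Real.sqrt (η / r)) := by
  have hnx : 0 ≤ ‖x - x₀‖ := norm_nonneg _
  rcases le_or_gt (r / 100) η with hη | hη
  · -- trivial case
    have h1 : 1 ≤ 20 * Real.sqrt (η / r) := by
      have h2 : (1 / 100 : ℝ) ≤ η / r := by
        rw [le_div_iff₀ hr]; linarith
      have h3 : Real.sqrt ((1 / 10 : ℝ) ^ 2) ≤ Real.sqrt (η / r) :=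
        Real.sqrt_le_sqrt (by linarith)
      rw [Real.sqrt_sq (by norm_num)] at h3
      linarith
    refine ⟨1, by simp, ?_, ?_⟩
    · intro y _ hyr
      rw [map_one, mul_one]
      refine (Complex.abs_im_le_norm _).trans (hyr.trans ?_)
      nlinarith
    · intro t ht
      refine ⟨x, hx, ?_⟩
      have : x - (x + (t : ℂ) * 1) = -(t : ℂ) := by ring
      rw [this, norm_neg, Complex.norm_real, Real.norm_eq_abs]
      nlinarith
  -- the scale `√(η r)`
  set q := Real.sqrt (η * r) with hq
  have hq0 : 0 ≤ q := Real.sqrt_nonneg _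
  have hqq : Real.sqrt (η / r) * r = q := by
    rw [hq, ← Real.sqrt_sq hr.le, ← Real.sqrt_mul (by positivity), Real.sqrt_sq hr.le]
    congr 1
    field_simp
  have hq2 : q ^ 2 = η * r := Real.sq_sqrt (by positivity)
  -- the points `a`, `z`
  obtain ⟨e0, he0⟩ := hF x hx (by linarith) (40 * r) (by linarith) (by linarith)
  have he0n : ‖e0‖ = 1 := he0.1
  have hκ : δ * (40 * r) ≤ 4 / 1000 * r := by nlinarith
  obtain ⟨⟨a, ha, hax, hap⟩, ⟨z, hz, hzx, hzp⟩⟩ := rg_cross hK (by linarith) hF hx
    (T := 40 * r) (t := 3 * r) (by linarith) he0 (by linarith) (by linarith) (by linarith)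
  have ha1 : 2996 / 1000 * r ≤ ((a - x) * conj e0).re := by
    have h1 := he0.2.1 a ha (by linarith)
    have h2 := rgmetric_re_ge h1
    rw [rgmetric_norm_mul he0n, hax, abs_of_pos hap] at h2
    linarith
  have hz1 : ((z - x) * conj e0).re ≤ -(2996 / 1000 * r) := by
    have h1 := he0.2.1 z hz (by linarith)
    have h2 := rgmetric_re_ge h1
    rw [rgmetric_norm_mul he0n, hzx, abs_of_neg hzp] at h2
    linarith
  have haz1 : 5992 / 1000 * r ≤ ‖a - z‖ := by
    have h1 := rgmetric_re_sub (a - x) (z - x) e0 he0n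
    have h2 : a - x - (z - x) = a - z := by ring
    rw [h2] at h1
    have h3 := le_abs_self (((a - x) * conj e0).re - ((z - x) * conj e0).re)
    linarith
  have haz2 : ‖a - z‖ ≤ 6 * r := by
    have : a - z = (a - x) - (z - x) := by ring
    rw [this]
    refine (norm_sub_le _ _).trans ?_
    rw [hax, hzx]; linarith
  have hd0 : 0 < ‖a - z‖ := by linarith
  -- the excess
  have hexc : ∀ y ∈ K, ‖y - x‖ ≤ r → ‖a - y‖ + ‖y - z‖ ≤ ‖a - z‖ + η := by
    intro y hy hyx
    refine rgmetric_excess hK hδ hF hr hx0 hlow hup hη0 ha hz hy hx hax hzx hyx haz1 ?_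
    have h1 := he0.2.1 y hy (by linarith)
    have h2 := he0.2.1 a ha (by linarith)
    have h3 := he0.2.1 z hz (by linarith)
    have h4 := Complex.abs_re_le_norm ((y - x) * conj e0)
    have h5 := Complex.abs_re_le_norm ((a - x) * conj e0)
    have h6 := Complex.abs_re_le_norm ((z - x) * conj e0)
    rw [rgmetric_norm_mul he0n] at h4 h5 h6
    rw [abs_le] at h1 h2 h3 h4 h5 h6
    have h7 : ‖a - y‖ ≤ (((a - x) * conj e0).re - ((y - x) * conj e0).re) + 8 / 1000 * r := by
      have e1 : ‖a - y‖ = ‖(a - x) * conj e0 - (y - x) * conj e0‖ := by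
        rw [← sub_mul, rgmetric_norm_mul he0n]
        congr 1; ring
      rw [e1]
      refine (Complex.norm_le_abs_re_add_abs_im _).trans ?_
      rw [Complex.sub_re, Complex.sub_im, abs_of_nonneg (by linarith [h4.2])]
      have : |((a - x) * conj e0).im - ((y - x) * conj e0).im| ≤ 8 / 1000 * r := by
        rw [abs_le]
        constructor <;> linarith [h1.1, h1.2, h2.1, h2.2]
      linarith
    have h8 : ‖y - z‖ ≤ (((y - x) * conj e0).re - ((z - x) * conj e0).re) + 8 / 1000 * r := by
      have e1 : ‖y - z‖ = ‖(y - x) * conj e0 - (z - x) * conj e0‖ := by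
        rw [← sub_mul, rgmetric_norm_mul he0n]
        congr 1; ring
      rw [e1]
      refine (Complex.norm_le_abs_re_add_abs_im _).trans ?_
      rw [Complex.sub_re, Complex.sub_im, abs_of_nonneg (by linarith [h4.1])]
      have : |((y - x) * conj e0).im - ((z - x) * conj e0).im| ≤ 8 / 1000 * r := by
        rw [abs_le]
        constructor <;> linarith [h1.1, h1.2, h3.1, h3.2]
      linarith
    linarith [h5.2, h6.1]
  -- heights
  set d := ‖a - z‖ with hd
  set e : ℂ := (z - a) / d with he
  have hen : ‖e‖ = 1 := by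
    rw [he, norm_div, norm_sub_rev, ← hd, Complex.norm_real, Real.norm_eq_abs, abs_of_pos hd0,
      div_self hd0.ne']
  have hee' : conj e * e = 1 := by
    rw [mul_comm, Complex.mul_conj, Complex.normSq_eq_norm_sq, hen]; simp
  set h := Real.sqrt (31 / 10) * q with hh
  have hh0 : 0 ≤ h := by positivity
  have hhsq : h ^ 2 = 31 / 10 * (η * r) := by
    rw [hh, mul_pow, Real.sq_sqrt (by norm_num), hq2]
  have h176 : h ≤ 18 / 10 * q := by
    rw [hh]
    refine mul_le_mul_of_nonneg_right ?_ hq0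
    rw [Real.sqrt_le_left (by norm_num)]
    norm_num
  have hht : ∀ y ∈ K, ‖y - x‖ ≤ r → |((y - a) * conj e).im| ≤ h := by
    intro y hy hyx
    have h1 := hexc y hy hyx
    have h2 := lf_height (p := a) (q := z) (y := y) (d := d) (δ := η / 2) rfl hd0
      (by rw [norm_sub_rev z y]; linarith)
    rw [← he] at h2
    refine abs_le_of_sq_le_sq ?_ hh0
    rw [hhsq]
    refine h2.trans ?_
    nlinarith
  have hht2 : ∀ y ∈ K, ‖y - x‖ ≤ r → |((y - x) * conj e).im| ≤ 2 * h := by
    intro y hy hyx
    have : ((y - x) * conj e).im = ((y - a) * conj e).im - ((x - a) * conj e).im := by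
      rw [← Complex.sub_im]; congr 1; ring
    rw [this]
    refine (abs_sub _ _).trans ?_
    have h1 := hht y hy hyx
    have h2 := hht x hx (by rw [sub_self, norm_zero]; exact hr.le)
    linarith
  have hgoal : 20 * Real.sqrt (η / r) * r = 20 * q := by
    rw [mul_assoc, hqq]
  refine ⟨e, hen, ?_, ?_⟩
  · intro y hy hyx
    rw [hgoal]
    have := hht2 y hy hyx
    linarith
  · intro t ht
    rw [hgoal]
    rcases le_or_gt |t| (4 * h) with ht4 | ht4
    · refine ⟨x, hx, ?_⟩
      have : x - (x + (t : ℂ) * e) = -((t : ℂ) * e) := by ring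
      rw [this, norm_neg, norm_mul, hen, mul_one, Complex.norm_real, Real.norm_eq_abs]
      linarith
    · have ht0 : 0 < |t| := by linarith
      obtain ⟨e1, he1⟩ := hF x hx (by linarith) (4 * |t|) (by linarith) (by linarith)
      have he1n : ‖e1‖ = 1 := he1.1
      have hδ4 : δ * (4 * |t|) ≤ 4 / 10000 * |t| := by nlinarith
      obtain ⟨⟨p1, hp1, hp1t, hp1p⟩, ⟨p2, hp2, hp2t, hp2p⟩⟩ := rg_cross hK (by linarith) hF hx
        (T := 4 * |t|) (t := |t|) (by linarith) he1 ht0 le_rfl (by linarith)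
      have hsmall : ‖(p1 - x) + (p2 - x)‖ ≤ |t| / 100 := by
        have i1 := he1.2.1 p1 hp1 (by linarith)
        have i2 := he1.2.1 p2 hp2 (by linarith)
        have j1 := rgmetric_re_ge i1
        have j2 := rgmetric_re_ge i2
        rw [rgmetric_norm_mul he1n, hp1t, abs_of_pos hp1p] at j1
        rw [rgmetric_norm_mul he1n, hp2t, abs_of_neg hp2p] at j2
        have k1 := Complex.abs_re_le_norm ((p1 - x) * conj e1)
        have k2 := Complex.abs_re_le_norm ((p2 - x) * conj e1)
        rw [rgmetric_norm_mul he1n, hp1t, abs_of_pos hp1p] at k1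
        rw [rgmetric_norm_mul he1n, hp2t, abs_of_neg hp2p] at k2
        rw [← rgmetric_norm_mul he1n, add_mul]
        refine (Complex.norm_le_abs_re_add_abs_im _).trans ?_
        rw [Complex.add_re, Complex.add_im]
        have l1 : |((p1 - x) * conj e1).re + ((p2 - x) * conj e1).re| ≤ 4 / 10000 * |t| := by
          rw [abs_le]; constructor <;> linarith
        have l2 := abs_add_le ((p1 - x) * conj e1).im ((p2 - x) * conj e1).im
        linarith
      -- real parts with respect to `e`
      have m1 := hht2 p1 hp1 (by linarith)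
      have m2 := hht2 p2 hp2 (by linarith)
      have n1 := rgmetric_re_ge m1
      have n2 := rgmetric_re_ge m2
      rw [rgmetric_norm_mul hen, hp1t] at n1
      rw [rgmetric_norm_mul hen, hp2t] at n2
      have o1 := Complex.abs_re_le_norm ((p1 - x) * conj e)
      have o2 := Complex.abs_re_le_norm ((p2 - x) * conj e)
      rw [rgmetric_norm_mul hen, hp1t] at o1
      rw [rgmetric_norm_mul hen, hp2t] at o2
      have hs12 : |((p1 - x) * conj e).re + ((p2 - x) * conj e).re| ≤ |t| / 100 := by
        rw [← Complex.add_re, ← add_mul]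
        refine (Complex.abs_re_le_norm _).trans ?_
        rw [rgmetric_norm_mul hen]
        exact hsmall
      -- choose the point on the side of `t`
      have key : ∀ p ∈ K, |((p - x) * conj e).im| ≤ 2 * h → |t| - 2 * h ≤ |((p - x) * conj e).re| →
          |((p - x) * conj e).re| ≤ |t| → 0 ≤ ((p - x) * conj e).re * t →
          ‖p - (x + (t : ℂ) * e)‖ ≤ 20 * q := by
        intro p _ c1 c2 c3 c4
        have e2 : p - (x + (t : ℂ) * e) = ((p - x) * conj e - (t : ℂ)) * e := by
          rw [sub_mul, mul_assoc, hee', mul_one]; ring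
        rw [e2, norm_mul, hen, mul_one]
        refine (Complex.norm_le_abs_re_add_abs_im _).trans ?_
        rw [Complex.sub_re, Complex.sub_im, Complex.ofReal_re, Complex.ofReal_im, sub_zero]
        have c5 : |((p - x) * conj e).re - t| ≤ 2 * h := by
          rcases le_or_gt 0 t with ht' | ht'
          · have ht'' : 0 < t := by rwa [abs_of_nonneg ht'] at ht0
            have c6 : 0 ≤ ((p - x) * conj e).re := nonneg_of_mul_nonneg_left c4 ht''
            rw [abs_of_nonneg c6, abs_of_nonneg ht'] at c2 c3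
            rw [abs_le]; constructor <;> linarith
          · have c6 : ((p - x) * conj e).re ≤ 0 := by
              by_contra hcon
              push Not at hcon
              have := mul_neg_of_pos_of_neg hcon ht'
              linarith
            rw [abs_of_nonpos c6, abs_of_neg ht'] at c2 c3
            rw [abs_le]; constructor <;> linarith
        linarith
      by_cases hside : 0 ≤ ((p1 - x) * conj e).re * t
      · exact ⟨p1, hp1, key p1 hp1 m1 n1 o1 hside⟩
      · refine ⟨p2, hp2, key p2 hp2 m2 n2 o2 ?_⟩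
        push Not at hside
        by_contra hside2
        push Not at hside2
        rw [abs_le] at hs12
        rcases le_or_gt 0 t with ht' | ht'
        · have c1 : ((p1 - x) * conj e).re < 0 := by
            by_contra hcon
            push Not at hcon
            have := mul_nonneg hcon ht'
            linarith
          have c2 : ((p2 - x) * conj e).re < 0 := by
            by_contra hcon
            push Not at hcon
            have := mul_nonneg hcon ht'
            linarith
          rw [abs_of_neg c1] at n1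
          rw [abs_of_neg c2] at n2
          linarith [hs12.1]
        · have c1 : 0 < ((p1 - x) * conj e).re := by
            by_contra hcon
            push Not at hcon
            have := mul_nonneg_of_nonpos_of_nonpos hcon ht'.le
            linarith
          have c2 : 0 < ((p2 - x) * conj e).re := by
            by_contra hcon
            push Not at hcon
            have := mul_nonneg_of_nonpos_of_nonpos hcon ht'.le
            linarith
          rw [abs_of_pos c1] at n1
          rw [abs_of_pos c2] at n2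
          linarith [hs12.2]

end Pool.Agent.MP099f24
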