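import Mathlib
import Pool.Agent.Lib.MP_099f24_an.SD.Defs
import Pool.Agent.Lib.MP_099f24_an.SD.Cone
import Pool.Agent.Lib.MP_099f24_an.LF.Defs
import Pool.Agent.Lib.MP_099f24_an.GA.Defs

/-!
# The cone competitor with arcs of bounded length
-/

namespace Pool.Agent.MP099f24

open MeasureTheory Filter Topology Set Metric
open scoped ENNReal ContDiff ComplexConjugate

theorem rgcone_neumann {G : ℝ → ℝ} {p c : ℝ} (hpc : p < c)
    (hG : MemLp G 2 (volume.restrict (Ioo p c))) :
    ∃ m : ℝ, ∫ θ in p..c, ((∫ t in p..θ, G t) - m) ^ 2 ≤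
      ((c - p) / Real.pi) ^ 2 * ∫ θ in p..c, G θ ^ 2 := by
  have hpi := Real.pi_pos
  set q : ℝ := 2 * c - p with hq
  have hcq : c < q := by linarith
  set H : ℝ → ℝ := (Ioo p c).indicator G with hH
  have hHL : MemLp H 2 volume := (memLp_indicator_iff_restrict measurableSet_Ioo).2 hG
  set K : ℝ → ℝ := fun t => H t - H (2 * c - t) with hK
  have hHr : MemLp (fun t => H (2 * c - t)) 2 volume :=
    hHL.comp_measurePreserving ((volume : Measure ℝ).measurePreserving_sub_left (2 * c))
  have hKL : MemLp K 2 volume := hHL.sub hHr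
  have hHi : ∀ a b : ℝ, IntervalIntegrable H volume a b := by
    intro a b
    rw [intervalIntegrable_iff, uIoc]
    exact (hHL.restrict _).integrable (by norm_num)
  have hHri : ∀ a b : ℝ, IntervalIntegrable (fun t => H (2 * c - t)) volume a b := by
    intro a b
    rw [intervalIntegrable_iff, uIoc]
    exact (hHr.restrict _).integrable (by norm_num)
  set A : ℝ → ℝ := fun x => ∫ t in p..x, H t with hA
  have hF : ∀ x, ∫ t in p..x, K t = A x - (A q - A (2 * c - x)) := by
    intro x
    rw [hK, intervalIntegral.integral_sub (hHi _ _) (hHri _ _),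
      intervalIntegral.integral_comp_sub_left (fun t => H t) (2 * c), hA]
    simp only
    rw [← intervalIntegral.integral_interval_sub_left (hHi p (2 * c - p)) (hHi p (2 * c - x))]
  have hAbig : ∀ x, c ≤ x → A x = A c := by
    intro x hx
    rw [hA]
    simp only
    rw [← intervalIntegral.integral_add_adjacent_intervals (hHi p c) (hHi c x)]
    have : ∫ t in c..x, H t = 0 := by
      rw [intervalIntegral.integral_of_le hx]
      refine (setIntegral_congr_fun measurableSet_Ioc (g := fun _ => (0 : ℝ)) fun t ht => ?_).trans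
        (by simp)
      rw [hH]
      exact indicator_of_notMem (fun h => absurd h.2 (not_lt.2 ht.1.le)) _
    rw [this, add_zero]
  have hAsm : ∀ x ∈ Icc p c, A x = ∫ t in p..x, G t := by
    intro x hx
    rw [hA]
    simp only
    rw [intervalIntegral.integral_of_le hx.1, intervalIntegral.integral_of_le hx.1,
      ← restrict_Ioo_eq_restrict_Ioc]
    refine setIntegral_congr_fun measurableSet_Ioo fun t ht => ?_
    rw [hH]
    have ht' : t ∈ Ioo p c := ⟨ht.1, ht.2.trans_le hx.2⟩
    exact indicator_of_mem ht' _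
  have hK0 : ∫ t in p..q, K t = 0 := by
    rw [hF]
    have e : 2 * c - q = p := by rw [hq]; ring
    rw [e]
    have : A p = 0 := by rw [hA]; simp
    rw [this]; ring
  obtain ⟨m, hm⟩ := wirt_main (hpc.trans hcq) (hKL.restrict _) hK0
  refine ⟨m, ?_⟩
  set h : ℝ → ℝ := fun θ => ((∫ t in p..θ, K t) - m) ^ 2 with hh
  have hsym : ∀ x, h (2 * c - x) = h x := by
    intro x
    rw [hh]
    simp only
    rw [hF, hF]
    have e : 2 * c - (2 * c - x) = x := by ring
    rw [e]; ring
  have hKi : ∀ a b : ℝ, IntervalIntegrable K volume a b := fun a b => (hHi a b).sub (hHri a b)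
  have hcont : Continuous h := by
    have h1 : Continuous fun x => ∫ t in p..x, K t :=
      intervalIntegral.continuous_primitive hKi p
    exact (h1.sub continuous_const).pow 2
  have hKsym : ∀ x, K (2 * c - x) ^ 2 = K x ^ 2 := by
    intro x
    rw [hK]
    simp only
    have e : 2 * c - (2 * c - x) = x := by ring
    rw [e]; ring
  have hK2 : ∀ a b : ℝ, IntervalIntegrable (fun x => K x ^ 2) volume a b := by
    intro a b
    rw [intervalIntegrable_iff]
    exact (hKL.restrict _).integrable_sq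
  have hdouble : ∀ w : ℝ → ℝ, (∀ x, w (2 * c - x) = w x) →
      (∀ a b : ℝ, IntervalIntegrable w volume a b) →
      ∫ x in p..q, w x = 2 * ∫ x in p..c, w x := by
    intro w hw hwi
    rw [← intervalIntegral.integral_add_adjacent_intervals (hwi p c) (hwi c q)]
    have e : ∫ x in c..q, w x = ∫ x in p..c, w x := by
      have h1 := intervalIntegral.integral_comp_sub_left w (2 * c) (a := p) (b := c)
      simp_rw [hw] at h1
      have e1 : 2 * c - c = c := by ring
      rw [e1] at h1
      exact h1.symm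
    rw [e]; ring
  rw [hdouble h hsym (fun a b => hcont.intervalIntegrable a b), hdouble _ hKsym hK2] at hm
  have e4 : ((q - p) / (2 * Real.pi)) ^ 2 = ((c - p) / Real.pi) ^ 2 := by
    have : q - p = 2 * (c - p) := by rw [hq]; ring
    rw [this, mul_div_mul_left _ _ (by norm_num)]
  rw [e4] at hm
  have e5 : ∫ θ in p..c, ((∫ t in p..θ, G t) - m) ^ 2 = ∫ θ in p..c, h θ := by
    refine intervalIntegral.integral_congr fun x hx => ?_
    rw [uIcc_of_le hpc.le] at hx
    rw [hh]
    simp only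
    rw [hF, hAbig q hcq.le, hAbig (2 * c - x) (by linarith [hx.2]), hAsm x hx]
    ring
  have e6 : ∫ θ in p..c, G θ ^ 2 = ∫ θ in p..c, K θ ^ 2 := by
    rw [intervalIntegral.integral_of_le hpc.le, intervalIntegral.integral_of_le hpc.le,
      ← restrict_Ioo_eq_restrict_Ioc]
    refine setIntegral_congr_fun measurableSet_Ioo fun x hx => ?_
    have e7 : H x = G x := indicator_of_mem hx _
    have e8 : H (2 * c - x) = 0 := indicator_of_notMem (fun h' => by
      have := h'.2
      have := hx.2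
      linarith) _
    rw [hK]
    simp only
    rw [e7, e8, sub_zero]
  rw [e5, e6]
  linarith

/-- Wirtinger inequality on an arc -/
theorem rgcone_wirt {G : ℝ → ℝ} {p p' : ℝ} (hp : p < p')
    (hGm : Measurable G) (hG2 : IntervalIntegrable (fun θ => G θ ^ 2) volume p p') (c : ℝ) :
    ∃ m : ℝ, ∫ θ in p..p', ((c + ∫ t in p..θ, G t) - m) ^ 2 ≤
      ((p' - p) / Real.pi) ^ 2 * ∫ θ in p..p', G θ ^ 2 := by
  have hLp : MemLp G 2 (volume.restrict (Ioo p p')) :=
    (memLp_two_iff_integrable_sq hGm.aestronglyMeasurable).2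
      ((intervalIntegrable_iff_integrableOn_Ioo_of_le hp.le).1 hG2)
  obtain ⟨m, hm⟩ := rgcone_neumann hp hLp
  refine ⟨c + m, ?_⟩
  have e : ∀ θ, ((c + ∫ t in p..θ, G t) - (c + m)) ^ 2 = ((∫ t in p..θ, G t) - m) ^ 2 := by
    intro θ
    ring
  simp_rw [e]
  exact hm

/-- the energy of the competitor -/
theorem rgcone_energy {N : ℕ} {q c m : ℕ → ℝ} {G : ℝ → ℝ} (h : ConeHyp N q c m G) (a : ℂ) {s : ℝ}
    (hs : 0 < s) {κ : ℝ}
    (hG2 : ∀ x y, IntervalIntegrable (fun θ => G θ ^ 2) volume x y)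
    (hW : ∀ k < N, ∫ θ in q k..q (k + 1), (cone_Fk q c G k θ - m k) ^ 2 ≤
      κ * ∫ θ in q k..q (k + 1), G θ ^ 2) :
    ∫⁻ x in ball a s, ‖cone_K a s N q c m G x‖ₑ ^ 2 ≤
      ENNReal.ofReal ((1 + κ / 4) * ∫ θ in Ioo (-Real.pi) Real.pi, G θ ^ 2) := by
  set e : ℝ → ℝ := fun θ => 1 / 4 * (cone_F N q c G θ - cone_M N q m θ) ^ 2 + G θ ^ 2 with he
  have he0 : ∀ θ, 0 ≤ e θ := fun θ => by simp only [he]; positivity
  have hem : Measurable e :=
    (((h.F_meas.sub (cone_M_meas N q m)).pow_const 2).const_mul _).add (h.Gm.pow_const 2)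
  rw [← setLIntegral_congr (comp0_ball_ae a s),
    cone_polar_lint a measurableSet_Ioo (fun r hr => hr.1) _ (q 0), ← h.qN]
  have h1 : ∀ z ∈ Ioo 0 s ×ˢ Ioo (q 0) (q N),
      ENNReal.ofReal z.1 * ‖cone_K a s N q c m G (pc a z.1 z.2)‖ₑ ^ 2 =
      ENNReal.ofReal (s⁻¹) * ENNReal.ofReal (e z.2) := by
    intro z hz
    have hz2 : z.2 ∈ Ioc (q 0) (q 0 + 2 * Real.pi) := by
      rw [← h.qN]
      exact ⟨hz.2.1, hz.2.2.le⟩
    have hr : 0 < z.1 := hz.1.1
    unfold cone_K
    rw [cone_A_pc (q 0) a hr hz2, polar_dist a hr, ← ofReal_norm,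
      ← ENNReal.ofReal_pow (norm_nonneg _), norm_smul, mul_pow, comp0_normsq,
      ← ENNReal.ofReal_mul hr.le, ← ENNReal.ofReal_mul (inv_nonneg.2 hs.le)]
    congr 1
    rw [Real.norm_eq_abs, sq_abs, inv_pow, mul_pow, Real.sq_sqrt hr.le, Real.sq_sqrt hs.le]
    simp only [he]
    field_simp
    ring
  rw [setLIntegral_congr_fun (measurableSet_Ioo.prod measurableSet_Ioo) h1,
    Measure.volume_eq_prod, ← Measure.prod_restrict, lintegral_prod_mul aemeasurable_const
      hem.ennreal_ofReal.aemeasurable]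
  rw [setLIntegral_const, Real.volume_Ioo, sub_zero, ← ENNReal.ofReal_mul (inv_nonneg.2 hs.le),
    inv_mul_cancel₀ hs.ne', ENNReal.ofReal_one, one_mul]
  -- integrability of `e`
  have hek : ∀ k < N, ∀ θ ∈ Ioc (q k) (q (k + 1)),
      e θ = 1 / 4 * (cone_Fk q c G k θ - m k) ^ 2 + G θ ^ 2 := by
    intro k hk θ hθ
    simp only [he]
    rw [cone_F, cone_M, cone_pw_eq h.mono hk hθ, cone_pw_eq h.mono hk hθ]
  have hFi : ∀ k, IntervalIntegrable (fun θ => 1 / 4 * (cone_Fk q c G k θ - m k) ^ 2) volume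
      (q k) (q (k + 1)) := fun k =>
    (continuous_const.mul (((h.Fk_cont k).sub continuous_const).pow 2)).intervalIntegrable _ _
  have hei : ∀ k < N, IntervalIntegrable e volume (q k) (q (k + 1)) := by
    intro k hk
    refine ((hFi k).add (hG2 _ _)).congr ?_
    rw [uIoc_of_le (h.mono (Nat.lt_succ_self k)).le]
    exact fun θ hθ => (hek k hk θ hθ).symm
  have heI : IntervalIntegrable e volume (q 0) (q N) :=
    IntervalIntegrable.trans_iterate hei
  have hle0 : q 0 ≤ q N := h.mono.monotone (Nat.zero_le _)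
  have heI' : IntegrableOn e (Ioo (q 0) (q N)) :=
    (intervalIntegrable_iff_integrableOn_Ioo_of_le hle0).1 heI
  rw [← ofReal_integral_eq_lintegral_ofReal heI' (Eventually.of_forall he0)]
  refine ENNReal.ofReal_le_ofReal ?_
  rw [← integral_Ioc_eq_integral_Ioo, ← intervalIntegral.integral_of_le hle0,
    ← intervalIntegral.sum_integral_adjacent_intervals hei]
  have hper : Function.Periodic (fun θ => G θ ^ 2) (2 * Real.pi) := fun θ => by
    simp only [h.Gper]
  have h2 := hper.intervalIntegral_add_eq (-Real.pi) (q 0)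
  have hpi := Real.pi_pos
  rw [← h.qN, intervalIntegral.integral_of_le (by linarith), integral_Ioc_eq_integral_Ioo] at h2
  have h3 : -Real.pi + 2 * Real.pi = Real.pi := by ring
  rw [h3] at h2
  rw [h2, ← intervalIntegral.sum_integral_adjacent_intervals fun k _ => hG2 _ _, Finset.mul_sum]
  refine Finset.sum_le_sum fun k hk => ?_
  have hk' := Finset.mem_range.1 hk
  have h4 : ∫ θ in q k..q (k + 1), e θ = ∫ θ in q k..q (k + 1),
      (1 / 4 * (cone_Fk q c G k θ - m k) ^ 2 + G θ ^ 2) := by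
    refine intervalIntegral.integral_congr_ae (Eventually.of_forall fun θ hθ => ?_)
    rw [uIoc_of_le (h.mono (Nat.lt_succ_self k)).le] at hθ
    exact hek k hk' θ hθ
  rw [h4, intervalIntegral.integral_add (hFi k) (hG2 _ _), intervalIntegral.integral_const_mul]
  have h5 := hW k hk'
  linarith


/-- the energy inequality, from the gluing property at the radius `s` -/
theorem rgcone_main {Ω : Set ℂ} {u : ℂ → ℝ} {g j : ℂ → ℂ} (h : MSMin Ω u g j) {a : ℂ} {s : ℝ}
    (hs : 0 < s) (hsR : closedBall a s ⊆ Ω)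
    (hglue : ∀ (W : ℂ → ℝ) (k J : ℂ → ℂ) (Z : Set ℂ), IsClosed Z →
      ContinuousOn W (closedBall a s \ Z) → IntegrableOn W (closedBall a s) →
      IntegrableOn (fun θ => W (pc a s θ)) (Ioo (-Real.pi) Real.pi) →
      IntegrableOn k (ball a s) → (Z ∩ sphere a s).Finite →
      IntegrableOn J (Z ∩ ball a s) (μH[1] : Measure ℂ) →
      (∀ x ∈ Z ∩ ball a s, x ≠ a → (∃ b c ν, IsJump W x b c ν ∧ J x = (b - c) • ν) ∨
        ((∃ z, IsApproxLim W x z) ∧ J x = 0)) →
      (∀ φ : ℂ → ℝ, ContDiff ℝ ∞ φ → HasCompactSupport φ → ∀ v : ℂ,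
        ∫ x in ball a s, W x * fderiv ℝ φ x v = - (∫ x in ball a s, φ x * inner ℝ (k x) v) -
          (∫ x in Z ∩ ball a s, φ x * inner ℝ (J x) v ∂(μH[1] : Measure ℂ)) +
          s * ∫ θ in Ioo (-Real.pi) Real.pi,
            W (pc a s θ) * φ (pc a s θ) * inner ℝ (er θ) v) →
      LocallyIntegrableOn (glued a s W u) Ω ∧ IsSBVGrad Ω (glued a s W u) (glued a s k g) ∧
      discSet Ω (glued a s W u) ∩ ball a s ⊆ Z ∧
      (μH[1] : Measure ℂ) (discSet Ω (glued a s W u) ∩ sphere a s) ≤
        ENNReal.ofReal s * volume {θ ∈ Ioo (-Real.pi) Real.pi | u (pc a s θ) ≠ W (pc a s θ)})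
    {κ : ℝ} (hκ : 0 ≤ κ) {N : ℕ} {q c m : ℕ → ℝ} (hc : ConeHyp N q c m (Gq g a s))
    (hG2 : ∀ x y, IntervalIntegrable (fun θ => Gq g a s θ ^ 2) volume x y)
    (hWi : ∀ k < N, ∫ θ in q k..q (k + 1), (cone_Fk q c (Gq g a s) k θ - m k) ^ 2 ≤
      κ * ∫ θ in q k..q (k + 1), Gq g a s θ ^ 2)
    (hu : ∀ᵐ θ ∂(volume.restrict (Ioo (-Real.pi) Real.pi)),
      u (pc a s θ) = cone_W a s N q c m (Gq g a s) (pc a s θ)) :
    Dq g a s + Lq Ω u a s ≤ s * N + (1 + κ / 4) * (s * Tq g a s) := by
  set G : ℝ → ℝ := Gq g a s with hGdef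
  set W := cone_W a s N q c m G with hW
  set K := cone_K a s N q c m G with hK
  set J := cone_J a s N q c m G with hJ
  set Z := cone_Z a s N q with hZ
  have hπ : -Real.pi ≤ Real.pi := by linarith [Real.pi_pos]
  obtain ⟨B, hB0, hBW, hBJ⟩ := hc.W_bound a hs
  have hWm : Measurable W := hc.W_meas a s
  have hWint : IntegrableOn W (closedBall a s) := by
    refine Integrable.mono' (integrableOn_const (C := B) measure_closedBall_lt_top.ne)
      hWm.aestronglyMeasurable ?_
    filter_upwards [ae_restrict_mem measurableSet_closedBall] with x hx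
    exact hBW x hx
  have hpcc : Continuous fun θ => pc a s θ :=
    (comp0_continuous_pc a).comp (Continuous.prodMk continuous_const continuous_id)
  have hWs : IntegrableOn (fun θ => W (pc a s θ)) (Ioo (-Real.pi) Real.pi) := by
    refine Integrable.mono' (integrableOn_const (C := B) (by simp))
      (hWm.comp hpcc.measurable).aestronglyMeasurable ?_
    refine Eventually.of_forall fun θ => ?_
    refine hBW _ ?_
    rw [mem_closedBall, polar_dist a hs]
  have hlint := rgcone_energy hc a hs hG2 hWi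
  have hkm : Measurable K := hc.K_meas a s
  have hk2 : MemLp K 2 (volume.restrict (ball a s)) := by
    rw [memLp_two_iff_integrable_sq_norm hkm.aestronglyMeasurable]
    refine ⟨(hkm.norm.pow_const 2).aestronglyMeasurable, ?_⟩
    unfold HasFiniteIntegral
    have e : ∀ x, ‖‖K x‖ ^ 2‖ₑ = ‖K x‖ₑ ^ 2 := by
      intro x
      rw [enorm_pow, enorm_norm]
    simp_rw [e]
    exact hlint.trans_lt ENNReal.ofReal_lt_top
  have hki : IntegrableOn K (ball a s) := by
    have : IsFiniteMeasure (volume.restrict (ball a s)) :=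
      ⟨by rw [Measure.restrict_apply_univ]; exact measure_ball_lt_top⟩
    exact hk2.integrable (by norm_num)
  have haZ : a ∈ Z := by
    simp only [hZ, cone_Z, mem_iUnion, exists_prop]
    exact ⟨0, Finset.mem_range.2 hc.pos, 0, ⟨le_rfl, hs.le⟩, by simp [pc]⟩
  have hWc : ContinuousOn W (closedBall a s \ Z) := by
    intro x hx
    have hxa : x ≠ a := fun h0 => hx.2 (by rw [h0]; exact haZ)
    refine (hc.W_cont a s hxa fun k hk hA => hx.2 ?_).continuousWithinAt
    simp only [hZ, cone_Z, mem_iUnion, exists_prop]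
    refine ⟨k, Finset.mem_range.2 hk, dist x a, ⟨dist_nonneg, hx.1⟩, ?_⟩
    simp only
    rw [← hA]
    exact (cone_A_eq (q 0) a x).symm
  have hjump : ∀ x ∈ Z ∩ ball a s, x ≠ a → (∃ b c ν, IsJump W x b c ν ∧ J x = (b - c) • ν) ∨
        ((∃ z, IsApproxLim W x z) ∧ J x = 0) := by
    rintro x ⟨hx, hxb⟩ hxa
    simp only [hZ, cone_Z, mem_iUnion, exists_prop] at hx
    obtain ⟨k, hk, r, hr, rfl⟩ := hx
    rcases hr.1.eq_or_lt with h0 | h0
    · exfalso
      apply hxa
      rw [← h0]
      simp [pc]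
    · exact hc.jump a s (Finset.mem_range.1 hk) h0
  have hdiv : ∀ φ : ℂ → ℝ, ContDiff ℝ ∞ φ → HasCompactSupport φ → ∀ v : ℂ,
        ∫ x in ball a s, W x * fderiv ℝ φ x v = - (∫ x in ball a s, φ x * inner ℝ (K x) v) -
          (∫ x in Z ∩ ball a s, φ x * inner ℝ (J x) v ∂(μH[1] : Measure ℂ)) +
          s * ∫ θ in Ioo (-Real.pi) Real.pi,
            W (pc a s θ) * φ (pc a s θ) * inner ℝ (er θ) v := by
    intro φ hφ hφc v
    have h1 := hc.div a hs hφ hφc v
    have i1 : IntegrableOn (fun x => W x * fderiv ℝ φ x v) (ball a s) := by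
      have hcf : Continuous fun x => fderiv ℝ φ x v :=
        (hφ.continuous_fderiv (by simp)).clm_apply continuous_const
      obtain ⟨M, hM⟩ := (isCompact_closedBall a s).exists_bound_of_continuousOn hcf.continuousOn
      have i0 : IntegrableOn (fun x => fderiv ℝ φ x v * W x) (ball a s) := by
        refine Integrable.bdd_mul (c := M) (hWint.mono_set ball_subset_closedBall)
          hcf.aestronglyMeasurable ?_
        filter_upwards [ae_restrict_mem measurableSet_ball] with x hx
        exact hM x (ball_subset_closedBall hx)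
      refine i0.congr (Eventually.of_forall fun x => ?_)
      simp only
      ring
    have i2 : IntegrableOn (fun x => φ x * inner ℝ (K x) v) (ball a s) := by
      obtain ⟨M, hM⟩ := hφ.continuous.bounded_above_of_compact_support hφc
      exact Integrable.bdd_mul (c := M) (hki.inner_const v) hφ.continuous.aestronglyMeasurable
        (Eventually.of_forall hM)
    rw [integral_add i1 i2] at h1
    linarith
  obtain ⟨hloc, hgrad, hball, hsph⟩ := hglue W K J Z (cone_Z_closed a s N q) hWc hWint hWs hki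
    (cone_Z_sphere a hs N q) (hc.J_int a hs) hjump hdiv
  have hzero : volume {θ ∈ Ioo (-Real.pi) Real.pi | u (pc a s θ) ≠ W (pc a s θ)} = 0 := by
    rw [ae_restrict_iff' measurableSet_Ioo, ae_iff] at hu
    refine measure_mono_null ?_ hu
    rintro θ ⟨hθ, hne⟩ hcon
    exact hne (hcon hθ)
  rw [hzero, mul_zero] at hsph
  have hmin := h.min (glued a s W u) (glued a s K g) (closedBall a s) hloc hgrad
    (isCompact_closedBall a s) hsR (fun x _ hx => by
      have : ¬ dist x a ≤ s := hx
      unfold glued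
      rw [if_neg this])
  -- right-hand side
  have hr1 : (μH[1] : Measure ℂ) (discSet Ω (glued a s W u) ∩ closedBall a s) ≤
      ENNReal.ofReal (s * N) := by
    rw [← ball_union_sphere, inter_union_distrib_left]
    refine (measure_union_le _ _).trans ?_
    have h1 : (μH[1] : Measure ℂ) (discSet Ω (glued a s W u) ∩ ball a s) ≤
        N * ENNReal.ofReal s :=
      (measure_mono (fun x hx => ⟨hball hx, hx.2⟩ :
        discSet Ω (glued a s W u) ∩ ball a s ⊆ cone_Z a s N q ∩ ball a s)).trans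
        (hc.Z_measure a hs)
    have h2 : (N : ℝ≥0∞) * ENNReal.ofReal s = ENNReal.ofReal (s * N) := by
      rw [mul_comm, ENNReal.ofReal_mul hs.le, ENNReal.ofReal_natCast]
    rw [h2] at h1
    calc _ ≤ ENNReal.ofReal (s * N) + 0 := add_le_add h1 hsph
      _ = _ := add_zero _
  have hr2 : ∫⁻ x in closedBall a s, ‖glued a s K g x‖ₑ ^ 2 = ∫⁻ x in ball a s, ‖K x‖ₑ ^ 2 := by
    rw [setLIntegral_congr (comp0_closedBall_ae a hs)]
    refine setLIntegral_congr_fun measurableSet_ball fun x hx => ?_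
    have : dist x a ≤ s := le_of_lt hx
    simp only [glued]
    rw [if_pos this]
  rw [hr2] at hmin
  have hI0 : 0 ≤ ∫ θ in Ioo (-Real.pi) Real.pi, G θ ^ 2 := integral_nonneg fun x => sq_nonneg _
  have hmin2 : (∫⁻ x in closedBall a s, ‖g x‖ₑ ^ 2) +
      (μH[1] : Measure ℂ) (discSet Ω u ∩ closedBall a s) ≤
      ENNReal.ofReal ((1 + κ / 4) * (∫ θ in Ioo (-Real.pi) Real.pi, G θ ^ 2) + s * N) := by
    rw [ENNReal.ofReal_add (by positivity) (by positivity)]
    exact hmin.trans (add_le_add hlint hr1)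
  -- left-hand side
  have hgI : IntegrableOn (fun x => ‖g x‖ ^ 2) (ball a s) :=
    (h.fin_g _ (isCompact_closedBall a s) hsR).mono_set ball_subset_closedBall
  have hD : ENNReal.ofReal (Dq g a s) = ∫⁻ x in ball a s, ‖g x‖ₑ ^ 2 := by
    unfold Dq
    rw [ofReal_integral_eq_lintegral_ofReal hgI (Eventually.of_forall fun x => sq_nonneg _)]
    refine lintegral_congr fun x => ?_
    rw [ENNReal.ofReal_pow (norm_nonneg _), ofReal_norm]
  have hfinS : (μH[1] : Measure ℂ) (discSet Ω u ∩ ball a s) ≠ ⊤ :=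
    ne_top_of_le_ne_top (h.fin_S _ (isCompact_closedBall a s) hsR).ne
      (measure_mono (inter_subset_inter_right _ ball_subset_closedBall))
  have hL : ENNReal.ofReal (Lq Ω u a s) = (μH[1] : Measure ℂ) (discSet Ω u ∩ ball a s) := by
    unfold Lq
    rw [ENNReal.ofReal_toReal hfinS]
  have hD0 : 0 ≤ Dq g a s := integral_nonneg fun x => sq_nonneg _
  have hL0 : 0 ≤ Lq Ω u a s := ENNReal.toReal_nonneg
  have hle : ENNReal.ofReal (Dq g a s + Lq Ω u a s) ≤
      ENNReal.ofReal ((1 + κ / 4) * (∫ θ in Ioo (-Real.pi) Real.pi, G θ ^ 2) + s * N) := by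
    rw [ENNReal.ofReal_add hD0 hL0, hD, hL]
    refine le_trans (add_le_add (lintegral_mono_set ball_subset_closedBall) (measure_mono
      (inter_subset_inter_right _ ball_subset_closedBall))) hmin2
  have hle' := (ENNReal.ofReal_le_ofReal_iff (by positivity)).1 hle
  have hT : ∫ θ in Ioo (-Real.pi) Real.pi, G θ ^ 2 = s * Tq g a s := by
    unfold Tq
    rw [← mul_assoc, ← integral_const_mul]
    refine integral_congr_ae (Eventually.of_forall fun θ => ?_)
    simp only [hGdef, Gq]
    ring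
  rw [hT] at hle'
  linarith

theorem rg_cone {Ω : Set ℂ} {u : ℂ → ℝ} {g j : ℂ → ℂ} (h : MSMin Ω u g j) {a : ℂ} {R : ℝ}
    (hR : ball a R ⊆ Ω) :
    ∀ᵐ s ∂(volume.restrict (Ioo 0 R)), ∀ K : Set ℂ, jumpSet Ω u ∩ sphere a s ⊆ K →
      (K ∩ sphere a s).Finite → (K ∩ sphere a s).Nonempty → ∀ w : ℝ,
      (∀ α β : ℝ, α < β → (∀ θ ∈ Ioo α β, pc a s θ ∉ K) → β - α ≤ w) →
      Dq g a s + Lq Ω u a s ≤ s * (K ∩ sphere a s).ncard +
        (1 + (w / (2 * Real.pi)) ^ 2) * (s * Tq g a s) := by
  have hfin : ∀ s < R, IntegrableOn (fun x => ‖g x‖ ^ 2) (ball a s) := fun s hs =>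
    (h.fin_g _ (isCompact_closedBall a s) ((closedBall_subset_ball hs).trans hR)).mono_set
      ball_subset_closedBall
  filter_upwards [glue_gen h.toSBVData hR, slice_arc h.toSBVData hR,
    (Dq_deriv h.meas_g hfin).1, ae_restrict_mem measurableSet_Ioo] with s hglue hslice hder hs
  intro K hJK hJfin hne w hw
  have hpi := Real.pi_pos
  have hT0 : 0 ≤ Tq g a s := by
    unfold Tq
    exact mul_nonneg hs.1.le (integral_nonneg fun θ => sq_nonneg _)
  obtain ⟨q, hq, hN, hqN, hqN1, hqJ⟩ := cone_angles hs.1 hJfin hne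
  set N := (K ∩ sphere a s).ncard with hNdef
  set G := Gq g a s with hG
  -- properties of `G`
  have hpc : Continuous fun θ => pc a s θ :=
    (comp0_continuous_pc a).comp (Continuous.prodMk continuous_const continuous_id)
  have hGm : Measurable G := by
    have h1 : Measurable fun θ => (inner ℝ (g (pc a s θ)) (et θ) : ℝ) :=
      (h.meas_g.comp hpc.measurable).inner comp0_continuous_et.measurable
    exact h1.const_mul s
  have hper : Function.Periodic G (2 * Real.pi) := comp0_Gq_periodic g a s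
  have hper2 : Function.Periodic (fun θ => G θ ^ 2) (2 * Real.pi) := fun θ => by
    simp only
    rw [hper θ]
  have e0 : -Real.pi + 2 * Real.pi = Real.pi := by ring
  have hGle : ∀ θ, (G θ) ^ 2 ≤ s ^ 2 * ‖g (pc a s θ)‖ ^ 2 := by
    intro θ
    have h2 := comp0_inner_le (g (pc a s θ)) θ
    have e : G θ ^ 2 = s ^ 2 * (inner ℝ (g (pc a s θ)) (et θ)) ^ 2 := by
      rw [hG]; unfold Gq; ring
    rw [e]
    exact mul_le_mul_of_nonneg_left h2 (sq_nonneg _)
  have hGi : IntervalIntegrable G volume (-Real.pi) (-Real.pi + 2 * Real.pi) := by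
    rw [e0, intervalIntegrable_iff_integrableOn_Ioo_of_le (by linarith)]
    have h1 : IntegrableOn (fun θ => s ^ 2 * ‖g (pc a s θ)‖ ^ 2 + 1) (Ioo (-Real.pi) Real.pi) := by
      refine (hder.2.const_mul _).add ?_
      simp
    refine Integrable.mono' h1 hGm.aestronglyMeasurable (Eventually.of_forall fun θ => ?_)
    have h3 := hGle θ
    rw [Real.norm_eq_abs]
    nlinarith [sq_abs (G θ), abs_nonneg (G θ)]
  have hGi2 : IntervalIntegrable (fun θ => G θ ^ 2) volume (-Real.pi) (-Real.pi + 2 * Real.pi) := by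
    rw [e0, intervalIntegrable_iff_integrableOn_Ioo_of_le (by linarith)]
    refine Integrable.mono' (hder.2.const_mul (s ^ 2)) (hGm.pow_const 2).aestronglyMeasurable
      (Eventually.of_forall fun θ => ?_)
    rw [Real.norm_of_nonneg (sq_nonneg _)]
    exact hGle θ
  have hGall : ∀ x y, IntervalIntegrable G volume x y := fun x y =>
    hper.intervalIntegrable (by linarith) hGi x y
  have hG2all : ∀ x y, IntervalIntegrable (fun θ => G θ ^ 2) volume x y := fun x y =>
    hper2.intervalIntegrable (by linarith) hGi2 x y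
  -- constants on the arcs
  have hex : ∀ k, ∃ c m : ℝ, k < N → (∀ᵐ θ ∂(volume.restrict (Ioo (q k) (q (k + 1)))),
      u (pc a s θ) = c + ∫ t in q k..θ, G t) ∧
      ∫ θ in q k..q (k + 1), ((c + ∫ t in q k..θ, G t) - m) ^ 2 ≤
        (w / Real.pi) ^ 2 * ∫ θ in q k..q (k + 1), G θ ^ 2 := by
    intro k
    by_cases hk : k < N
    · have hlt : q k < q (k + 1) := hq (Nat.lt_succ_self k)
      obtain ⟨c, hc⟩ := hslice (q k) (q (k + 1)) hlt (fun θ hθ hJ =>
        hqJ k hk θ hθ (hJK ⟨hJ, by rw [mem_sphere]; exact polar_dist a hs.1 θ⟩))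
      have hwk := hw (q k) (q (k + 1)) hlt (hqJ k hk)
      obtain ⟨m, hm⟩ := rgcone_wirt hlt hGm (hG2all _ _) c
      have h0 : 0 ≤ ∫ θ in q k..q (k + 1), G θ ^ 2 :=
        intervalIntegral.integral_nonneg hlt.le fun θ _ => sq_nonneg _
      have h1 : ((q (k + 1) - q k) / Real.pi) ^ 2 ≤ (w / Real.pi) ^ 2 := by
        refine pow_le_pow_left₀ (div_nonneg (by linarith) hpi.le) ?_ 2
        exact div_le_div_of_nonneg_right hwk hpi.le
      exact ⟨c, m, fun _ => ⟨hc, hm.trans (mul_le_mul_of_nonneg_right h1 h0)⟩⟩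
    · exact ⟨0, 0, fun h' => absurd h' hk⟩
  choose c m hcm using hex
  set c' : ℕ → ℝ := fun k => c (k % N) with hc'
  set m' : ℕ → ℝ := fun k => m (k % N) with hm'
  have hcc : ∀ k < N, c' k = c k := fun k hk => by simp only [hc', Nat.mod_eq_of_lt hk]
  have hmm : ∀ k < N, m' k = m k := fun k hk => by simp only [hm', Nat.mod_eq_of_lt hk]
  have hyp : ConeHyp N q c' m' G :=
    { mono := hq
      pos := hN
      qN := hqN
      qN1 := hqN1
      cN := by simp only [hc', Nat.mod_self, Nat.zero_mod]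
      mN := by simp only [hm', Nat.mod_self, Nat.zero_mod]
      Gm := hGm
      Gper := hper
      Gi := hGall }
  have hconst : 1 + (w / (2 * Real.pi)) ^ 2 = 1 + (w / Real.pi) ^ 2 / 4 := by
    field_simp
    ring
  rw [hconst]
  refine rgcone_main h hs.1 ((closedBall_subset_ball hs.2).trans hR) hglue (sq_nonneg _) hyp
    hG2all ?_ ?_
  · intro k hk
    have h1 := (hcm k hk).2
    unfold cone_Fk
    rw [hcc k hk, hmm k hk]
    exact h1
  · refine ae_restrict_of_ae (cone_ae_periodic (P := fun θ => u (pc a s θ) =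
      cone_W a s N q c' m' G (pc a s θ)) (fun θ => by rw [cone_pc_periodic]) (p := q 0) ?_)
    rw [← hqN]
    have hall : ∀ k < N, ∀ᵐ θ, θ ∈ Ioo (q k) (q (k + 1)) → u (pc a s θ) =
        cone_W a s N q c' m' G (pc a s θ) := by
      intro k hk
      have h1 := (hcm k hk).1
      rw [ae_restrict_iff' measurableSet_Ioo] at h1
      filter_upwards [h1] with θ hθ hθm
      rw [hθ hθm, hyp.W_pc a s hk.le ⟨hθm.1, hθm.2.le⟩ hs.1, div_self hs.1.ne', Real.sqrt_one]
      unfold cone_Fk
      rw [hcc k hk]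
      ring
    have hall2 : ∀ᵐ θ, ∀ k < N, θ ∈ Ioo (q k) (q (k + 1)) → u (pc a s θ) =
        cone_W a s N q c' m' G (pc a s θ) := by
      rw [ae_all_iff]
      intro k
      by_cases hk : k < N
      · filter_upwards [hall k hk] with θ hθ _
        exact hθ
      · exact Eventually.of_forall fun θ h' => absurd h' hk
    have hne2 : ∀ᵐ θ : ℝ, ∀ k, θ ≠ q k := by
      rw [ae_all_iff]
      intro k
      rw [ae_iff]
      simp
    rw [ae_restrict_iff' measurableSet_Ioo]
    filter_upwards [hall2, hne2] with θ h1 h2 h3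
    obtain ⟨k, hk, hkm⟩ := cone_exists N ⟨h3.1, h3.2.le⟩
    exact h1 k hk ⟨hkm.1, lt_of_le_of_ne hkm.2 (h2 (k + 1))⟩

end Pool.Agent.MP099f24
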