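import Mathlib
import Pool.Agent.Lib.MP_099f24_an.SD.Asm2

/-!
# Power growth from a differential inequality (module RGROWTH)
-/

namespace Pool.Agent.MP099f24

open MeasureTheory Filter Topology Set Metric
open scoped ENNReal ContDiff

theorem rg_growth {F : ℝ → ℝ} {R κ : ℝ} (hκ : 0 < κ) (hm : MonotoneOn F (Ioo 0 R))
    (h0 : ∀ s ∈ Ioo 0 R, 0 ≤ F s)
    (hF : ∀ᵐ s ∂(volume.restrict (Ioo 0 R)), F s ≤ κ * (s * deriv F s)) :
    ∀ s t : ℝ, 0 < s → s ≤ t → t < R → F s ≤ (s / t) ^ (1 / κ) * F t := by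
  intro s t hs hst ht
  have ht0 : 0 < t := hs.trans_le hst
  have hsR : s < R := hst.trans_lt ht
  have hFt0 : 0 ≤ F t := h0 t ⟨ht0, ht⟩
  rcases (h0 s ⟨hs, hsR⟩).eq_or_lt with hz | hpos
  · rw [← hz]
    positivity
  -- `F > 0` on `[s, R)`
  have hposall : ∀ r, s ≤ r → r < R → 0 < F r := fun r h1 h2 =>
    hpos.trans_le (hm ⟨hs, hsR⟩ ⟨hs.trans_le h1, h2⟩ h1)
  -- the truncated logarithm
  set G : ℝ → ℝ := fun r => Real.log (max (F r) (F s)) with hG
  have hGm : MonotoneOn G (Ioo 0 R) := by
    intro x hx y hy hxy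
    refine Real.log_le_log (lt_max_of_lt_right hpos) ?_
    exact max_le_max (hm hx hy hxy) le_rfl
  set f : ℝ → ℝ := fun r => if r ≤ s then 0 else 1 / (κ * r) with hf
  have hle : ∀ᵐ x ∂(volume.restrict (Ioo 0 R)), f x ≤ deriv G x := by
    filter_upwards [hF, asm_ae_diff hm, ae_restrict_mem measurableSet_Ioo] with r h1 h2 hr
    simp only [hf]
    split_ifs with hrs
    · exact asm_deriv_nonneg hGm hr
    · push Not at hrs
      have hFr : 0 < F r := hposall r hrs.le hr.2
      have heq : G =ᶠ[𝓝 r] fun x => Real.log (F x) := by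
        filter_upwards [Ioo_mem_nhds hrs hr.2] with x hx
        simp only [hG]
        rw [max_eq_left (hm ⟨hs, hsR⟩ ⟨hs.trans hx.1, hx.2⟩ hx.1.le)]
      rw [heq.deriv_eq, deriv.log h2 hFr.ne', div_le_div_iff₀ (by nlinarith [hr.1]) hFr]
      nlinarith
  have hfi : IntervalIntegrable f volume s t := by
    have h1 : IntervalIntegrable (fun r : ℝ => 1 / (κ * r)) volume s t := by
      refine ContinuousOn.intervalIntegrable ?_
      rw [uIcc_of_le hst]
      refine continuousOn_const.div (continuousOn_const.mul continuousOn_id) fun x hx => ?_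
      exact (mul_pos hκ (hs.trans_le hx.1)).ne'
    refine h1.congr_ae ?_
    rw [uIoc_of_le hst]
    filter_upwards [ae_restrict_mem measurableSet_Ioc] with r hr
    simp only [hf]
    rw [if_neg (not_le.2 hr.1)]
  have h1 := rig_integral_deriv_le hGm hs hst ht hfi hle
  have h2 : ∫ x in s..t, f x = (1 / κ) * Real.log (t / s) := by
    have e1 : ∫ x in s..t, f x = ∫ x in s..t, (1 / κ) * x⁻¹ := by
      refine intervalIntegral.integral_congr_ae ?_
      rw [uIoc_of_le hst]
      refine Eventually.of_forall fun r hr => ?_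
      simp only [hf]
      rw [if_neg (not_le.2 hr.1)]
      field_simp
    rw [e1, intervalIntegral.integral_const_mul, integral_inv_of_pos hs ht0]
  rw [h2] at h1
  have h3 : G t = Real.log (F t) := by
    simp only [hG]
    rw [max_eq_left (hm ⟨hs, hsR⟩ ⟨ht0, ht⟩ hst)]
  have h4 : G s = Real.log (F s) := by
    simp only [hG]
    rw [max_self]
  rw [h3, h4] at h1
  have hFt : 0 < F t := hposall t hst ht
  have hlog : Real.log (F s) ≤ Real.log ((s / t) ^ (1 / κ) * F t) := by
    rw [Real.log_mul (Real.rpow_pos_of_pos (by positivity) _).ne' hFt.ne',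
      Real.log_rpow (by positivity)]
    have : Real.log (s / t) = - Real.log (t / s) := by
      rw [← Real.log_inv, inv_div]
    rw [this]
    linarith
  exact (Real.log_le_log_iff hpos (by positivity)).1 hlog

end Pool.Agent.MP099f24
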