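import Mathlib
import Pool.Agent.Lib.MP_099f24_an.EA.Clos
import Pool.Agent.Lib.MP_099f24_an.SD.Asm3
import Pool.Agent.Lib.MP_099f24_an.SD.Comp0
import Pool.Agent.Lib.MP_099f24_an.SD.JRep

/-!
# MP_099f24_an, PART R, module RNULL: `𝓗¹(S \ J) = 0` for local minimizers
-/

namespace Pool.Agent.MP099f24

open MeasureTheory Filter Topology Set Metric
open scoped ENNReal ContDiff ComplexConjugate

/-- If there is little jump set in `B_r(a)`, then many circles miss it, and the homogeneous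
competitor shows that there is energy of the gradient. -/
theorem rgnull_low {Ω : Set ℂ} {u : ℂ → ℝ} {g j : ℂ → ℂ} (h : MSMin Ω u g j) {a : ℂ} {R : ℝ}
    (hR : ball a R ⊆ Ω) (ha : a ∈ Ω) (hcl : a ∈ closure (discSet Ω u)) {r : ℝ}
    (hr : r ∈ Ioo 0 R) :
    r / 2 ≤ Dq g a r + ((μH[1] : Measure ℂ) (jumpSet Ω u ∩ ball a r)).toReal := by
  by_contra hlt
  push Not at hlt
  have hr0 := hr.1
  set A : ℝ≥0∞ := (μH[1] : Measure ℂ) (jumpSet Ω u ∩ ball a r) with hA
  have hAfin : A < ⊤ := (measure_mono (inter_subset_inter_left _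
    (asm_jump_sub h.toSBVData))).trans_lt (asm_S_lt_top h.toSBVData hR hr.2)
  have hD0 : 0 ≤ Dq g a r := asm_Dq_nonneg r
  have hAr : A.toReal < r / 2 := by linarith
  set B : Set ℝ := (fun z : ℂ => dist z a) '' (jumpSet Ω u ∩ ball a r) with hB
  have hBA : volume B ≤ A := by
    have h1 := (LipschitzWith.dist_left a).lipschitzOnWith (s := jumpSet Ω u ∩ ball a r)
      |>.hausdorffMeasure_image_le (d := 1) zero_le_one
    rw [hausdorffMeasure_real] at h1
    simpa using h1
  set B' : Set ℝ := toMeasurable volume B with hB'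
  have hB'm : MeasurableSet B' := measurableSet_toMeasurable _ _
  have hB'A : volume B' ≤ A := by rw [hB', measure_toMeasurable]; exact hBA
  set G : Set ℝ := Ioo (r / 4) r \ B' with hG
  have hGm : MeasurableSet G := measurableSet_Ioo.diff hB'm
  have hGsub : G ⊆ Ioo 0 R := fun s hs => ⟨by linarith [hs.1.1], hs.1.2.trans hr.2⟩
  have hT : ∀ᵐ s ∂(volume.restrict G), 2 ≤ Tq g a s := by
    filter_upwards [ae_restrict_of_ae_restrict_of_subset hGsub (comp_homog h hR),
      ae_restrict_mem hGm] with s hs hsG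
    have hs0 : 0 < s := (hGsub hsG).1
    have hJ : jumpSet Ω u ∩ sphere a s = ∅ := by
      rw [Set.eq_empty_iff_forall_notMem]
      rintro z ⟨hz1, hz2⟩
      refine hsG.2 (subset_toMeasurable _ _ ⟨z, ⟨hz1, ?_⟩, hz2⟩)
      rw [mem_ball, mem_sphere.1 hz2]
      exact hsG.1.2
    have h1 := hs hJ
    have h2 := asm_lower h hR ha hcl (hGsub hsG)
    have h3 : s * 2 ≤ s * Tq g a s := by linarith
    exact le_of_mul_le_mul_left h3 hs0
  obtain ⟨hint, hDD⟩ := mono_Dq_ac h.toSBVData hR (s := r / 4) (t := r) (by linarith)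
    (by linarith) hr.2
  rw [intervalIntegral.integral_of_le (by linarith)] at hDD
  have hintOn : IntegrableOn (fun s => Tq g a s + Vq g a s) (Ioc (r / 4) r) volume :=
    (intervalIntegrable_iff_integrableOn_Ioc_of_le (by linarith)).1 hint
  have hGIoc : G ⊆ Ioc (r / 4) r := fun s hs => ⟨hs.1.1, hs.1.2.le⟩
  have hTV0 : ∀ s : ℝ, s ∈ Ioc (r / 4) r → 0 ≤ Tq g a s + Vq g a s := by
    intro s hs
    have hs0 : 0 ≤ s := by linarith [hs.1]
    have h1 : 0 ≤ Tq g a s := mul_nonneg hs0 (integral_nonneg fun θ => sq_nonneg _)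
    have h2 : 0 ≤ Vq g a s := mul_nonneg hs0 (integral_nonneg fun θ => sq_nonneg _)
    linarith
  have h1 : ∫ s in G, (Tq g a s + Vq g a s) ≤ ∫ s in Ioc (r / 4) r, (Tq g a s + Vq g a s) := by
    refine setIntegral_mono_set hintOn ?_ hGIoc.eventuallyLE
    filter_upwards [ae_restrict_mem measurableSet_Ioc] with s hs using hTV0 s hs
  have hGfin : volume G < ⊤ :=
    (measure_mono (show G ⊆ Ioo (r / 4) r from fun s hs => hs.1)).trans_lt measure_Ioo_lt_top
  have h2 : ∫ _ in G, (2 : ℝ) ≤ ∫ s in G, (Tq g a s + Vq g a s) := by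
    refine setIntegral_mono_ae_restrict (integrableOn_const hGfin.ne) (hintOn.mono_set hGIoc) ?_
    filter_upwards [hT, ae_restrict_mem hGm] with s hs hsG
    have hs0 : 0 ≤ s := (hGsub hsG).1.le
    have h2 : 0 ≤ Vq g a s := mul_nonneg hs0 (integral_nonneg fun θ => sq_nonneg _)
    linarith
  have h3 : ∫ _ in G, (2 : ℝ) = 2 * (volume G).toReal := by
    rw [setIntegral_const, smul_eq_mul, Measure.real, mul_comm]
  have h4 : r - r / 4 ≤ (volume G).toReal + A.toReal := by
    have h5 : volume (Ioo (r / 4) r) ≤ volume G + volume B' := by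
      refine (measure_mono ?_).trans (measure_union_le _ _)
      intro s hs
      by_cases hsB : s ∈ B'
      · exact Or.inr hsB
      · exact Or.inl ⟨hs, hsB⟩
    have h6 : volume (Ioo (r / 4) r) ≤ volume G + A := h5.trans (by gcongr)
    rw [Real.volume_Ioo] at h6
    have h7 := ENNReal.toReal_mono (ENNReal.add_lt_top.2 ⟨hGfin, hAfin⟩).ne h6
    rwa [ENNReal.toReal_add hGfin.ne hAfin.ne, ENNReal.toReal_ofReal (by linarith)] at h7
  have h8 : 0 ≤ Dq g a (r / 4) := asm_Dq_nonneg _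
  linarith

theorem rg_null {Ω : Set ℂ} {u : ℂ → ℝ} {g j : ℂ → ℂ} (h : MSMin Ω u g j) :
    (μH[1] : Measure ℂ) (discSet Ω u \ jumpSet Ω u) = 0 := by
  refine measure_null_of_locally_null _ fun x hx => ?_
  have hS : MeasurableSet (discSet Ω u) := measurableSet_discSet h.isOpen h.intu
  obtain ⟨η, hη, hηΩ⟩ := Metric.isOpen_iff.1 h.isOpen x hx.1.1
  obtain ⟨ρ, hρ, hρη⟩ : ∃ ρ : ℝ, 0 < ρ ∧ 3 * ρ < η := ⟨η / 4, by positivity, by linarith⟩
  refine ⟨(discSet Ω u \ jumpSet Ω u) ∩ ball x ρ,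
    inter_mem_nhdsWithin _ (ball_mem_nhds x hρ), ?_⟩
  have hK : closedBall x (2 * ρ) ⊆ Ω := (closedBall_subset_ball (by linarith)).trans hηΩ
  have hKc : IsCompact (closedBall x (2 * ρ)) := isCompact_closedBall x (2 * ρ)
  have hKm : MeasurableSet (closedBall x (2 * ρ)) := isClosed_closedBall.measurableSet
  obtain ⟨C, j', hCσ, hCJ, hCnull, -, -⟩ := jump_rep h.toSBVData hKc hK
  have hCm : MeasurableSet C := by
    obtain ⟨Kn, hKn, hKC⟩ := hCσ
    rw [← hKC]
    exact MeasurableSet.iUnion fun n => (hKn n).measurableSet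
  have hCfin : (μH[1] : Measure ℂ) C < ⊤ :=
    (measure_mono (show C ⊆ discSet Ω u ∩ closedBall x (2 * ρ) from fun z hz =>
      ⟨asm_jump_sub h.toSBVData (hCJ hz).1, (hCJ hz).2⟩)).trans_lt (h.fin_S _ hKc hK)
  set m : Measure ℂ := (4 : ℝ≥0∞) • (((volume : Measure ℂ).restrict
    (closedBall x (2 * ρ))).withDensity (fun y => ‖g y‖ₑ ^ 2) +
    (μH[1] : Measure ℂ).restrict C) with hm
  have hmfin : IsFiniteMeasure m := by
    refine ⟨?_⟩
    rw [hm, Measure.smul_apply, Measure.add_apply, withDensity_apply _ MeasurableSet.univ,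
      Measure.restrict_apply_univ, Measure.restrict_univ,
      en_lintegral (h.fin_g _ hKc hK), smul_eq_mul]
    exact ENNReal.mul_lt_top (by norm_num) (ENNReal.add_lt_top.2 ⟨ENNReal.ofReal_lt_top, hCfin⟩)
  have hlow : ∀ y ∈ (Ω ∩ closure (discSet Ω u)) ∩ ball x ρ, ∀ r : ℝ, 0 < r → r < ρ →
      ENNReal.ofReal (2 * r) ≤ m (ball y r) := by
    intro y hy r hr hrρ
    have hyx : dist y x < ρ := hy.2
    have hsub : ball y r ⊆ closedBall x (2 * ρ) := by
      intro z hz
      have h1 := mem_ball.1 hz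
      have h2 := dist_triangle z y x
      exact mem_closedBall.2 (by linarith)
    have hyρ : ball y ρ ⊆ Ω := by
      refine Subset.trans ?_ hK
      intro z hz
      have h1 := mem_ball.1 hz
      have h2 := dist_triangle z y x
      exact mem_closedBall.2 (by linarith)
    have h1 := rgnull_low h hyρ hy.1.1 hy.1.2 ⟨hr, hrρ⟩
    have h2 : (μH[1] : Measure ℂ) (jumpSet Ω u ∩ ball y r) ≤
        (μH[1] : Measure ℂ).restrict C (ball y r) := by
      rw [Measure.restrict_apply measurableSet_ball]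
      calc (μH[1] : Measure ℂ) (jumpSet Ω u ∩ ball y r)
          ≤ (μH[1] : Measure ℂ) ((ball y r ∩ C) ∪
              ((jumpSet Ω u ∩ closedBall x (2 * ρ)) \ C)) := by
            refine measure_mono ?_
            intro z hz
            by_cases hzC : z ∈ C
            · exact Or.inl ⟨hz.2, hzC⟩
            · exact Or.inr ⟨⟨hz.1, hsub hz.2⟩, hzC⟩
        _ ≤ _ := (measure_union_le _ _).trans (by rw [hCnull, add_zero])
    have h3 : ENNReal.ofReal (Dq g y r) ≤ ((volume : Measure ℂ).restrict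
        (closedBall x (2 * ρ))).withDensity (fun y => ‖g y‖ₑ ^ 2) (ball y r) := by
      rw [withDensity_apply _ measurableSet_ball, Measure.restrict_restrict measurableSet_ball,
        inter_eq_left.2 hsub, en_lintegral (asm_g_int h.toSBVData hyρ hrρ)]
      rfl
    have h4 : ENNReal.ofReal (r / 2) ≤ ENNReal.ofReal (Dq g y r) +
        (μH[1] : Measure ℂ) (jumpSet Ω u ∩ ball y r) := by
      have hf : (μH[1] : Measure ℂ) (jumpSet Ω u ∩ ball y r) ≠ ⊤ :=
        ((measure_mono (inter_subset_inter_left _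
          (asm_jump_sub h.toSBVData))).trans_lt (asm_S_lt_top h.toSBVData hyρ hrρ)).ne
      rw [← ENNReal.ofReal_toReal hf, ← ENNReal.ofReal_add (asm_Dq_nonneg r)
        ENNReal.toReal_nonneg]
      exact ENNReal.ofReal_le_ofReal h1
    rw [hm, Measure.smul_apply, Measure.add_apply, smul_eq_mul]
    calc ENNReal.ofReal (2 * r) = 4 * ENNReal.ofReal (r / 2) := by
          rw [show (4 : ℝ≥0∞) = ENNReal.ofReal 4 by simp, ← ENNReal.ofReal_mul (by norm_num)]
          congr 1
          ring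
      _ ≤ _ := by
          gcongr
          exact h4.trans (add_le_add h3 h2)
  have hvol := eaclos_leb (N := (Ω ∩ closure (discSet Ω u)) ∩ ball x ρ) hρ hlow
  have hE1m : MeasurableSet ((discSet Ω u \ C) ∩ ball x ρ) :=
    (hS.diff hCm).inter measurableSet_ball
  have hsubN : (discSet Ω u \ C) ∩ ball x ρ ⊆ (Ω ∩ closure (discSet Ω u)) ∩ ball x ρ :=
    fun y hy => ⟨⟨hy.1.1.1, subset_closure hy.1.1⟩, hy.2⟩
  have hE1 : (μH[1] : Measure ℂ) ((discSet Ω u \ C) ∩ ball x ρ) = 0 := by
    refine eaclos_null (m := m) hρ ?_ fun y hy => hlow y (hsubN hy)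
    rw [hm, Measure.smul_apply, Measure.add_apply, withDensity_apply _ hE1m,
      Measure.restrict_apply hE1m, Measure.restrict_restrict hE1m,
      setLIntegral_measure_zero _ _ (measure_mono_null inter_subset_left
        (measure_mono_null hsubN hvol))]
    have h5 : (discSet Ω u \ C) ∩ ball x ρ ∩ C = ∅ := by
      ext y
      simp only [mem_inter_iff, Set.mem_sdiff, mem_empty_iff_false, iff_false]
      rintro ⟨⟨⟨_, h6⟩, _⟩, h7⟩
      exact h6 h7
    rw [h5, measure_empty, add_zero, smul_zero]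
  refine measure_mono_null ?_ hE1
  rintro y ⟨⟨hy1, hy2⟩, hy3⟩
  exact ⟨⟨hy1, fun hyC => hy2 (hCJ hyC).1⟩, hy3⟩

end Pool.Agent.MP099f24
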