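import Mathlib
import Pool.Agent.Lib.MP_099f24_an.SD.Coareaw
import Pool.Agent.Lib.MP_099f24_an.SD.Asm
import Pool.Agent.Lib.MP_099f24_an.SD.Meass

/-!
# Lower bound of `L'` with the tilt of the jump set (module RTILT)
-/

namespace Pool.Agent.MP099f24

open MeasureTheory Filter Topology Set Metric
open scoped ENNReal ContDiff

theorem rg_cos_le (a x y : ℂ) :
    |inner ℝ (x - a) (Complex.I * y)| / (‖x - a‖ * ‖y‖) ≤ 1 := by
  refine div_le_one_of_le₀ ?_ (by positivity)
  have := abs_real_inner_le_norm (x - a) (Complex.I * y)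
  rwa [norm_mul, Complex.norm_I, one_mul] at this

theorem rg_cos_nonneg (a x y : ℂ) :
    0 ≤ |inner ℝ (x - a) (Complex.I * y)| / (‖x - a‖ * ‖y‖) := by
  positivity

theorem rg_tilt_data {Ω : Set ℂ} {u : ℂ → ℝ} {g j : ℂ → ℂ} (h : SBVData Ω u g j) {a : ℂ} {R : ℝ}
    (hR : ball a R ⊆ Ω) : ∀ᵐ s ∂(volume.restrict (Ioo 0 R)),
      (jumpSet Ω u ∩ sphere a s).Finite →
      2 * ((jumpSet Ω u ∩ sphere a s).ncard : ℝ) -
        ∑ᶠ x ∈ jumpSet Ω u ∩ sphere a s, cosf j a x ≤ deriv (Lq Ω u a) s := by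
  set Ψ : ℂ × ℂ → ℝ := fun p => 2 - |inner ℝ (p.1 - a) (Complex.I * p.2)| /
    (‖p.1 - a‖ * ‖p.2‖) with hΨ
  have hΨm : Measurable Ψ := by
    refine measurable_const.sub (Measurable.div ?_ ?_)
    · have e : Measurable fun p : ℂ × ℂ => (inner ℝ (p.1 - a) (Complex.I * p.2) : ℝ) :=
        (measurable_fst.sub_const a).inner (measurable_snd.const_mul _)
      exact e.norm
    · exact ((measurable_fst.sub_const a).norm).mul measurable_snd.norm
  have hΨ0 : ∀ p, 0 ≤ Ψ p := fun p => by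
    have := rg_cos_le a p.1 p.2
    simp only [hΨ]
    linarith
  have hΨM : ∀ p, Ψ p ≤ 2 := fun p => by
    have := rg_cos_nonneg a p.1 p.2
    simp only [hΨ]
    linarith
  obtain ⟨hB1, hB2⟩ := coarea_weight h hR hΨm hΨ0 hΨM
  set B : ℝ → ℝ := fun t => ∫ x in ball a t, Ψ (x, j x) * cosf j a x ∂(μH[1] : Measure ℂ) with hB
  have hSm : MeasurableSet (discSet Ω u) := measurableSet_discSet h.isOpen h.intu
  -- `L - B` is monotone
  have hmono : MonotoneOn (fun t => Lq Ω u a t - B t) (Ioo 0 R) := by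
    intro s hs t ht hst
    have hBi : IntegrableOn (fun x => Ψ (x, j x) * cosf j a x) (ball a t) (μH[1] : Measure ℂ) :=
      coarea_weight_int h hR hΨm hΨ0 hΨM t ht.2
    have hsubb : ball a s ⊆ ball a t := ball_subset_ball hst
    have e1 : B t - B s = ∫ x in ball a t \ ball a s, Ψ (x, j x) * cosf j a x
        ∂(μH[1] : Measure ℂ) := by
      rw [setIntegral_sdiff measurableSet_ball hBi hsubb]
    have hfin : (μH[1] : Measure ℂ) (discSet Ω u ∩ ball a t) < ⊤ := asm_S_lt_top h hR ht.2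
    have hAm : MeasurableSet (ball a t \ ball a s) := measurableSet_ball.diff measurableSet_ball
    have hfin2 : (μH[1] : Measure ℂ) (discSet Ω u ∩ (ball a t \ ball a s)) < ⊤ :=
      lt_of_le_of_lt (measure_mono (inter_subset_inter_right _ sdiff_subset)) hfin
    have hind : IntegrableOn ((discSet Ω u).indicator fun _ => (1 : ℝ)) (ball a t \ ball a s)
        (μH[1] : Measure ℂ) := by
      rw [IntegrableOn, integrable_indicator_iff hSm]
      rw [IntegrableOn, Measure.restrict_restrict hSm]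
      exact integrableOn_const (hs := hfin2.ne)
    have e2 : ∫ x in ball a t \ ball a s, Ψ (x, j x) * cosf j a x ∂(μH[1] : Measure ℂ) ≤
        ∫ x in ball a t \ ball a s, (discSet Ω u).indicator (fun _ => (1 : ℝ)) x
          ∂(μH[1] : Measure ℂ) := by
      refine setIntegral_mono_on (hBi.mono_set sdiff_subset) hind hAm fun x hx => ?_
      by_cases hxS : x ∈ discSet Ω u
      · rw [indicator_of_mem hxS]
        simp only [hΨ, cosf]
        have f1 := rg_cos_le a x (j x)
        have f2 := rg_cos_nonneg a x (j x)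
        nlinarith
      · rw [indicator_of_notMem hxS]
        have hxJ : x ∉ jumpSet Ω u := fun hJ => hxS (asm_jump_sub h hJ)
        have hxΩ : x ∈ Ω := hR (ball_subset_ball ht.2.le hx.1)
        have hj0 : j x = 0 := by
          rcases h.jf x hxΩ with ⟨a', b', ν, h1, -⟩ | ⟨-, h2⟩
          · exact absurd ⟨hxΩ, a', b', ν, h1⟩ hxJ
          · exact h2
        simp [cosf, hj0]
    have e3 : ∫ x in ball a t \ ball a s, (discSet Ω u).indicator (fun _ => (1 : ℝ)) x
          ∂(μH[1] : Measure ℂ) =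
        ((μH[1] : Measure ℂ) (discSet Ω u ∩ (ball a t \ ball a s))).toReal := by
      rw [integral_indicator hSm, Measure.restrict_restrict hSm, setIntegral_const, smul_eq_mul,
        mul_one]
      rfl
    have e4 : Lq Ω u a t = Lq Ω u a s +
        ((μH[1] : Measure ℂ) (discSet Ω u ∩ (ball a t \ ball a s))).toReal := by
      unfold Lq
      rw [← ENNReal.toReal_add (lt_of_le_of_lt (measure_mono (inter_subset_inter_right _ hsubb))
        hfin).ne hfin2.ne]
      congr 1
      rw [← measure_union _ (hSm.inter hAm)]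
      · congr 1
        rw [← inter_union_distrib_left, union_sdiff_cancel hsubb]
      · rw [Set.disjoint_left]
        exact fun x hx hx' => hx'.2.2 hx.2
    change Lq Ω u a s - B s ≤ Lq Ω u a t - B t
    linarith
  have hLm : MonotoneOn (Lq Ω u a) (Ioo 0 R) := asm_Lq_mono h hR
  filter_upwards [hB2, asm_ae_diff hLm, asm_ae_diff hB1, ae_restrict_mem measurableSet_Ioo]
    with s h1 h2 h3 hs hfin
  have h4 := asm_deriv_nonneg hmono hs
  rw [deriv_fun_sub h2 h3] at h4
  have h5 : ∑ᶠ x ∈ jumpSet Ω u ∩ sphere a s, Ψ (x, j x) =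
      2 * ((jumpSet Ω u ∩ sphere a s).ncard : ℝ) -
        ∑ᶠ x ∈ jumpSet Ω u ∩ sphere a s, cosf j a x := by
    have eA := finsum_mem_eq_finite_toFinset_sum (fun x => Ψ (x, j x)) hfin
    have eB := finsum_mem_eq_finite_toFinset_sum (fun x => cosf j a x) hfin
    refine eA.trans ?_
    rw [eB, Set.ncard_eq_toFinset_card _ hfin]
    have : ∀ x, Ψ (x, j x) = 2 - cosf j a x := fun x => rfl
    simp only [this, Finset.sum_sub_distrib, Finset.sum_const, nsmul_eq_mul]
    ring
  rw [← h5]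
  linarith

theorem rg_tilt {Ω : Set ℂ} {u : ℂ → ℝ} {g j : ℂ → ℂ} (h : MSMin Ω u g j) {a : ℂ} {R : ℝ}
    (hR : ball a R ⊆ Ω) : ∀ᵐ s ∂(volume.restrict (Ioo 0 R)),
      (jumpSet Ω u ∩ sphere a s).Finite →
      2 * ((jumpSet Ω u ∩ sphere a s).ncard : ℝ) -
        ∑ᶠ x ∈ jumpSet Ω u ∩ sphere a s, cosf j a x ≤ deriv (Lq Ω u a) s :=
  rg_tilt_data h.toSBVData hR

end Pool.Agent.MP099f24
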