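import Mathlib
import Pool.Agent.Lib.MP_099f24_an.SD.Asm3
import Pool.Agent.Lib.MP_099f24_an.EA.Clos
import Pool.Agent.Lib.MP_099f24_an.RG.Chain
import Pool.Agent.Lib.MP_099f24_an.RG.Null
import Pool.Agent.Lib.MP_099f24_an.RG.Conec
import Pool.Agent.Lib.MP_099f24_an.RG.Tilt
import Pool.Agent.Lib.MP_099f24_an.RG.Growth

/-!
# MP_099f24_an, PART R, module RODE: decay of the energy and of the length excess
-/

namespace Pool.Agent.MP099f24

open MeasureTheory Filter Topology Set Metric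
open scoped ENNReal ContDiff ComplexConjugate

/-- A set of zero length misses almost every circle. -/
theorem rgode_null {Z : Set ℂ} (hZ : (μH[1] : Measure ℂ) Z = 0) (a : ℂ) :
    ∀ᵐ s : ℝ, Z ∩ sphere a s = ∅ := by
  have hlip : LipschitzWith 1 fun z : ℂ => dist z a := LipschitzWith.dist_left a
  have h1 := (hlip.lipschitzOnWith (s := Z)).hausdorffMeasure_image_le (d := 1) zero_le_one
  rw [hZ, mul_zero, nonpos_iff_eq_zero, hausdorffMeasure_real] at h1
  have h2 : ∀ᵐ s : ℝ, s ∉ (fun z : ℂ => dist z a) '' Z := by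
    rw [ae_iff]
    refine measure_mono_null (fun s hs => ?_) h1
    exact not_not.1 hs
  filter_upwards [h2] with s hs
  rw [Set.eq_empty_iff_forall_notMem]
  rintro z ⟨hz, hzs⟩
  exact hs ⟨z, hz, hzs⟩

section

variable {Ω : Set ℂ} {u : ℂ → ℝ} {g j : ℂ → ℂ} {a : ℂ} {R : ℝ}

/-- On almost every circle all points of `K = closure S_u` are jump points. -/
theorem rgode_sphere (h : MSMin Ω u g j) (hR : ball a R ⊆ Ω) :
    ∀ᵐ s ∂(volume.restrict (Ioo 0 R)),
      closure (discSet Ω u) ∩ sphere a s = jumpSet Ω u ∩ sphere a s := by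
  have hZ : (μH[1] : Measure ℂ) ((Ω ∩ closure (discSet Ω u)) \ jumpSet Ω u) = 0 := by
    refine measure_mono_null (t := ((Ω ∩ closure (discSet Ω u)) \ discSet Ω u) ∪
      (discSet Ω u \ jumpSet Ω u)) ?_ (measure_union_null (ea_clos h) (rg_null h))
    intro x hx
    by_cases hxd : x ∈ discSet Ω u
    · exact Or.inr ⟨hxd, hx.2⟩
    · exact Or.inl ⟨hx.1, hxd⟩
  filter_upwards [ae_restrict_of_ae (rgode_null hZ a), ae_restrict_mem measurableSet_Ioo]
    with s hs hsm
  ext x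
  constructor
  · rintro ⟨hx, hxs⟩
    refine ⟨?_, hxs⟩
    by_contra hxJ
    have hxΩ : x ∈ Ω := hR (by
      rw [mem_ball, mem_sphere.1 hxs]
      exact hsm.2)
    have : x ∈ ((Ω ∩ closure (discSet Ω u)) \ jumpSet Ω u) ∩ sphere a s :=
      ⟨⟨⟨hxΩ, hx⟩, hxJ⟩, hxs⟩
    rw [hs] at this
    exact this
  · rintro ⟨hx, hxs⟩
    exact ⟨subset_closure (asm_jump_sub h.toSBVData hx), hxs⟩

/-- finitely many jump points on almost every circle -/
theorem rgode_fin (h : MSMin Ω u g j) (hR : ball a R ⊆ Ω) :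
    ∀ᵐ s ∂(volume.restrict (Ioo 0 R)), (jumpSet Ω u ∩ sphere a s).Finite := by
  filter_upwards [asm_count h.toSBVData hR] with s h3
  by_contra hinf
  have hinf' : (discSet Ω u ∩ sphere a s).encard = ⊤ := by
    rw [encard_eq_top_iff]
    exact fun hf => hinf (hf.subset (inter_subset_inter_left _ (asm_jump_sub h.toSBVData)))
  obtain ⟨n, hn⟩ := exists_nat_gt (deriv (Lq Ω u a) s)
  exact absurd (h3 n (by rw [hinf']; exact le_top)) (not_le.2 hn)

theorem rgode_cos_le (S : Set ℂ) (hS : S.Finite) :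
    ∑ᶠ x ∈ S, cosf j a x ≤ S.ncard := by
  rw [finsum_mem_eq_finite_toFinset_sum _ hS, Set.ncard_eq_toFinset_card _ hS]
  have : ∀ x ∈ hS.toFinset, cosf j a x ≤ 1 := fun x _ => mono_cos_le x (j x)
  simpa using Finset.sum_le_sum this

/-- The inequality for almost every radius. -/
theorem rgode_class (h : MSMin Ω u g j) (hR : ball a R ⊆ Ω) {n : ℕ} (hn : 0 < n)
    (h1 : ∀ᵐ s ∂(volume.restrict (Ioo 0 R)),
      (n : ℕ∞) ≤ (closure (discSet Ω u) ∩ sphere a s).encard)
    (h2 : ∀ᵐ s ∂(volume.restrict (Ioo 0 R)),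
      ∀ α β : ℝ, α < β → (∀ θ ∈ Ioo α β, pc a s θ ∉ closure (discSet Ω u)) → β - α ≤ 32 / 10) :
    ∀ᵐ s ∂(volume.restrict (Ioo 0 R)), HasDerivAt (Dq g a) (Tq g a s + Vq g a s) s ∧
      DifferentiableAt ℝ (Lq Ω u a) s ∧ (n : ℝ) ≤ deriv (Lq Ω u a) s ∧
      ((n : ℝ) + 1 ≤ deriv (Lq Ω u a) s ∨
        (Dq g a s + (Lq Ω u a s - n * s) ≤ 126 / 100 * (s * Tq g a s) ∧
          3 / 2 * (s * Tq g a s) - (Lq Ω u a s - n * s) / 2 ≤
            s * (Tq g a s + Vq g a s) + s * (deriv (Lq Ω u a) s - n) / 2)) := by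
  filter_upwards [h1, h2, rgode_sphere h hR, rgode_fin h hR, rg_cone h hR, rg_tilt h hR,
    dilation_jump h hR, asm_count h.toSBVData hR,
    (Dq_deriv h.meas_g fun _ hs => asm_g_int h.toSBVData hR hs).1,
    asm_ae_diff (asm_Lq_mono h.toSBVData hR), ae_restrict_mem measurableSet_Ioo]
    with s k1 k2 k3 k4 k5 k6 k7 k8 k9 k10 hs
  set K := closure (discSet Ω u) with hK
  have hs0 : 0 < s := hs.1
  have hpi := Real.pi_pos
  -- counting
  have hsub : jumpSet Ω u ∩ sphere a s ⊆ discSet Ω u ∩ sphere a s :=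
    inter_subset_inter_left _ (asm_jump_sub h.toSBVData)
  have hcount : ∀ m : ℕ, (m : ℕ∞) ≤ (K ∩ sphere a s).encard → (m : ℝ) ≤ deriv (Lq Ω u a) s := by
    intro m hm
    refine k8 m (hm.trans ?_)
    rw [k3]
    exact encard_le_encard hsub
  refine ⟨k9.1, k10, hcount n k1, ?_⟩
  have hKfin : (K ∩ sphere a s).Finite := by rw [k3]; exact k4
  by_cases hN : ((n + 1 : ℕ) : ℕ∞) ≤ (K ∩ sphere a s).encard
  · left
    have := hcount (n + 1) hN
    push_cast at this
    exact this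
  right
  have hNn : (K ∩ sphere a s).encard = n := by
    refine le_antisymm ?_ k1
    rw [not_le] at hN
    push_cast at hN
    exact (ENat.lt_add_one_iff (by simp)).1 hN
  have hncard : (K ∩ sphere a s).ncard = n := by
    rw [Set.ncard, hNn]; simp
  have hJcard : (jumpSet Ω u ∩ sphere a s).ncard = n := by rw [← k3, hncard]
  have hne : (K ∩ sphere a s).Nonempty := by
    rw [← Set.encard_pos, hNn]
    exact_mod_cast hn
  have hT := asm_Tq_nonneg (g := g) (a := a) hs0.le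
  have hV := asm_Vq_nonneg (g := g) (a := a) hs0.le
  have c1 := k5 K (inter_subset_left.trans ((asm_jump_sub h.toSBVData).trans subset_closure))
    hKfin hne (32 / 10) k2
  rw [hncard] at c1
  have hc : 1 + (32 / 10 / (2 * Real.pi)) ^ 2 ≤ 126 / 100 := by
    have h3 : 32 / 10 / (2 * Real.pi) ≤ 32 / 10 / (2 * 3.1415) := by
      have := Real.pi_gt_d4
      gcongr
    have h4 : 0 ≤ 32 / 10 / (2 * Real.pi) := by positivity
    have h5 : (32 / 10 / (2 * Real.pi)) ^ 2 ≤ (32 / 10 / (2 * 3.1415)) ^ 2 :=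
      pow_le_pow_left₀ h4 h3 2
    norm_num at h5 ⊢
    linarith
  have hsT : 0 ≤ s * Tq g a s := by positivity
  have c2 : Dq g a s + Lq Ω u a s ≤ s * n + 126 / 100 * (s * Tq g a s) :=
    c1.trans (by gcongr)
  refine ⟨by linarith, ?_⟩
  have c3 := k6 k4
  rw [hJcard] at c3
  have c4 := rgode_cos_le (j := j) (a := a) _ k4
  rw [hJcard] at c4
  set S := ∑ᶠ x ∈ jumpSet Ω u ∩ sphere a s, cosf j a x with hS
  have c5 : s * (2 * n - S) ≤ s * deriv (Lq Ω u a) s := mul_le_mul_of_nonneg_left c3 hs0.le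
  nlinarith

/-- The length is at least `n` times the radius; the excess is nondecreasing. -/
theorem rgode_mono (h : MSMin Ω u g j) (hR : ball a R ⊆ Ω) {n : ℕ}
    (h1 : ∀ᵐ s ∂(volume.restrict (Ioo 0 R)), (n : ℝ) ≤ deriv (Lq Ω u a) s) :
    MonotoneOn (fun s => Lq Ω u a s - n * s) (Ioo 0 R) ∧
      ∀ s ∈ Ioo 0 R, 0 ≤ Lq Ω u a s - n * s := by
  have hm : MonotoneOn (fun s => Lq Ω u a s - n * s) (Ioo 0 R) := by
    intro s hs t ht hst
    have := rig_integral_deriv_le (asm_Lq_mono h.toSBVData hR) hs.1 hst ht.2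
      (f := fun _ => (n : ℝ)) intervalIntegrable_const h1
    rw [intervalIntegral.integral_const, smul_eq_mul] at this
    simp only
    linarith
  refine ⟨hm, fun s hs => ?_⟩
  refine le_of_forall_pos_le_add fun ε hε => ?_
  obtain ⟨t, ht0, htε, hts⟩ : ∃ t : ℝ, 0 < t ∧ n * t ≤ ε ∧ t ≤ s := by
    refine ⟨min s (ε / (n + 1)), lt_min hs.1 (by positivity), ?_, min_le_left _ _⟩
    have h3 : min s (ε / (n + 1)) ≤ ε / ((n : ℝ) + 1) := min_le_right _ _
    have h4 : (n : ℝ) * (ε / (n + 1)) ≤ ε := by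
      rw [mul_div_assoc', div_le_iff₀ (by positivity)]
      nlinarith [(Nat.cast_nonneg n : (0 : ℝ) ≤ n)]
    exact (mul_le_mul_of_nonneg_left h3 (Nat.cast_nonneg n)).trans h4
  have h3 := hm ⟨ht0, hts.trans_lt hs.2⟩ hs hts
  simp only at h3
  have h4 := asm_Lq_nonneg (Ω := Ω) (u := u) (a := a) t
  linarith

theorem rg_decay (h : MSMin Ω u g j) (hR : ball a R ⊆ Ω) {n : ℕ} (hn : 0 < n)
    (h1 : ∀ᵐ s ∂(volume.restrict (Ioo 0 R)),
      (n : ℕ∞) ≤ (closure (discSet Ω u) ∩ sphere a s).encard)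
    (h2 : ∀ᵐ s ∂(volume.restrict (Ioo 0 R)),
      ∀ α β : ℝ, α < β → (∀ θ ∈ Ioo α β, pc a s θ ∉ closure (discSet Ω u)) → β - α ≤ 32 / 10)
    (hE : ∀ s ∈ Ioo 0 R, Dq g a s + Lq Ω u a s ≤ (n + 1 / 1000) * s) :
    (∀ s ∈ Ioo 0 R, n * s ≤ Lq Ω u a s) ∧
    ∀ s t : ℝ, 0 < s → s ≤ t → 2 * t < R →
      Dq g a s + (Lq Ω u a s - n * s) ≤ 6 * (s / t) ^ (11 / 10 : ℝ) * Dq g a (2 * t) := by
  have hcl := rgode_class h hR hn h1 h2
  have hder : ∀ᵐ s ∂(volume.restrict (Ioo 0 R)), (n : ℝ) ≤ deriv (Lq Ω u a) s := by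
    filter_upwards [hcl] with s hs using hs.2.2.1
  obtain ⟨hMm, hM0⟩ := rgode_mono h hR hder
  have hDm := asm_Dq_mono h.toSBVData hR
  set M : ℝ → ℝ := fun s => Lq Ω u a s - n * s with hM
  have hM0' : ∀ s ∈ Ioo 0 R, 0 ≤ M s := hM0
  refine ⟨fun s hs => by have := hM0 s hs; linarith, ?_⟩
  set F : ℝ → ℝ := fun s => Dq g a s + M s / 2 with hF
  have hFm : MonotoneOn F (Ioo 0 R) := by
    intro s hs t ht hst
    have e1 := hDm hs ht hst
    have e2 := hMm hs ht hst
    simp only [hF]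
    have e3 : M s ≤ M t := e2
    linarith
  have hF0 : ∀ s ∈ Ioo 0 R, 0 ≤ F s := by
    intro s hs
    have e1 := asm_Dq_nonneg (g := g) (a := a) s
    have e2 := hM0' s hs
    simp only [hF]
    linarith
  have hE' : ∀ s ∈ Ioo 0 R, Dq g a s + M s ≤ s / 1000 := by
    intro s hs
    have := hE s hs
    simp only [hM]
    linarith
  have hFode : ∀ᵐ s ∂(volume.restrict (Ioo 0 R)), F s ≤ 10 / 11 * (s * deriv F s) := by
    filter_upwards [hcl, ae_restrict_mem measurableSet_Ioo] with s hs hsm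
    obtain ⟨k1, k2, k3, k4⟩ := hs
    have hs0 : 0 < s := hsm.1
    have hMd : HasDerivAt M (deriv (Lq Ω u a) s - n) s := by
      have := k2.hasDerivAt.sub ((hasDerivAt_id s).const_mul (n : ℝ))
      rw [mul_one] at this
      exact this
    have hFd : HasDerivAt F (Tq g a s + Vq g a s + (deriv (Lq Ω u a) s - n) / 2) s :=
      k1.add (hMd.div_const 2)
    rw [hFd.deriv]
    have hT := asm_Tq_nonneg (g := g) (a := a) hs0.le
    have hV := asm_Vq_nonneg (g := g) (a := a) hs0.le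
    have hD0 := asm_Dq_nonneg (g := g) (a := a) s
    have hM0s := hM0' s hsm
    have hEs := hE' s hsm
    simp only [hF]
    rcases k4 with k4 | ⟨k4, k5⟩
    · have e1 : s / 2 ≤ s * (Tq g a s + Vq g a s + (deriv (Lq Ω u a) s - n) / 2) := by
        have : 1 / 2 ≤ Tq g a s + Vq g a s + (deriv (Lq Ω u a) s - n) / 2 := by linarith
        nlinarith
      linarith
    · have e1 : Dq g a s + M s ≤ 126 / 100 * (s * Tq g a s) := k4
      have e2 : 3 / 2 * (s * Tq g a s) - M s / 2 ≤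
          s * (Tq g a s + Vq g a s) + s * (deriv (Lq Ω u a) s - n) / 2 := k5
      have e3 : s * (Tq g a s + Vq g a s + (deriv (Lq Ω u a) s - n) / 2) =
          s * (Tq g a s + Vq g a s) + s * (deriv (Lq Ω u a) s - n) / 2 := by ring
      rw [e3]
      linarith
  have hgr := rg_growth (κ := 10 / 11) (by norm_num) hFm hF0 hFode
  -- the excess at `s` in terms of the Dirichlet energy at `2 s`
  have hexc : ∀ s, 0 < s → 2 * s < R → Dq g a s + M s ≤ 3 * Dq g a (2 * s) := by
    intro s hs0 hs2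
    set Y := Dq g a s + M s with hY
    have hsm : s ∈ Ioo 0 R := ⟨hs0, by linarith⟩
    have h2sm : 2 * s ∈ Ioo 0 R := ⟨by linarith, hs2⟩
    have hY0 : 0 ≤ Y := add_nonneg (asm_Dq_nonneg s) (hM0' s hsm)
    obtain ⟨hi, hiD⟩ := mono_Dq_ac h.toSBVData hR hs0 (by linarith : s ≤ 2 * s) hs2
    have hiL : IntervalIntegrable (deriv (Lq Ω u a)) volume s (2 * s) := by
      have hsub : uIcc s (2 * s) ⊆ Ioo 0 R := by
        rw [uIcc_of_le (by linarith)]
        exact fun x hx => ⟨hs0.trans_le hx.1, hx.2.trans_lt hs2⟩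
      exact ((asm_Lq_mono h.toSBVData hR).mono hsub).intervalIntegrable_deriv
    have hpt : ∀ᵐ x ∂(volume.restrict (Ioc s (2 * s))),
        Y ≤ 252 / 100 * s * (Tq g a x + Vq g a x) + Y * (deriv (Lq Ω u a) x - n) := by
      have hsub : Ioc s (2 * s) ⊆ Ioo 0 R := fun x hx => ⟨hs0.trans hx.1, hx.2.trans_lt hs2⟩
      filter_upwards [ae_restrict_of_ae_restrict_of_subset hsub hcl,
        ae_restrict_mem measurableSet_Ioc] with x hx hxm
      obtain ⟨k1, k2, k3, k4⟩ := hx
      have hxR := hsub hxm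
      have hT := asm_Tq_nonneg (g := g) (a := a) hxR.1.le
      have hV := asm_Vq_nonneg (g := g) (a := a) hxR.1.le
      rcases k4 with k4 | ⟨k4, -⟩
      · have : 1 ≤ deriv (Lq Ω u a) x - n := by linarith
        have e1 : 0 ≤ 252 / 100 * s * (Tq g a x + Vq g a x) := by positivity
        nlinarith
      · have e1 : Dq g a x + M x ≤ 126 / 100 * (x * Tq g a x) := k4
        have e2 := hDm hsm hxR hxm.1.le
        have e3 : M s ≤ M x := hMm hsm hxR hxm.1.le
        have e4 : x * Tq g a x ≤ 2 * s * Tq g a x := mul_le_mul_of_nonneg_right hxm.2 hT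
        have e5 : 0 ≤ Y * (deriv (Lq Ω u a) x - n) := mul_nonneg hY0 (by linarith)
        have e6 : 0 ≤ s * Vq g a x := by positivity
        nlinarith
    have hint : s * Y ≤ 252 / 100 * s * (Dq g a (2 * s) - Dq g a s) + Y * (M (2 * s) - M s) := by
      have i1 : IntervalIntegrable (fun x => 252 / 100 * s * (Tq g a x + Vq g a x) +
          Y * (deriv (Lq Ω u a) x - n)) volume s (2 * s) :=
        (hi.const_mul _).add ((hiL.sub intervalIntegrable_const).const_mul _)
      have i2 := intervalIntegral.integral_mono_ae_restrict (by linarith : s ≤ 2 * s)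
        (intervalIntegrable_const (c := Y)) i1 (by
          rw [← restrict_Ioc_eq_restrict_Icc]
          exact hpt)
      rw [intervalIntegral.integral_const, smul_eq_mul,
        intervalIntegral.integral_add (hi.const_mul _)
          ((hiL.sub intervalIntegrable_const).const_mul _),
        intervalIntegral.integral_const_mul, intervalIntegral.integral_const_mul,
        intervalIntegral.integral_sub hiL intervalIntegrable_const,
        intervalIntegral.integral_const, smul_eq_mul, ← hiD] at i2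
      have i3 := rig_integral_deriv_le (asm_Lq_mono h.toSBVData hR) hs0
        (by linarith : s ≤ 2 * s) hs2 (f := deriv (Lq Ω u a)) hiL
        (Eventually.of_forall fun x => le_rfl)
      have i4 : Y * (∫ x in s..2 * s, deriv (Lq Ω u a) x) ≤
          Y * (Lq Ω u a (2 * s) - Lq Ω u a s) := mul_le_mul_of_nonneg_left i3 hY0
      simp only [hM]
      nlinarith
    have hM2 : M (2 * s) - M s ≤ 2 * s / 1000 := by
      have e1 := hE' (2 * s) h2sm
      have e2 := asm_Dq_nonneg (g := g) (a := a) (2 * s)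
      have e3 := hM0' s hsm
      linarith
    have hD0 := asm_Dq_nonneg (g := g) (a := a) s
    have e5 : Y * (M (2 * s) - M s) ≤ Y * (2 * s / 1000) := mul_le_mul_of_nonneg_left hM2 hY0
    have e6 : s * (998 / 1000 * Y) ≤ s * (252 / 100 * Dq g a (2 * s)) := by
      nlinarith [mul_nonneg hs0.le hD0]
    have e7 := le_of_mul_le_mul_left e6 hs0
    have e8 := asm_Dq_nonneg (g := g) (a := a) (2 * s)
    linarith
  intro s t hs0 hst ht
  have ht0 : 0 < t := hs0.trans_le hst
  have hsR : s ∈ Ioo 0 R := ⟨hs0, by linarith⟩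
  have htR : t ∈ Ioo 0 R := ⟨ht0, by linarith⟩
  have e1 := hgr s t hs0 hst htR.2
  have e2 := hexc t ht0 ht
  have e3 := asm_Dq_nonneg (g := g) (a := a) s
  have e4 := hM0' s hsR
  have e5 := hM0' t htR
  have e6 : (1 : ℝ) / (10 / 11) = 11 / 10 := by norm_num
  rw [e6] at e1
  have e7 : 0 ≤ (s / t) ^ (11 / 10 : ℝ) := by positivity
  have e8 : F t ≤ 3 * Dq g a (2 * t) := by
    simp only [hF]
    linarith
  have e9 : F s ≤ (s / t) ^ (11 / 10 : ℝ) * (3 * Dq g a (2 * t)) :=
    e1.trans (mul_le_mul_of_nonneg_left e8 e7)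
  have e10 : Dq g a s + M s ≤ 2 * F s := by simp only [hF]; linarith
  calc Dq g a s + (Lq Ω u a s - n * s) = Dq g a s + M s := rfl
    _ ≤ 2 * F s := e10
    _ ≤ 2 * ((s / t) ^ (11 / 10 : ℝ) * (3 * Dq g a (2 * t))) := by linarith
    _ = _ := by ring

end

end Pool.Agent.MP099f24
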