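import Mathlib
import Pool.Agent.Lib.MP_099f24_an.RG.Ode
import Pool.Agent.Lib.MP_099f24_an.RG.Metric
import Pool.Agent.Lib.MP_099f24_an.RG.Arc

/-!
# MP_099f24_an, PART R, module RFLAT: scale invariant decay of the flatness
-/

namespace Pool.Agent.MP099f24

open MeasureTheory Filter Topology Set Metric
open scoped ENNReal ContDiff ComplexConjugate

/-- the measure of `K` in balls and `Lq` -/
theorem rg_Lq {Ω : Set ℂ} {u : ℂ → ℝ} {g j : ℂ → ℂ} (h : MSMin Ω u g j) {a : ℂ} {s : ℝ}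
    (hs : closedBall a s ⊆ Ω) :
    (μH[1] : Measure ℂ) (closure (discSet Ω u) ∩ ball a s) = ENNReal.ofReal (Lq Ω u a s) := by
  have h1 : (μH[1] : Measure ℂ) (closure (discSet Ω u) ∩ ball a s) =
      (μH[1] : Measure ℂ) (discSet Ω u ∩ ball a s) := by
    refine le_antisymm ?_ (measure_mono (inter_subset_inter_left _ subset_closure))
    have hsub : closure (discSet Ω u) ∩ ball a s ⊆
        (discSet Ω u ∩ ball a s) ∪ ((Ω ∩ closure (discSet Ω u)) \ discSet Ω u) := by
      rintro x ⟨hx, hxs⟩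
      by_cases hxd : x ∈ discSet Ω u
      · exact Or.inl ⟨hxd, hxs⟩
      · exact Or.inr ⟨⟨hs (ball_subset_closedBall hxs), hx⟩, hxd⟩
    refine (measure_mono hsub).trans ((measure_union_le _ _).trans ?_)
    rw [ea_clos h, add_zero]
  have h2 : (μH[1] : Measure ℂ) (discSet Ω u ∩ ball a s) ≠ ⊤ :=
    ((measure_mono (inter_subset_inter_right _ ball_subset_closedBall)).trans_lt
      (h.fin_S _ (isCompact_closedBall a s) hs)).ne
  rw [h1, Lq, ENNReal.ofReal_toReal h2]

theorem rgflat_mono {K : Set ℂ} {x : ℂ} {r ε ε' : ℝ} (hr : 0 ≤ r) (hε : ε ≤ ε')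
    (h : FlatAt K x r ε) : FlatAt K x r ε' := by
  obtain ⟨e, he, h1, h2⟩ := h
  have h3 : ε * r ≤ ε' * r := mul_le_mul_of_nonneg_right hε hr
  refine ⟨e, he, fun y hy hyx => (h1 y hy hyx).trans h3, fun t ht => ?_⟩
  obtain ⟨y, hy, hyt⟩ := h2 t ht
  exact ⟨y, hy, hyt.trans h3⟩

/-- two balanced points on each small circle of a flat region -/
theorem rgflat_pair {K : Set ℂ} (hK : IsClosed K) {x₀ : ℂ} {R : ℝ}
    (hF : FlatReg K x₀ R (1 / 10000)) {a : ℂ} (ha : a ∈ K) {s : ℝ} (hs : 0 < s)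
    (has : ‖a - x₀‖ + 4 * s ≤ R) :
    ∃ p : Fin 2 → ℂ, p 0 ≠ p 1 ∧ (∀ i, p i ∈ K ∧ ‖p i - a‖ = s) ∧
      ‖∑ i, (p i - a)‖ ≤ (2 : ℕ) * s / 50 := by
  obtain ⟨e, he⟩ := hF a ha (by linarith) (4 * s) (by positivity)
    (by linarith [norm_nonneg (a - x₀)])
  obtain ⟨⟨p, hp, hps, hp0⟩, ⟨q, hq, hqs, hq0⟩⟩ := rg_cross hK (by norm_num) hF ha has he hs
    le_rfl (by linarith)
  refine ⟨![p, q], ?_, ?_, ?_⟩
  · simp only [Matrix.cons_val_zero, Matrix.cons_val_one]
    rintro rfl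
    linarith
  · intro i
    fin_cases i
    · exact ⟨hp, hps⟩
    · exact ⟨hq, hqs⟩
  · simp only [Fin.sum_univ_two, Matrix.cons_val_zero, Matrix.cons_val_one]
    obtain ⟨he1, hi, -⟩ := he
    have ip := hi p hp (by rw [hps]; linarith)
    have iq := hi q hq (by rw [hqs]; linarith)
    have sp := rgchain_sq (z := p - a) he1
    have sq := rgchain_sq (z := q - a) he1
    rw [hps] at sp
    rw [hqs] at sq
    set rp := ((p - a) * conj e).re
    set rq := ((q - a) * conj e).re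
    set mp := ((p - a) * conj e).im
    set mq := ((q - a) * conj e).im
    have hmp : |mp| ≤ s / 2500 := by linarith
    have hmq : |mq| ≤ s / 2500 := by linarith
    have hmp2 : mp ^ 2 ≤ (s / 2500) ^ 2 := by
      rw [← sq_abs mp]; exact pow_le_pow_left₀ (abs_nonneg _) hmp 2
    have hmq2 : mq ^ 2 ≤ (s / 2500) ^ 2 := by
      rw [← sq_abs mq]; exact pow_le_pow_left₀ (abs_nonneg _) hmq 2
    have hrp1 : rp ≤ s := by nlinarith
    have hrq1 : -s ≤ rq := by nlinarith
    have hrp2 : 999 / 1000 * s ≤ rp := by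
      by_contra hcon
      push Not at hcon
      nlinarith
    have hrq2 : rq ≤ -(999 / 1000 * s) := by
      by_contra hcon
      push Not at hcon
      nlinarith
    have key := rgchain_dist (z := (p - a) + (q - a)) he1 0
    have e1 : (((p - a) + (q - a)) * conj e).re = rp + rq := by
      rw [add_mul, Complex.add_re]
    have e2 : (((p - a) + (q - a)) * conj e).im = mp + mq := by
      rw [add_mul, Complex.add_im]
    rw [e1, e2, sub_zero, Complex.ofReal_zero, zero_mul, sub_zero] at key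
    have k1 : |rp + rq| ≤ s / 1000 := by
      rw [abs_le]; constructor <;> linarith
    have k2 : |mp + mq| ≤ s / 1250 := by
      refine (abs_add_le _ _).trans ?_
      linarith
    push_cast
    linarith

/-- Scale invariant decay of the flatness. -/
theorem rg_flat {Ω : Set ℂ} {u : ℂ → ℝ} {g j : ℂ → ℂ} (h : MSMin Ω u g j) {x₀ : ℂ} {R : ℝ}
    (hR0 : 0 < R) (hR : closedBall x₀ (2 * R) ⊆ Ω) (hx₀ : x₀ ∈ closure (discSet Ω u))
    (hF : FlatReg (closure (discSet Ω u)) x₀ R (1 / 10000))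
    (hE : ∀ x ∈ closure (discSet Ω u), ‖x - x₀‖ ≤ R → ∀ r : ℝ, 0 < r → r ≤ R →
      Dq g x r + Lq Ω u x r ≤ (2 + 1 / 1000) * r) :
    ∀ r : ℝ, 0 < r → r ≤ R / 1000 → FlatAt (closure (discSet Ω u)) x₀ r
      (1000 * Real.sqrt (Dq g x₀ R / R) * (r / R) ^ (1 / 20 : ℝ)) := by
  intro r hr hrR
  set K := closure (discSet Ω u) with hK
  set D := Dq g x₀ R with hD
  have hD0 : 0 ≤ D := asm_Dq_nonneg R
  set η : ℝ := 6 * (110 * r / R) ^ (11 / 10 : ℝ) * D with hη
  have hη0 : 0 ≤ η := by positivity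
  -- decay at the points `a`
  have hmain : ∀ a ∈ K, ‖a - x₀‖ ≤ 4 * r → ∀ s : ℝ, 0 < s → s ≤ 10 * r →
      2 * s ≤ Lq Ω u a s ∧ Lq Ω u a s ≤ 2 * s + η := by
    intro a ha hax s hs hsr
    have hballΩ : ball a (R / 5) ⊆ Ω := by
      refine Subset.trans ?_ hR
      intro z hz
      have e1 := mem_ball.1 hz
      have e2 := dist_triangle z a x₀
      rw [dist_eq_norm a x₀] at e2
      rw [mem_closedBall]
      linarith
    have hpair : ∀ s ∈ Ioo 0 (R / 5), ∃ p : Fin 2 → ℂ, p 0 ≠ p 1 ∧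
        (∀ i, p i ∈ K ∧ ‖p i - a‖ = s) ∧ ‖∑ i, (p i - a)‖ ≤ (2 : ℕ) * s / 50 :=
      fun s hs => rgflat_pair isClosed_closure hF ha hs.1 (by linarith [hs.2])
    obtain ⟨d1, d2⟩ := rg_decay (a := a) (R := R / 5) (n := 2) h hballΩ two_pos
      (by
        filter_upwards [ae_restrict_mem measurableSet_Ioo] with s hs
        obtain ⟨p, hp1, hp2, -⟩ := hpair s hs
        have hsub : {p 0, p 1} ⊆ closure (discSet Ω u) ∩ sphere a s := by
          rintro z (rfl | rfl)
          · exact ⟨(hp2 0).1, by rw [mem_sphere, dist_eq_norm]; exact (hp2 0).2⟩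
          · exact ⟨(hp2 1).1, by rw [mem_sphere, dist_eq_norm]; exact (hp2 1).2⟩
        refine le_trans ?_ (encard_le_encard hsub)
        rw [encard_pair hp1]
        norm_num)
      (by
        filter_upwards [ae_restrict_mem measurableSet_Ioo] with s hs
        obtain ⟨p, hp1, hp2, hp3⟩ := hpair s hs
        exact rg_arc hs.1 p two_pos hp2 hp3)
      (by
        intro s hs
        have := hE a ha (by linarith) s hs.1 (by linarith [hs.2])
        push_cast
        exact this)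
    have hsR : s ∈ Ioo 0 (R / 5) := ⟨hs, by linarith⟩
    refine ⟨by have := d1 s hsR; push_cast at this; exact this, ?_⟩
    have e1 := d2 s (R / 11) hs (by linarith) (by linarith)
    have e2 : Dq g a (2 * (R / 11)) ≤ D := by
      have hball : ball x₀ (2 * R) ⊆ Ω := ball_subset_closedBall.trans hR
      exact asm_Dq_le h.toSBVData hball (by linarith) (by rw [dist_eq_norm]; linarith)
    have e3 : 6 * (s / (R / 11)) ^ (11 / 10 : ℝ) * Dq g a (2 * (R / 11)) ≤ η := by
      have e4 : s / (R / 11) ≤ 110 * r / R := by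
        rw [div_div_eq_mul_div]
        exact div_le_div_of_nonneg_right (by linarith) hR0.le
      have e5 : (s / (R / 11)) ^ (11 / 10 : ℝ) ≤ (110 * r / R) ^ (11 / 10 : ℝ) :=
        Real.rpow_le_rpow (by positivity) e4 (by norm_num)
      have e6 : 0 ≤ (s / (R / 11)) ^ (11 / 10 : ℝ) := by positivity
      have e7 := asm_Dq_nonneg (g := g) (a := a) (2 * (R / 11))
      rw [hη]
      gcongr
    have e8 := asm_Dq_nonneg (g := g) (a := a) s
    push_cast at e1
    linarith
  have hball : ∀ a, ‖a - x₀‖ ≤ 4 * r → ∀ s : ℝ, s ≤ 10 * r → closedBall a s ⊆ Ω := by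
    intro a ha s hs
    refine Subset.trans ?_ hR
    intro z hz
    have e1 := mem_closedBall.1 hz
    have e2 := dist_triangle z a x₀
    rw [dist_eq_norm a x₀] at e2
    rw [mem_closedBall]
    linarith
  have hmet := rg_metric (K := K) isClosed_closure (x₀ := x₀) (R := R) (δ := 1 / 10000) le_rfl hF
    hx₀ hr (by rw [sub_self, norm_zero]; linarith) hη0
    (fun a ha hax s hs hsr => by
      rw [hK, rg_Lq h (hball a hax s hsr)]
      exact ENNReal.ofReal_le_ofReal (hmain a ha hax s hs hsr).1)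
    (fun a ha hax s hs hsr => by
      rw [hK, rg_Lq h (hball a hax s hsr)]
      exact ENNReal.ofReal_le_ofReal (hmain a ha hax s hs hsr).2)
  refine rgflat_mono hr.le ?_ hmet
  -- numerics
  have hq0 : 0 < r / R := by positivity
  have e1 : η / r = 6 * 110 ^ (11 / 10 : ℝ) * (r / R) ^ (1 / 10 : ℝ) * (D / R) := by
    have e2 : (110 * r / R) ^ (11 / 10 : ℝ) = 110 ^ (11 / 10 : ℝ) * (r / R) ^ (11 / 10 : ℝ) := by
      rw [mul_div_assoc, Real.mul_rpow (by norm_num) hq0.le]
    have e3 : (r / R) ^ (11 / 10 : ℝ) = (r / R) ^ (1 / 10 : ℝ) * (r / R) := by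
      rw [← Real.rpow_add_one hq0.ne']
      norm_num
    rw [hη, e2, e3]
    field_simp
  have e2 : (110 : ℝ) ^ (11 / 10 : ℝ) ≤ 220 := by
    have e3 : (110 : ℝ) ^ (11 / 10 : ℝ) = 110 ^ (1 / 10 : ℝ) * 110 := by
      rw [← Real.rpow_add_one (by norm_num)]
      norm_num
    have e4 : (110 : ℝ) ^ (1 / 10 : ℝ) ≤ 2 := by
      have e5 : (110 : ℝ) ^ (1 / 10 : ℝ) ≤ (2 ^ (10 : ℕ)) ^ (1 / 10 : ℝ) :=
        Real.rpow_le_rpow (by norm_num) (by norm_num) (by norm_num)
      rw [← Real.rpow_natCast, ← Real.rpow_mul (by norm_num)] at e5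
      norm_num at e5
      exact e5
    rw [e3]
    linarith
  have e3 : (r / R) ^ (1 / 20 : ℝ) = Real.sqrt ((r / R) ^ (1 / 10 : ℝ)) := by
    rw [Real.sqrt_eq_rpow, ← Real.rpow_mul hq0.le]
    norm_num
  have e4 : 1000 * Real.sqrt (D / R) * (r / R) ^ (1 / 20 : ℝ) =
      Real.sqrt (1000 ^ 2 * ((D / R) * (r / R) ^ (1 / 10 : ℝ))) := by
    rw [e3, Real.sqrt_mul (by norm_num), Real.sqrt_mul (by positivity),
      Real.sqrt_sq (by norm_num)]
    ring
  have e5 : 20 * Real.sqrt (η / r) = Real.sqrt (20 ^ 2 * (η / r)) := by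
    rw [Real.sqrt_mul (by norm_num), Real.sqrt_sq (by norm_num)]
  rw [e4, e5]
  refine Real.sqrt_le_sqrt ?_
  rw [e1]
  have e6 : 0 ≤ (r / R) ^ (1 / 10 : ℝ) * (D / R) := by positivity
  nlinarith

end Pool.Agent.MP099f24
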