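import Mathlib
import Pool.Agent.Lib.MP_099f24_an.RG.Flat
import Pool.Agent.Lib.MP_099f24_an.LF.Reg

/-!
# MP_099f24_an, PART R: regular points and tips of minimizers
-/

namespace Pool.Agent.MP099f24

open MeasureTheory Filter Topology Set Metric
open scoped ENNReal ContDiff ComplexConjugate

section

variable {Ω : Set ℂ} {u : ℂ → ℝ} {g j : ℂ → ℂ}

/-- In a flat region the length in discs is at least the diameter. -/
theorem rg_len (h : MSMin Ω u g j) {x₀ : ℂ} {R : ℝ} (hR0 : 0 < R)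
    (hR : closedBall x₀ (2 * R) ⊆ Ω) (hx₀ : x₀ ∈ closure (discSet Ω u))
    (hF : FlatReg (closure (discSet Ω u)) x₀ R (1 / 10000))
    (hE : ∀ x ∈ closure (discSet Ω u), ‖x - x₀‖ ≤ R → ∀ r : ℝ, 0 < r → r ≤ R →
      Dq g x r + Lq Ω u x r ≤ (2 + 1 / 1000) * r) {s : ℝ} (hs : 0 < s) (hsR : s < R / 5) :
    2 * s ≤ Lq Ω u x₀ s := by
  have hballΩ : ball x₀ (R / 5) ⊆ Ω := by
    refine Subset.trans ?_ hR
    exact (ball_subset_ball (by linarith)).trans ball_subset_closedBall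
  have hpair : ∀ s ∈ Ioo 0 (R / 5), ∃ p : Fin 2 → ℂ, p 0 ≠ p 1 ∧
      (∀ i, p i ∈ closure (discSet Ω u) ∧ ‖p i - x₀‖ = s) ∧
      ‖∑ i, (p i - x₀)‖ ≤ (2 : ℕ) * s / 50 :=
    fun s hs => rgflat_pair isClosed_closure hF hx₀ hs.1
      (by rw [sub_self, norm_zero]; linarith [hs.2])
  obtain ⟨d1, -⟩ := rg_decay (a := x₀) (R := R / 5) (n := 2) h hballΩ two_pos
    (by
      filter_upwards [ae_restrict_mem measurableSet_Ioo] with s hs
      obtain ⟨p, hp1, hp2, -⟩ := hpair s hs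
      have hsub : {p 0, p 1} ⊆ closure (discSet Ω u) ∩ sphere x₀ s := by
        rintro z (rfl | rfl)
        · exact ⟨(hp2 0).1, by rw [mem_sphere, dist_eq_norm]; exact (hp2 0).2⟩
        · exact ⟨(hp2 1).1, by rw [mem_sphere, dist_eq_norm]; exact (hp2 1).2⟩
      refine le_trans ?_ (encard_le_encard hsub)
      rw [encard_pair hp1]
      norm_num)
    (by
      filter_upwards [ae_restrict_mem measurableSet_Ioo] with s hs
      obtain ⟨p, hp1, hp2, hp3⟩ := hpair s hs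
      exact rg_arc hs.1 p two_pos hp2 hp3)
    (by
      intro s hs
      have := hE x₀ hx₀ (by rw [sub_self, norm_zero]; exact hR0.le) s hs.1 (by linarith [hs.2])
      push_cast
      exact this)
  have := d1 s ⟨hs, hsR⟩
  push_cast at this
  exact this

/-- **Regular points.** -/
theorem rg_reg (h : MSMin Ω u g j) {x₀ : ℂ} (hxΩ : x₀ ∈ Ω) (hx₀ : x₀ ∈ closure (discSet Ω u))
    (H : ∀ δ : ℝ, 0 < δ → ∃ r₁ : ℝ, 0 < r₁ ∧ ∀ x ∈ closure (discSet Ω u), ‖x - x₀‖ < r₁ →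
      ∀ r : ℝ, 0 < r → r < r₁ → FlatAt (closure (discSet Ω u)) x r δ ∧
        Dq g x r + Lq Ω u x r ≤ (2 + δ) * r) :
    IsRegPt (closure (discSet Ω u)) x₀ := by
  obtain ⟨r₁, hr₁, H1⟩ := H (1 / 10000) (by norm_num)
  obtain ⟨ρ, hρ, hρΩ⟩ := Metric.isOpen_iff.1 h.isOpen x₀ hxΩ
  obtain ⟨R, hR0, hR1, hR2⟩ : ∃ R : ℝ, 0 < R ∧ 2 * R < r₁ ∧ 3 * R < ρ :=
    ⟨min (r₁ / 4) (ρ / 4), by positivity, by linarith [min_le_left (r₁ / 4) (ρ / 4)],
      by linarith [min_le_right (r₁ / 4) (ρ / 4)]⟩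
  set K := closure (discSet Ω u) with hK
  set D := Dq g x₀ (2 * R) with hD
  have hball : ball x₀ (3 * R) ⊆ Ω := (ball_subset_ball hR2.le).trans hρΩ
  refine lf_regPt (r₀ := R / 1000) (C₀ := 1000 * Real.sqrt (D / R) / R ^ (1 / 20 : ℝ))
    (α := 1 / 20) (by positivity) (by positivity) (by norm_num)
    (isClosed_closure.inter isClosed_closedBall) hx₀ ?_
  intro x hx hxx r hr hrR
  have hxR : ‖x - x₀‖ ≤ R := by linarith
  have hcb : closedBall x (2 * R) ⊆ Ω := by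
    refine Subset.trans ?_ hρΩ
    intro z hz
    have e1 := mem_closedBall.1 hz
    have e2 := dist_triangle z x x₀
    rw [dist_eq_norm x x₀] at e2
    rw [mem_ball]
    linarith
  have hnear : ∀ y : ℂ, ‖y - x‖ ≤ R → ‖y - x₀‖ < r₁ := by
    intro y hy
    have : y - x₀ = (y - x) + (x - x₀) := by ring
    rw [this]
    refine (norm_add_le _ _).trans_lt ?_
    linarith
  have hfl := rg_flat h hR0 hcb hx
    (fun y hy hyx s hs hsR => (H1 y hy (hnear y hyx) s hs (by linarith)).1)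
    (fun y hy hyx s hs hsR => by
      have := (H1 y hy (hnear y hyx) s hs (by linarith)).2
      nlinarith) r hr hrR
  refine rgflat_mono hr.le ?_ hfl
  have e1 : Dq g x R ≤ D := by
    refine asm_Dq_le h.toSBVData hball (by linarith) ?_
    rw [dist_eq_norm]
    linarith
  have e2 : Real.sqrt (Dq g x R / R) ≤ Real.sqrt (D / R) :=
    Real.sqrt_le_sqrt (div_le_div_of_nonneg_right e1 hR0.le)
  have e3 : (r / R) ^ (1 / 20 : ℝ) = r ^ (1 / 20 : ℝ) / R ^ (1 / 20 : ℝ) :=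
    Real.div_rpow hr.le hR0.le _
  rw [e3]
  have e4 : 0 ≤ r ^ (1 / 20 : ℝ) / R ^ (1 / 20 : ℝ) := by positivity
  calc 1000 * Real.sqrt (Dq g x R / R) * (r ^ (1 / 20 : ℝ) / R ^ (1 / 20 : ℝ)) ≤
        1000 * Real.sqrt (D / R) * (r ^ (1 / 20 : ℝ) / R ^ (1 / 20 : ℝ)) := by gcongr
    _ = _ := by ring

/-- the flat regions around the points `x ≠ p` near a special point `p` -/
theorem rgfin_near (h : MSMin Ω u g j) {p : ℂ} (hpΩ : p ∈ Ω) {δ : ℝ} (hδ0 : 0 < δ)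
    (hδ : δ ≤ 1 / 10000)
    (H2 : ∃ c : ℝ, 0 < c ∧ ∃ r₁ : ℝ, 0 < r₁ ∧ ∀ x ∈ closure (discSet Ω u), x ≠ p →
      ‖x - p‖ < r₁ → ∀ r : ℝ, 0 < r → r ≤ c * ‖x - p‖ →
        FlatAt (closure (discSet Ω u)) x r δ ∧ Dq g x r + Lq Ω u x r ≤ (2 + δ) * r) :
    ∃ c : ℝ, 0 < c ∧ c ≤ 1 / 100 ∧ ∃ r₁ : ℝ, 0 < r₁ ∧ ball p (2 * r₁) ⊆ Ω ∧
      ∀ x ∈ closure (discSet Ω u), x ≠ p → ‖x - p‖ ≤ r₁ →
      closedBall x (2 * (c * ‖x - p‖)) ⊆ Ω ∧
      FlatReg (closure (discSet Ω u)) x (c * ‖x - p‖) (1 / 10000) ∧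
      (∀ y ∈ closure (discSet Ω u), ‖y - x‖ ≤ c * ‖x - p‖ → ∀ r : ℝ, 0 < r → r ≤ c * ‖x - p‖ →
        Dq g y r + Lq Ω u y r ≤ (2 + 1 / 1000) * r) ∧
      ∀ r : ℝ, 0 < r → r ≤ c * ‖x - p‖ → FlatAt (closure (discSet Ω u)) x r (1 / 10000) ∧
        Dq g x r + Lq Ω u x r ≤ (2 + δ) * r := by
  obtain ⟨c, hc, r₁, hr₁, H⟩ := H2
  obtain ⟨ρ, hρ, hρΩ⟩ := Metric.isOpen_iff.1 h.isOpen p hpΩ
  set c' := min (c / 2) (1 / 100) with hc'
  have hc'0 : 0 < c' := lt_min (by positivity) (by norm_num)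
  have hc'1 : c' ≤ 1 / 100 := min_le_right _ _
  have hc'c : c' ≤ c / 2 := min_le_left _ _
  set r₂ := min (r₁ / 2) (ρ / 2) with hr₂
  have hr₂0 : 0 < r₂ := lt_min (by positivity) (by positivity)
  have hr₂1 : r₂ ≤ r₁ / 2 := min_le_left _ _
  have hr₂ρ : r₂ ≤ ρ / 2 := min_le_right _ _
  refine ⟨c', hc'0, hc'1, r₂, hr₂0, (ball_subset_ball (by linarith)).trans hρΩ, ?_⟩
  intro x hx hxp hxr
  set d := ‖x - p‖ with hd
  have hd0 : 0 < d := norm_pos_iff.2 (sub_ne_zero.2 hxp)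
  have hcd : c' * d ≤ d / 100 := by nlinarith
  have hy : ∀ y : ℂ, ‖y - x‖ ≤ c' * d → y ≠ p ∧ ‖y - p‖ < r₁ ∧ c' * d ≤ c * ‖y - p‖ := by
    intro y hy
    have e1 : x - p = (y - p) - (y - x) := by ring
    have e2 : d ≤ ‖y - p‖ + ‖y - x‖ := by
      rw [hd, e1]
      exact norm_sub_le _ _
    have e3 : d / 2 ≤ ‖y - p‖ := by linarith
    have e4 : y - p = (y - x) + (x - p) := by ring
    have e5 : ‖y - p‖ ≤ ‖y - x‖ + d := by
      rw [e4]
      exact norm_add_le _ _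
    refine ⟨?_, by linarith, by nlinarith⟩
    rintro rfl
    rw [sub_self, norm_zero] at e3
    linarith
  refine ⟨?_, ?_, ?_, ?_⟩
  · refine Subset.trans ?_ hρΩ
    intro z hz
    have e1 := mem_closedBall.1 hz
    have e2 := dist_triangle z x p
    rw [dist_eq_norm x p] at e2
    rw [mem_ball]
    linarith
  · intro y hyK hyx r hr hrc
    obtain ⟨h1, h2, h3⟩ := hy y hyx
    exact rgflat_mono hr.le hδ (H y hyK h1 h2 r hr (by linarith)).1
  · intro y hyK hyx r hr hrc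
    obtain ⟨h1, h2, h3⟩ := hy y hyx
    have := (H y hyK h1 h2 r hr (by linarith)).2
    nlinarith
  · intro r hr hrc
    have := H x hx hxp (by linarith) r hr (by nlinarith)
    exact ⟨rgflat_mono hr.le hδ this.1, this.2⟩

/-- **Tips.** -/
theorem rg_tip (h : MSMin Ω u g j) {p : ℂ} (hpΩ : p ∈ Ω) (hp : p ∈ closure (discSet Ω u))
    (H1 : ∀ δ : ℝ, 0 < δ → ∃ r₁ : ℝ, 0 < r₁ ∧ ∀ r : ℝ, 0 < r → r < r₁ →
      ∃ e, RayDir (closure (discSet Ω u)) p r δ e)
    (H2 : ∀ δ : ℝ, 0 < δ → ∃ c : ℝ, 0 < c ∧ ∃ r₁ : ℝ, 0 < r₁ ∧ ∀ x ∈ closure (discSet Ω u),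
      x ≠ p → ‖x - p‖ < r₁ → ∀ r : ℝ, 0 < r → r ≤ c * ‖x - p‖ →
        FlatAt (closure (discSet Ω u)) x r δ ∧ Dq g x r + Lq Ω u x r ≤ (2 + δ) * r) :
    IsTip (closure (discSet Ω u)) p := by
  set K := closure (discSet Ω u) with hK
  set q : ℝ := (1 / 2 : ℝ) ^ (1 / 20 : ℝ) with hq
  have hq0 : 0 < q := by positivity
  have hq1 : q < 1 := Real.rpow_lt_one (by norm_num) (by norm_num) (by norm_num)
  set δ₁ : ℝ := (1 - q) / 600 with hδ₁
  have hδ₁0 : 0 < δ₁ := by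
    rw [hδ₁]
    have : 0 < 1 - q := by linarith
    positivity
  set δ : ℝ := min (1 / 10000) ((δ₁ / 1000) ^ 2) with hδ
  have hδ0 : 0 < δ := lt_min (by norm_num) (by positivity)
  have hδa : δ ≤ 1 / 10000 := min_le_left _ _
  have hδb : δ ≤ (δ₁ / 1000) ^ 2 := min_le_right _ _
  obtain ⟨c, hc0, hc1, r₁, hr₁, hb, hN⟩ := rgfin_near h hpΩ hδ0 hδa (H2 δ hδ0)
  obtain ⟨r₂, hr₂, H1'⟩ := H1 (c / 8000 / 4000) (by positivity)
  have hmin : 0 < min r₁ (r₂ / 2) := lt_min hr₁ (by positivity)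
  refine lf_tip (r₀ := min r₁ (r₂ / 2)) (c := c / 8000) (ε := c / 8000 / 4000) (δ := δ₁) (q := q)
    hmin (by positivity) (by linarith) hq0 hq1 hδ₁0.le (by rw [hδ₁]; linarith) (by positivity)
    (by linarith) (isClosed_closure.inter isClosed_closedBall) hp ?_ ?_
  · intro r hr hrr
    exact H1' r hr (by linarith [min_le_right r₁ (r₂ / 2)])
  · intro x hx hxp hxr k
    obtain ⟨n1, n2, n3, n4⟩ := hN x hx hxp (hxr.trans (min_le_left _ _))
    set d := ‖x - p‖ with hd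
    have hd0 : 0 < d := norm_pos_iff.2 (sub_ne_zero.2 hxp)
    set R : ℝ := c * d / 8 with hR
    have hR0 : 0 < R := by positivity
    have hRc : R ≤ c * d := by rw [hR]; nlinarith [mul_pos hc0 hd0]
    have hfl := rg_flat h (x₀ := x) (R := R) hR0
      ((closedBall_subset_closedBall (by linarith)).trans n1) hx
      (fun y hy hyx s hs hsR => n2 y hy (by linarith) s hs (by linarith))
      (fun y hy hyx s hs hsR => n3 y hy (by linarith) s hs (by linarith))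
      (c / 8000 * d / 2 ^ k) (by positivity) (by
        have e1 : c / 8000 * d / 2 ^ k ≤ c / 8000 * d :=
          div_le_self (by positivity) (one_le_pow₀ (by norm_num))
        rw [hR]
        linarith)
    refine rgflat_mono (by positivity) ?_ hfl
    -- the Dirichlet energy
    have e1 : 2 * R ≤ Lq Ω u x R :=
      rg_len h (x₀ := x) (R := c * d) (by positivity) n1 hx n2 n3 hR0 (by
        rw [hR]
        have : 0 < c * d := by positivity
        linarith)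
    have e2 := (n4 R hR0 hRc).2
    have e3 : Dq g x R / R ≤ δ := by
      rw [div_le_iff₀ hR0]
      linarith
    have e4 : 1000 * Real.sqrt (Dq g x R / R) ≤ δ₁ := by
      have e5 : Real.sqrt (Dq g x R / R) ≤ δ₁ / 1000 := by
        rw [Real.sqrt_le_left (by positivity)]
        exact e3.trans hδb
      linarith
    have e5 : (c / 8000 * d / 2 ^ k / R) ^ (1 / 20 : ℝ) ≤ q ^ k := by
      have e6 : c / 8000 * d / 2 ^ k / R ≤ (1 / 2 : ℝ) ^ k := by
        have e7 : c / 8000 * d / 2 ^ k / R = 1 / 1000 * (1 / 2 : ℝ) ^ k := by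
          rw [hR, one_div_pow]
          field_simp
          norm_num
        rw [e7]
        have : 0 < (1 / 2 : ℝ) ^ k := by positivity
        linarith
      refine (Real.rpow_le_rpow (by positivity) e6 (by norm_num)).trans (le_of_eq ?_)
      rw [hq, ← Real.rpow_natCast, ← Real.rpow_natCast, ← Real.rpow_mul (by norm_num),
        ← Real.rpow_mul (by norm_num), mul_comm]
    have e6 : 0 ≤ (c / 8000 * d / 2 ^ k / R) ^ (1 / 20 : ℝ) := by positivity
    exact mul_le_mul e4 e5 e6 hδ₁0.le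

end

end Pool.Agent.MP099f24
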