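import Mathlib
import Pool.Agent.Lib.MP_099f24_an.RG.Chain

/-!
# Crossing at a triple point
-/

set_option autoImplicit false

namespace Pool.Agent.MP099f24

open MeasureTheory Filter Topology Set Metric
open scoped ENNReal ContDiff ComplexConjugate

theorem rg_tri_om3_re : om3.re = -1 / 2 := by
  have h : om3 = Complex.exp (((2 * Real.pi / 3 : ℝ) : ℂ) * Complex.I) := by
    unfold om3
    push_cast
    rfl
  rw [h, Complex.exp_ofReal_mul_I_re]
  have : 2 * Real.pi / 3 = Real.pi - Real.pi / 3 := by ring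
  rw [this, Real.cos_pi_sub, Real.cos_pi_div_three]
  norm_num

theorem rg_tri_om3_im : om3.im = √3 / 2 := by
  have h : om3 = Complex.exp (((2 * Real.pi / 3 : ℝ) : ℂ) * Complex.I) := by
    unfold om3
    push_cast
    rfl
  rw [h, Complex.exp_ofReal_mul_I_im]
  have : 2 * Real.pi / 3 = Real.pi - Real.pi / 3 := by ring
  rw [this, Real.sin_pi_sub, Real.sin_pi_div_three]

theorem rg_tri_om3_norm : ‖om3‖ = 1 := by
  have h : om3 = Complex.exp (((2 * Real.pi / 3 : ℝ) : ℂ) * Complex.I) := by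
    unfold om3
    push_cast
    rfl
  rw [h, Complex.norm_exp_ofReal_mul_I]

theorem rg_tri_sum : 1 + om3 + om3 ^ 2 = 0 := by
  have h3 : √3 * √3 = 3 := Real.mul_self_sqrt (by norm_num)
  apply Complex.ext
  · rw [pow_two]
    simp only [Complex.add_re, Complex.one_re, Complex.mul_re, rg_tri_om3_re, rg_tri_om3_im,
      Complex.zero_re]
    nlinarith
  · rw [pow_two]
    simp only [Complex.add_im, Complex.one_im, Complex.mul_im, rg_tri_om3_re, rg_tri_om3_im,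
      Complex.zero_im]
    ring

theorem rg_tri_re (i j : Fin 3) (hij : i ≠ j) :
    (om3 ^ (i : ℕ) * conj (om3 ^ (j : ℕ))).re = -1 / 2 := by
  have h3 : √3 * √3 = 3 := Real.mul_self_sqrt (by norm_num)
  fin_cases i <;> fin_cases j <;>
    first
    | exact absurd rfl hij
    | (simp only [pow_zero, pow_one, pow_two, map_one, map_mul, Complex.mul_re, Complex.mul_im,
        Complex.conj_re, Complex.conj_im, Complex.one_re, Complex.one_im, rg_tri_om3_re,
        rg_tri_om3_im]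
       nlinarith)

theorem rg_tri_norm_pow (i : ℕ) {e : ℂ} (he : ‖e‖ = 1) : ‖om3 ^ i * e‖ = 1 := by
  rw [norm_mul, norm_pow, rg_tri_om3_norm, he]
  norm_num

theorem rg_tri_dist {e : ℂ} (he : ‖e‖ = 1) {i j : Fin 3} (hij : i ≠ j) {t τ : ℝ} (ht : 0 ≤ t)
    (hτ : 0 ≤ τ) : t ≤ ‖(t : ℂ) * (om3 ^ (i : ℕ) * e) - τ * (om3 ^ (j : ℕ) * e)‖ := by
  have h1 : ‖(t : ℂ) * (om3 ^ (i : ℕ) * e) - τ * (om3 ^ (j : ℕ) * e)‖ ^ 2 = t ^ 2 + t * τ + τ ^ 2 := by
    have e1 : (t : ℂ) * (om3 ^ (i : ℕ) * e) - τ * (om3 ^ (j : ℕ) * e) =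
        (t * om3 ^ (i : ℕ) - τ * om3 ^ (j : ℕ)) * e := by ring
    rw [e1, norm_mul, he, mul_one, Complex.sq_norm, Complex.normSq_sub]
    have e2 : ((t : ℂ) * om3 ^ (i : ℕ) * conj ((τ : ℂ) * om3 ^ (j : ℕ))).re =
        t * τ * (om3 ^ (i : ℕ) * conj (om3 ^ (j : ℕ))).re := by
      rw [map_mul, Complex.conj_ofReal]
      have : (t : ℂ) * om3 ^ (i : ℕ) * ((τ : ℂ) * conj (om3 ^ (j : ℕ))) =
          ((t * τ : ℝ) : ℂ) * (om3 ^ (i : ℕ) * conj (om3 ^ (j : ℕ))) := by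
        push_cast
        ring
      rw [this, Complex.re_ofReal_mul]
    rw [e2, rg_tri_re i j hij, map_mul, map_mul, Complex.normSq_ofReal, Complex.normSq_ofReal,
      map_pow, map_pow, Complex.normSq_eq_norm_sq, rg_tri_om3_norm]
    ring
  have h2 : t ^ 2 ≤ ‖(t : ℂ) * (om3 ^ (i : ℕ) * e) - τ * (om3 ^ (j : ℕ) * e)‖ ^ 2 := by
    rw [h1]
    nlinarith [mul_nonneg ht hτ, sq_nonneg τ]
  exact le_of_sq_le_sq h2 (norm_nonneg _)

/-- Near the point `p + t w` of the `i`-th ray, `K` is close to the line of this ray. -/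
theorem rg_tri_ray {K : Set ℂ} {p e : ℂ} {t ε : ℝ} (ht : 0 < t) (hε : ε ≤ 1 / 10)
    (h : TripodDir K p (2 * t) ε e) {i : Fin 3} {y : ℂ} (hy : y ∈ K)
    (hyi : ‖y - (p + t * (om3 ^ (i : ℕ) * e))‖ ≤ t / 2) :
    |((y - p) * conj (om3 ^ (i : ℕ) * e)).im| ≤ ε * (2 * t) := by
  obtain ⟨he, hT, -⟩ := h
  have hw : ∀ j : ℕ, ‖om3 ^ j * e‖ = 1 := fun j => rg_tri_norm_pow j he
  have hyp : ‖y - p‖ ≤ 2 * t := by
    have h1 : y - p = (y - (p + t * (om3 ^ (i : ℕ) * e))) + t * (om3 ^ (i : ℕ) * e) := by ring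
    rw [h1]
    refine (norm_add_le _ _).trans ?_
    rw [norm_mul, hw, mul_one, Complex.norm_real, Real.norm_eq_abs, abs_of_pos ht]
    linarith
  obtain ⟨j, τ, hτ, hj⟩ := hT y hy hyp
  have hji : i = j := by
    by_contra hne
    have h1 := rg_tri_dist he hne ht.le hτ
    have h2 : (t : ℂ) * (om3 ^ (i : ℕ) * e) - τ * (om3 ^ (j : ℕ) * e) =
        (y - (p + τ * (om3 ^ (j : ℕ) * e))) - (y - (p + t * (om3 ^ (i : ℕ) * e))) := by ring
    rw [h2] at h1
    have h3 := norm_sub_le (y - (p + τ * (om3 ^ (j : ℕ) * e))) (y - (p + t * (om3 ^ (i : ℕ) * e)))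
    have h4 : ε * (2 * t) ≤ 1 / 10 * (2 * t) := by
      apply mul_le_mul_of_nonneg_right hε (by linarith)
    linarith
  subst hji
  have hww : (om3 ^ (i : ℕ) * e) * conj (om3 ^ (i : ℕ) * e) = 1 := by
    rw [Complex.mul_conj, Complex.normSq_eq_norm_sq, hw]
    norm_num
  have h5 : (y - p) * conj (om3 ^ (i : ℕ) * e) =
      (y - (p + τ * (om3 ^ (i : ℕ) * e))) * conj (om3 ^ (i : ℕ) * e) + τ := by
    linear_combination (τ : ℂ) * hww
  rw [h5, Complex.add_im, Complex.ofReal_im, add_zero]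
  refine (Complex.abs_im_le_norm _).trans ?_
  rw [norm_mul, RCLike.norm_conj, hw, mul_one]
  exact hj

/-- the crossing point on the `i`-th ray -/
theorem rg_tri_one {K : Set ℂ} (hK : IsClosed K) {p e : ℂ} {r₀ c ε t : ℝ} (hc0 : 0 < c)
    (hc : c ≤ 1 / 100) (hε0 : 0 < ε) (hε : ε ≤ c / 100000) (ht : 0 < t) (htr : t ≤ r₀ / 4)
    (hT : TripodDir K p (2 * t) ε e)
    (h2 : ∀ x ∈ K, 0 < ‖x - p‖ → ‖x - p‖ ≤ r₀ → ∀ r : ℝ, 0 < r → r ≤ c * ‖x - p‖ →
      FlatAt K x r (1 / 10000)) (i : Fin 3) :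
    ∃ z ∈ K, ‖z - p‖ = t ∧ ‖z - (p + t * (om3 ^ (i : ℕ) * e))‖ ≤ t / 300 := by
  obtain ⟨he, hT1, hT2⟩ := id hT
  set w : ℂ := om3 ^ (i : ℕ) * e with hwdef
  have hw : ‖w‖ = 1 := rg_tri_norm_pow _ he
  have hww : w * conj w = 1 := by
    rw [Complex.mul_conj, Complex.normSq_eq_norm_sq, hw]
    norm_num
  obtain ⟨y, hyK, hy⟩ := hT2 i t ht.le (by linarith)
  have hεt : ε * (2 * t) ≤ c / 100000 * (2 * t) := mul_le_mul_of_nonneg_right hε (by linarith)
  set ρ : ℝ := c * t / 4 with hρ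
  have hρ0 : 0 < ρ := by positivity
  have hεt' : ε * (2 * t) ≤ 8 / 100000 * ρ := by
    rw [hρ]
    have : c / 100000 * (2 * t) = 8 / 100000 * (c * t / 4) := by ring
    linarith
  have hρt : ρ ≤ t / 400 := by
    rw [hρ]
    have : c * t ≤ 1 / 100 * t := mul_le_mul_of_nonneg_right hc ht.le
    linarith
  have hεpos : 0 < ε * (2 * t) := by positivity
  -- the point `y`
  have hyp : ∀ x : ℂ, ‖x - y‖ ≤ ρ → t / 2 ≤ ‖x - p‖ ∧ ‖x - p‖ ≤ 2 * t := by
    intro x hx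
    have h3 : x - p = (x - y) + (y - (p + t * w)) + t * w := by ring
    have h4 : ‖(t : ℂ) * w‖ = t := by
      rw [norm_mul, hw, mul_one, Complex.norm_real, Real.norm_eq_abs, abs_of_pos ht]
    have h5 : ‖(x - y) + (y - (p + t * w))‖ ≤ ρ + ε * (2 * t) :=
      (norm_add_le _ _).trans (add_le_add hx hy)
    constructor
    · have h6 : (t : ℂ) * w = (x - p) - ((x - y) + (y - (p + t * w))) := by ring
      have h7 := norm_sub_le (x - p) ((x - y) + (y - (p + t * w)))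
      rw [← h6, h4] at h7
      linarith
    · rw [h3]
      refine (norm_add_le _ _).trans ?_
      rw [h4]
      linarith
  have hFR : FlatReg K y ρ (1 / 10000) := by
    intro x hx hxy r hr hrρ
    obtain ⟨h3, h4⟩ := hyp x hxy
    refine h2 x hx (by linarith) (by linarith) r hr ?_
    have h5 : c * (t / 2) ≤ c * ‖x - p‖ := mul_le_mul_of_nonneg_left h3 hc0.le
    have h6 : ρ ≤ c * (t / 2) := by
      rw [hρ]
      have : 0 < c * t := mul_pos hc0 ht
      linarith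
    linarith
  obtain ⟨e', he', -, hF2⟩ := hFR y hyK (by rw [sub_self, norm_zero]; exact hρ0.le) ρ hρ0 le_rfl
  obtain ⟨y₁, hy₁K, hy₁⟩ := hF2 (ρ / 8) (by rw [abs_of_pos (by positivity)]; linarith)
  obtain ⟨y₂, hy₂K, hy₂⟩ := hF2 (-(ρ / 8)) (by rw [abs_neg, abs_of_pos (by positivity)]; linarith)
  have hn1 : ‖(((ρ / 8 : ℝ)) : ℂ) * e'‖ = ρ / 8 := by
    rw [norm_mul, he', mul_one, Complex.norm_real, Real.norm_eq_abs, abs_of_pos (by positivity)]
  -- general facts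
  have hfacts : ∀ x ∈ K, ρ / 8 - ρ / 10000 ≤ ‖x - y‖ → ‖x - y‖ ≤ ρ / 8 + ρ / 10000 →
      12 / 100 * ρ ≤ |((x - y) * conj w).re| ∧ |((x - y) * conj w).im| ≤ 16 / 100000 * ρ := by
    intro x hx h3 h4
    have him : ∀ v ∈ K, ‖v - y‖ ≤ ρ → |((v - p) * conj w).im| ≤ ε * (2 * t) := by
      intro v hv hvy
      refine rg_tri_ray ht (by linarith) hT hv ?_
      have h5 : v - (p + t * (om3 ^ (i : ℕ) * e)) = (v - y) + (y - (p + t * w)) := by
        rw [hwdef]
        ring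
      rw [h5]
      refine (norm_add_le _ _).trans ?_
      linarith
    have h5 := him x hx (by linarith)
    have h6 := him y hyK (by rw [sub_self, norm_zero]; exact hρ0.le)
    have h7 : |((x - y) * conj w).im| ≤ 16 / 100000 * ρ := by
      have h8 : (x - y) * conj w = (x - p) * conj w - (y - p) * conj w := by ring
      rw [h8, Complex.sub_im]
      refine (abs_sub _ _).trans ?_
      linarith
    refine ⟨?_, h7⟩
    have h8 := Complex.norm_le_abs_re_add_abs_im ((x - y) * conj w)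
    rw [norm_mul, RCLike.norm_conj, hw, mul_one] at h8
    linarith
  have hb1 : ρ / 8 - ρ / 10000 ≤ ‖y₁ - y‖ ∧ ‖y₁ - y‖ ≤ ρ / 8 + ρ / 10000 := by
    have h3 : y₁ - y = (y₁ - (y + ((ρ / 8 : ℝ) : ℂ) * e')) + ((ρ / 8 : ℝ) : ℂ) * e' := by ring
    constructor
    · have h4 : ((ρ / 8 : ℝ) : ℂ) * e' = (y₁ - y) - (y₁ - (y + ((ρ / 8 : ℝ) : ℂ) * e')) := by ring
      have h5 := norm_sub_le (y₁ - y) (y₁ - (y + ((ρ / 8 : ℝ) : ℂ) * e'))
      rw [← h4, hn1] at h5
      linarith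
    · rw [h3]
      refine (norm_add_le _ _).trans ?_
      rw [hn1]
      linarith
  have hb2 : ρ / 8 - ρ / 10000 ≤ ‖y₂ - y‖ ∧ ‖y₂ - y‖ ≤ ρ / 8 + ρ / 10000 := by
    have h3 : y₂ - y = (y₂ - (y + ((-(ρ / 8) : ℝ) : ℂ) * e')) - ((ρ / 8 : ℝ) : ℂ) * e' := by
      push_cast
      ring
    constructor
    · have h4 : ((ρ / 8 : ℝ) : ℂ) * e' = (y₂ - (y + ((-(ρ / 8) : ℝ) : ℂ) * e')) - (y₂ - y) := by
        push_cast
        ring
      have h5 := norm_sub_le (y₂ - (y + ((-(ρ / 8) : ℝ) : ℂ) * e')) (y₂ - y)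
      rw [← h4, hn1] at h5
      linarith
    · rw [h3]
      refine (norm_sub_le _ _).trans ?_
      rw [hn1]
      linarith
  have hsum : |((y₁ - y) * conj w).re + ((y₂ - y) * conj w).re| ≤ 2 * ρ / 10000 := by
    have h3 : ((y₁ - y) * conj w).re + ((y₂ - y) * conj w).re =
        (((y₁ - (y + ((ρ / 8 : ℝ) : ℂ) * e')) + (y₂ - (y + ((-(ρ / 8) : ℝ) : ℂ) * e'))) *
          conj w).re := by
      rw [← Complex.add_re]
      congr 1
      push_cast
      ring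
    rw [h3]
    refine (Complex.abs_re_le_norm _).trans ?_
    rw [norm_mul, RCLike.norm_conj, hw, mul_one]
    refine (norm_add_le _ _).trans ?_
    linarith
  obtain ⟨hr1, hi1⟩ := hfacts y₁ hy₁K hb1.1 hb1.2
  obtain ⟨hr2, hi2⟩ := hfacts y₂ hy₂K hb2.1 hb2.2
  obtain ⟨u, v, huK, hvK, hu1, hv1, hur, hvr, hvi⟩ : ∃ u v : ℂ, u ∈ K ∧ v ∈ K ∧
      ‖u - y‖ ≤ ρ / 8 + ρ / 10000 ∧ ‖v - y‖ ≤ ρ / 8 + ρ / 10000 ∧
      12 / 100 * ρ ≤ ((u - y) * conj w).re ∧ ((v - y) * conj w).re ≤ -(12 / 100 * ρ) ∧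
      |((v - y) * conj w).im| ≤ 16 / 100000 * ρ := by
    rw [abs_le] at hsum
    rcases le_abs.1 hr1 with h3 | h3
    · rcases le_abs.1 hr2 with h4 | h4
      · exfalso
        linarith [hsum.2]
      · exact ⟨y₁, y₂, hy₁K, hy₂K, hb1.2, hb2.2, h3, by linarith, hi2⟩
    · rcases le_abs.1 hr2 with h4 | h4
      · exact ⟨y₂, y₁, hy₂K, hy₁K, hb2.2, hb1.2, h4, by linarith, hi1⟩
      · exfalso
        linarith [hsum.1]
  -- real part of `y - p`
  have hyr : t - ε * (2 * t) ≤ ((y - p) * conj w).re ∧ ((y - p) * conj w).re ≤ t + ε * (2 * t) := by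
    have h3 : (y - p) * conj w = (y - (p + t * w)) * conj w + t := by
      linear_combination (t : ℂ) * hww
    have h4 : |((y - (p + t * w)) * conj w).re| ≤ ε * (2 * t) := by
      refine (Complex.abs_re_le_norm _).trans ?_
      rw [norm_mul, RCLike.norm_conj, hw, mul_one]
      exact hy
    rw [h3, Complex.add_re, Complex.ofReal_re]
    rw [abs_le] at h4
    constructor <;> linarith [h4.1, h4.2]
  have hyi : |((y - p) * conj w).im| ≤ ε * (2 * t) := by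
    refine rg_tri_ray ht (by linarith) hT hyK ?_
    refine hy.trans ?_
    linarith
  have hup : t ≤ ‖u - p‖ := by
    have h3 : (u - p) * conj w = (u - y) * conj w + (y - p) * conj w := by ring
    have h4 := Complex.re_le_norm ((u - p) * conj w)
    rw [norm_mul, RCLike.norm_conj, hw, mul_one, h3, Complex.add_re] at h4
    linarith [hyr.1]
  have hvp : ‖v - p‖ ≤ t := by
    have h3 : (v - p) * conj w = (v - y) * conj w + (y - p) * conj w := by ring
    have h4 := Complex.norm_le_abs_re_add_abs_im ((v - p) * conj w)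
    rw [norm_mul, RCLike.norm_conj, hw, mul_one, h3, Complex.add_re, Complex.add_im] at h4
    have h5 : |((v - y) * conj w).im + ((y - p) * conj w).im| ≤ 16 / 100000 * ρ + ε * (2 * t) :=
      (abs_add_le _ _).trans (add_le_add hvi hyi)
    have h6 : -(ρ / 8 + ρ / 10000) ≤ ((v - y) * conj w).re := by
      have h7 := Complex.abs_re_le_norm ((v - y) * conj w)
      rw [norm_mul, RCLike.norm_conj, hw, mul_one, abs_le] at h7
      linarith [h7.1]
    have h7 : 0 ≤ ((v - y) * conj w).re + ((y - p) * conj w).re := by linarith [hyr.1]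
    rw [abs_of_nonneg h7] at h4
    linarith [hyr.2]
  have huv : ‖u - v‖ ≤ 2 * (ρ / 8 + ρ / 10000) := by
    have h3 : u - v = (u - y) - (v - y) := by ring
    rw [h3]
    refine (norm_sub_le _ _).trans ?_
    linarith
  obtain ⟨Γ, -, hΓc, hΓK, huΓ, hvΓ, hΓb⟩ := rg_chain hK (by norm_num) hFR huK hvK (by linarith)
  have hcont : ContinuousOn (fun z : ℂ => ‖z - p‖) Γ := by fun_prop
  obtain ⟨z, hzΓ, hz⟩ := hΓc.intermediate_value hvΓ huΓ hcont ⟨hvp, hup⟩
  refine ⟨z, hΓK hzΓ, hz, ?_⟩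
  have h3 := hΓb hzΓ
  rw [mem_closedBall, dist_eq_norm] at h3
  have h4 : z - (p + t * w) = (z - u) + (u - y) + (y - (p + t * w)) := by ring
  rw [h4]
  refine (norm_add_le _ _).trans ?_
  have h5 := norm_add_le (z - u) (u - y)
  linarith

theorem rg_tri {K : Set ℂ} (hK : IsClosed K) {p : ℂ} {r₀ c ε : ℝ} (hr₀ : 0 < r₀) (hc0 : 0 < c)
    (hc : c ≤ 1 / 100) (hε0 : 0 < ε) (hε : ε ≤ c / 100000)
    (h1 : ∀ r : ℝ, 0 < r → r ≤ r₀ → ∃ e, TripodDir K p r ε e)
    (h2 : ∀ x ∈ K, 0 < ‖x - p‖ → ‖x - p‖ ≤ r₀ → ∀ r : ℝ, 0 < r → r ≤ c * ‖x - p‖ →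
      FlatAt K x r (1 / 10000)) :
    ∀ t : ℝ, 0 < t → t ≤ r₀ / 4 → ∃ z : Fin 3 → ℂ, Function.Injective z ∧
      (∀ i, z i ∈ K ∧ ‖z i - p‖ = t) ∧ ‖∑ i, (z i - p)‖ ≤ 3 * t / 50 := by
  intro t ht htr
  obtain ⟨e, hT⟩ := h1 (2 * t) (by linarith) (by linarith)
  choose z hzK hzt hz using rg_tri_one hK hc0 hc hε0 hε ht htr hT h2
  refine ⟨z, ?_, fun i => ⟨hzK i, hzt i⟩, ?_⟩
  · intro i j hij
    by_contra hne
    have h3 := rg_tri_dist hT.1 hne ht.le ht.le
    have h4 : (t : ℂ) * (om3 ^ (i : ℕ) * e) - t * (om3 ^ (j : ℕ) * e) =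
        (z j - (p + t * (om3 ^ (j : ℕ) * e))) - (z i - (p + t * (om3 ^ (i : ℕ) * e))) := by
      rw [hij]
      ring
    rw [h4] at h3
    have h5 := norm_sub_le (z j - (p + t * (om3 ^ (j : ℕ) * e)))
      (z i - (p + t * (om3 ^ (i : ℕ) * e)))
    have h6 := hz i
    have h7 := hz j
    linarith
  · have h3 : ∑ i, (z i - p) = ∑ i, (z i - (p + t * (om3 ^ (i : ℕ) * e))) := by
      rw [Fin.sum_univ_three, Fin.sum_univ_three]
      have h4 := rg_tri_sum
      simp only [Fin.val_zero, Fin.val_one, Fin.val_two, pow_zero, pow_one]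
      linear_combination ((t : ℂ) * e) * h4
    rw [h3]
    refine (norm_sum_le _ _).trans ?_
    refine (Finset.sum_le_sum (fun i _ => hz i)).trans ?_
    rw [Finset.sum_const, Finset.card_univ, Fintype.card_fin, nsmul_eq_mul]
    push_cast
    linarith

end Pool.Agent.MP099f24
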