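import Mathlib
import Pool.Agent.Lib.MP_099f24_an.RG.Final
import Pool.Agent.Lib.MP_099f24_an.RG.Tri
import Pool.Agent.Lib.MP_099f24_an.LF.Triple

/-!
# MP_099f24_an, PART R: triple points of minimizers
-/

namespace Pool.Agent.MP099f24

open MeasureTheory Filter Topology Set Metric
open scoped ENNReal ContDiff ComplexConjugate

section

variable {Ω : Set ℂ} {u : ℂ → ℝ} {g j : ℂ → ℂ}

/-- **Triple points.** -/
theorem rg_triple (h : MSMin Ω u g j) {p : ℂ} (hpΩ : p ∈ Ω) (hp : p ∈ closure (discSet Ω u))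
    (H1 : ∀ δ : ℝ, 0 < δ → ∃ r₁ : ℝ, 0 < r₁ ∧ ∀ r : ℝ, 0 < r → r < r₁ →
      (∃ e, TripodDir (closure (discSet Ω u)) p r δ e) ∧
        Dq g p r + Lq Ω u p r ≤ (3 + δ) * r)
    (H2 : ∀ δ : ℝ, 0 < δ → ∃ c : ℝ, 0 < c ∧ ∃ r₁ : ℝ, 0 < r₁ ∧ ∀ x ∈ closure (discSet Ω u),
      x ≠ p → ‖x - p‖ < r₁ → ∀ r : ℝ, 0 < r → r ≤ c * ‖x - p‖ →
        FlatAt (closure (discSet Ω u)) x r δ ∧ Dq g x r + Lq Ω u x r ≤ (2 + δ) * r) :
    IsTriple (closure (discSet Ω u)) p := by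
  set K := closure (discSet Ω u) with hK
  obtain ⟨c, hc0, hc1, r₁, hr₁, hb, hN⟩ :=
    rgfin_near h hpΩ (δ := 1 / 10000) (by norm_num) le_rfl (H2 _ (by norm_num))
  -- crossing at `p`
  obtain ⟨r₂, hr₂, H1a⟩ := H1 (c / 100000) (by positivity)
  obtain ⟨r₃, hr₃, H1b⟩ := H1 (1 / 1000) (by norm_num)
  set r₀ : ℝ := min (min r₁ (r₂ / 2)) (r₃ / 2) with hr₀
  have hr₀0 : 0 < r₀ := lt_min (lt_min hr₁ (by positivity)) (by positivity)
  have hr₀1 : r₀ ≤ r₁ := (min_le_left _ _).trans (min_le_left _ _)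
  have hr₀2 : r₀ ≤ r₂ / 2 := (min_le_left _ _).trans (min_le_right _ _)
  have hr₀3 : r₀ ≤ r₃ / 2 := min_le_right _ _
  have htri := rg_tri (K := K) isClosed_closure (p := p) (r₀ := r₀) (c := c)
    (ε := c / 100000) hr₀0 hc0 hc1 (by positivity) le_rfl
    (fun r hr hrr => (H1a r hr (by linarith)).1)
    (fun x hx hx0 hxr r hr hrr => ((hN x hx (by
      rintro rfl
      rw [sub_self, norm_zero] at hx0
      exact lt_irrefl _ hx0) (by linarith)).2.2.2 r hr hrr).1)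
  have hball : ball p (r₀ / 4) ⊆ Ω := (ball_subset_ball (by linarith)).trans hb
  obtain ⟨d1, d2⟩ := rg_decay (a := p) (R := r₀ / 4) (n := 3) h hball (by norm_num)
    (by
      filter_upwards [ae_restrict_mem measurableSet_Ioo] with s hs
      obtain ⟨z, hz1, hz2, -⟩ := htri s hs.1 hs.2.le
      have hsub : range z ⊆ closure (discSet Ω u) ∩ sphere p s := by
        rintro _ ⟨i, rfl⟩
        exact ⟨(hz2 i).1, by rw [mem_sphere, dist_eq_norm]; exact (hz2 i).2⟩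
      refine le_trans ?_ (encard_le_encard hsub)
      rw [← image_univ, hz1.encard_image, encard_univ]
      simp)
    (by
      filter_upwards [ae_restrict_mem measurableSet_Ioo] with s hs
      obtain ⟨z, hz1, hz2, hz3⟩ := htri s hs.1 hs.2.le
      exact rg_arc hs.1 z (by norm_num) hz2 (by push_cast; exact hz3))
    (by
      intro s hs
      have := (H1b s hs.1 (by linarith [hs.2])).2
      push_cast
      exact this)
  -- growth of the Dirichlet energy at `p`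
  set t₀ : ℝ := r₀ / 16 with ht₀
  have ht₀0 : 0 < t₀ := by positivity
  set A : ℝ := 6 * Dq g p (2 * t₀) / t₀ ^ (11 / 10 : ℝ) with hA
  have hA0 : 0 ≤ A := by
    have := asm_Dq_nonneg (g := g) (a := p) (2 * t₀)
    positivity
  have hDp : ∀ s : ℝ, 0 < s → s ≤ t₀ → Dq g p s ≤ A * s ^ (11 / 10 : ℝ) := by
    intro s hs hst
    have e1 := d2 s t₀ hs hst (by linarith)
    have e2 := d1 s ⟨hs, by linarith⟩
    have e3 : (s / t₀) ^ (11 / 10 : ℝ) = s ^ (11 / 10 : ℝ) / t₀ ^ (11 / 10 : ℝ) :=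
      Real.div_rpow hs.le ht₀0.le _
    rw [e3] at e1
    have e4 : 6 * (s ^ (11 / 10 : ℝ) / t₀ ^ (11 / 10 : ℝ)) * Dq g p (2 * t₀) =
        A * s ^ (11 / 10 : ℝ) := by rw [hA]; ring
    rw [e4] at e1
    push_cast at e1 e2
    linarith
  -- conclusion
  refine lf_triple (r₀ := t₀ / 2)
    (C₀ := 1000 * Real.sqrt (A * 2 ^ (11 / 10 : ℝ) / c) / c ^ (1 / 20 : ℝ)) (α := 1 / 20)
    (c := c / 1000) (by positivity) (by positivity) (by positivity) (by norm_num)
    (isClosed_closure.inter isClosed_closedBall) hp ?_ ?_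
  · intro ε hε
    obtain ⟨r₅, hr₅, H⟩ := H1 ε hε
    exact ⟨r₅ / 2, by positivity, fun r hr hrr => (H r hr (by linarith)).1⟩
  · intro x hx hxp hxr r hr hrr
    obtain ⟨n1, n2, n3, n4⟩ := hN x hx hxp (by linarith)
    set d := ‖x - p‖ with hd
    have hd0 : 0 < d := norm_pos_iff.2 (sub_ne_zero.2 hxp)
    set R : ℝ := c * d with hR
    have hR0 : 0 < R := by positivity
    have hRd : R ≤ d := by rw [hR]; nlinarith
    have hfl := rg_flat h (x₀ := x) (R := R) hR0 n1 hx n2 n3 r hr (by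
      rw [hR]; linarith)
    refine rgflat_mono hr.le ?_ hfl
    have e1 : Dq g x R ≤ Dq g p (2 * d) := by
      refine asm_Dq_le h.toSBVData hball (by linarith) ?_
      rw [dist_eq_norm]
      linarith
    have e2 := hDp (2 * d) (by positivity) (by linarith)
    have e3 : (2 * d) ^ (11 / 10 : ℝ) = 2 ^ (11 / 10 : ℝ) * d ^ (11 / 10 : ℝ) :=
      Real.mul_rpow (by norm_num) hd0.le
    have e4 : d ^ (11 / 10 : ℝ) = d ^ (1 / 10 : ℝ) * d := by
      rw [← Real.rpow_add_one hd0.ne']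
      norm_num
    have e5 : Dq g x R / R ≤ A * 2 ^ (11 / 10 : ℝ) / c * d ^ (1 / 10 : ℝ) := by
      rw [div_le_iff₀ hR0]
      refine (e1.trans e2).trans (le_of_eq ?_)
      rw [e3, e4, hR]
      field_simp
    have e6 : Real.sqrt (d ^ (1 / 10 : ℝ)) = d ^ (1 / 20 : ℝ) := by
      rw [Real.sqrt_eq_rpow, ← Real.rpow_mul hd0.le]
      norm_num
    have e7 : Real.sqrt (Dq g x R / R) ≤
        Real.sqrt (A * 2 ^ (11 / 10 : ℝ) / c) * d ^ (1 / 20 : ℝ) := by
      rw [← e6, ← Real.sqrt_mul (by positivity)]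
      exact Real.sqrt_le_sqrt e5
    have e8 : (r / R) ^ (1 / 20 : ℝ) =
        r ^ (1 / 20 : ℝ) / (c ^ (1 / 20 : ℝ) * d ^ (1 / 20 : ℝ)) := by
      rw [Real.div_rpow hr.le hR0.le, hR, Real.mul_rpow hc0.le hd0.le]
    have hd20 : 0 < d ^ (1 / 20 : ℝ) := by positivity
    have hc20 : 0 < c ^ (1 / 20 : ℝ) := by positivity
    have e9 : 0 ≤ (r / R) ^ (1 / 20 : ℝ) := by positivity
    calc 1000 * Real.sqrt (Dq g x R / R) * (r / R) ^ (1 / 20 : ℝ) ≤
          1000 * (Real.sqrt (A * 2 ^ (11 / 10 : ℝ) / c) * d ^ (1 / 20 : ℝ)) *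
            (r / R) ^ (1 / 20 : ℝ) := by gcongr
      _ = _ := by
        rw [e8]
        field_simp

end

end Pool.Agent.MP099f24
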