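import Mathlib
import Pool.Agent.Lib.MP_099f24_an.RG.Trip
import Pool.Agent.Lib.MP_099f24_an.RG.Defs

/-!
# MP_099f24_an, PART R: the local structure of minimizers from the structure of the blow-ups
-/

namespace Pool.Agent.MP099f24

open MeasureTheory Filter Topology Set Metric
open scoped ENNReal ContDiff ComplexConjugate

/-- **Local structure**, from the structure of the blow-ups. -/
theorem rg_local {Ω : Set ℂ} {u : ℂ → ℝ} {g j : ℂ → ℂ} (h : MSMin Ω u g j) {p : ℂ} (hpΩ : p ∈ Ω)
    (hp : p ∈ closure (discSet Ω u)) (hb : MSBlow Ω u g p) :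
    IsRegPt (closure (discSet Ω u)) p ∨ IsTip (closure (discSet Ω u)) p ∨
      IsTriple (closure (discSet Ω u)) p := by
  rcases hb with H | ⟨H1, H2⟩ | ⟨H1, H2⟩
  · exact Or.inl (rg_reg h hpΩ hp H)
  · exact Or.inr (Or.inr (rg_triple h hpΩ hp H1 H2))
  · exact Or.inr (Or.inl (rg_tip h hpΩ hp H1 H2))

end Pool.Agent.MP099f24
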